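import Mathlib

/-! A bound for the birational Nevanlinna constant of a hyperplane section. -/

namespace Pool.Agent.Lib.MP_651af7_nt.Fc

variable (F : Type) {K κ : Type} [Field F] [Field K] [Algebra F K]

/-- `O` is a valuation ring over `F` at which `f e` has a pole of the largest order. -/
def Pole (f : κ → K) (O : ValuationSubring K) (e : κ) : Prop :=
  (∀ z : F, algebraMap F K z ∈ O) ∧ f e ∉ O ∧ ∀ i, f i / f e ∈ O

/-- Some space spanned by `r` monomials of degree `d` has, at each valuation ring at infinity, a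
basis whose product vanishes to order at least `a / b * r * d` times the order of the pole. -/
def Nev [Fintype κ] (f : κ → K) (a b : ℕ) : Prop :=
  ∃ (d r : ℕ) (α : Fin r → κ → ℕ), 0 < d ∧ 0 < r ∧ (∀ m, ∑ i, α m i = d) ∧
    LinearIndependent F (fun m => ∏ i, f i ^ α m i) ∧ ∀ O e, Pole F f O e →
      ∃ G : Matrix (Fin r) (Fin r) F, G.det ≠ 0 ∧
        (∏ l, (∑ m, G l m • ∏ i, f i ^ α m i) / f e ^ d) ^ b * f e ^ (a * r * d) ∈ O

end Pool.Agent.Lib.MP_651af7_nt.Fc
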