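import Pool.Agent.Lib.MP_651af7_nt.Fc.Core
import Pool.Agent.Lib.MP_651af7_nt.Fc.Defs

/-! The inequality and the finiteness of integral points off a hypersurface. -/

namespace Pool.Agent.Lib.MP_651af7_nt.Fc

open MvPolynomial Finset Height NumberField Filter Real Module
open IntermediateField (adjoin)
open Rt (Pl av mu)

theorem nev_curve {F K κ : Type} [Field F] [Field K] [Algebra F K] [Fintype κ] (f : κ → K) {u : κ}
    (ht : Transcendental F (f u)) (htop : adjoin F (Set.range f) = ⊤) (h1 : ∃ i, f i = 1) {n : ℕ}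
    (hW : ∀ O e, Pole F f O e →
      ∃ b : Fin n → K, ∀ z ∈ O, ∃ c : Fin n → F, (z - ∑ i, c i • b i) * f e ∈ O) {a b : ℕ}
    (hab : 2 * n * a < b * finrank (adjoin F {f u}) K) : Nev F f a b := by
  obtain ⟨c, hc⟩ := ff2 f u ht htop h1 n
  obtain ⟨r, α, a1, a2, a3, a4⟩ := hc (b * c + 1)
  obtain ⟨o, ho⟩ := h1
  have hr : 0 < r := by
    rcases r with _ | r
    · simpa [ho, Set.range_eq_empty] using a3 o
    · simp
  refine ⟨b * c + 1, r, α, by simp, hr, a1, a2, fun O e hP => ?_⟩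
  obtain ⟨G, j, g1, g2, g3⟩ := a4 O e hP.1 hP.2.1 hP.2.2 (hW O e hP)
  have h2 : a * r * (b * c + 1) < b * ∑ l, j l := by
    refine Nat.lt_of_mul_lt_mul_left (a := 2 * n) ?_
    have h3 := Nat.mul_le_mul_left b g3
    have h4 := Nat.mul_le_mul_right (r * (b * c + 1)) (Nat.succ_le_of_lt hab)
    rw [Nat.succ_eq_add_one] at h4
    linarith
  obtain ⟨m, hm⟩ := Nat.exists_eq_add_of_le h2.le
  have e0 : f e ≠ 0 := fun h => hP.2.1 (h ▸ O.zero_mem)
  refine ⟨G, g1, ?_⟩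
  have h5 := mul_mem (pow_mem (prod_mem fun l (_ : l ∈ univ) => g2 l) b)
    (pow_mem ((O.mem_or_inv_mem _).resolve_left hP.2.1) m)
  simp only [mul_div_right_comm] at h5
  rwa [prod_mul_distrib, prod_pow_eq_pow_sum, mul_pow, ← pow_mul, mul_comm _ b, hm,
    pow_add _ _ m, mul_assoc, mul_assoc _ (f e ^ m), ← mul_pow, mul_inv_cancel₀ e0, one_pow,
    mul_one] at h5

theorem Nev.nevB {F K κ : Type} [Field F] [Field K] [Algebra F K] [Fintype κ] {f : κ → K}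
    {a b : ℕ} (h : Nev F f a b) :
    NevB F f (fun (_ _ : Fin 1) => 1) 1 (fun _ => a) b := by
  obtain ⟨d, r, α, a1, a2, a3, a4, a5⟩ := h
  refine ⟨d, r, α, a1, a2, a3, a4, fun O e c o1 o2 _ => ?_⟩
  simp only [univ_unique, prod_singleton, Pi.one_apply, pow_one, div_one]
  by_cases he : f e ∈ O
  swap
  · exact a5 O e ⟨o1, he, o2.2⟩
  refine ⟨1, by simp, mul_mem (pow_mem (prod_mem fun l _ => ?_) _) (pow_mem he _)⟩
  simp only [Matrix.one_apply, ite_smul, one_smul, zero_smul, sum_ite_eq, mem_univ, if_true]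
  rw [← a3 l, ← prod_pow_eq_pow_sum, ← prod_div_distrib]
  exact prod_mem fun i _ => div_pow (f i) _ _ ▸ pow_mem (o2.2 i) _

variable {k K ι κ β : Type} [Field k] [NumberField k] [Fintype κ] [Field K] [Algebra k K]
  [Fintype ι] {𝓕 : Filter β} {v : β → K → k} {J : Ideal (MvPolynomial ι k)} {y : ι → K}
  {f : κ → K} {o : κ} {a b : ℕ}

theorem Dat.core₁ (D : Dat J y) (h : Sp 𝓕 v) (hN : Nev (adjoin k (Set.range y)) f a b) {ε : ℝ}
    (hε : 0 < ε) : ∃ W ∈ 𝓕, ∀ S : Finset (FinitePlace k), ∃ C : ℝ, ∀ p ∈ W,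
      a * ∑ s : Pl S, mu s * log (⨆ i, av s (v p (f i))) ≤
      (b + ε) * logHeight (fun i => v p (f i)) + ε * logHeight (fun i => v p (y i)) + C := by
  obtain ⟨W, w1, h2⟩ := D.core h (fun _ => one_ne_zero) 0 hN.nevB hε
  refine ⟨_, inter_mem w1 h.one, fun S => (h2 S).imp fun C hC p hp => ?_⟩
  have e : v p 1 = 1 := hp.2
  rw [mul_sum]
  simpa [e, mul_left_comm] using hC p hp.1

theorem Dat.bdd (D : Dat J y) (h : Sp 𝓕 v) (h1 : f o = 1)
    (hV : Nev (adjoin k (Set.range y)) f a b) (hn : b < a)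
    (hy : ∀ i, IsAlgebraic (Algebra.adjoin k (Set.range f)) (y i)) :
    ∃ W ∈ 𝓕, ∀ S : Finset (FinitePlace k), ∃ C : ℝ, ∀ p ∈ W,
      (∀ i, ∀ w : FinitePlace k, w ∉ S → w (v p (f i)) ≤ 1) →
      ∀ s, logHeight₁ (v p (Sum.elim y f s)) ≤ C := by
  choose c c0 hc using fun i => ht_alg h (hy i)
  obtain ⟨B, hB⟩ : ∃ B, B = ∑ i, c i := ⟨_, rfl⟩
  have hB0 : 0 ≤ B := hB ▸ sum_nonneg fun i _ => c0 i
  obtain ⟨N, hN⟩ : ∃ N : ℝ, N = Fintype.card κ := ⟨_, rfl⟩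
  have hN0 : 0 ≤ N := by rw [hN]; positivity
  obtain ⟨ε, hε, h2⟩ : ∃ ε : ℝ, 0 < ε ∧ ε * (2 * (1 + B * N)) = 1 :=
    ⟨1 / (2 * (1 + B * N)), by positivity, by field_simp⟩
  obtain ⟨W, w1, h3⟩ := D.core₁ h hV hε
  refine ⟨_, inter_mem w1 (h.one.and (eventually_all.2 hc)), fun S => ?_⟩
  obtain ⟨C, hC⟩ := h3 S
  refine ⟨(1 + B * N) * (2 * (ε * B + C)) + B, fun p ⟨p1, p2, p3⟩ hS => ?_⟩
  have e0 : v p (f o) = 1 := h1 ▸ p2
  have e1 := hC p p1
  have e2 := le_prox S (x := fun i => v p (f i)) e0 hS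
  have e3 : ∀ i, logHeight₁ (v p (f i)) ≤ logHeight fun i => v p (f i) := fun i => by
    simpa [e0] using Av.logHeight₁_div_le (fun i => v p (f i)) i o
  have e4 : ∑ i, logHeight₁ (v p (f i)) ≤ N * logHeight fun i => v p (f i) := by
    simpa [hN] using sum_le_sum fun i (_ : i ∈ univ) => e3 i
  have e5 := sum_le_sum fun i (_ : i ∈ univ) => p3 i
  have e6 := Av.logHeight_le_sum fun i => v p (y i)
  have e7 : (b + 1 : ℝ) ≤ a := by exact_mod_cast hn
  have e8 := logHeight_nonneg fun i => v p (f i)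
  have e9 : ∀ i, logHeight₁ (v p (y i)) ≤ ∑ i, logHeight₁ (v p (y i)) := fun i =>
    single_le_sum (fun i _ => zero_le_logHeight₁ (v p (y i))) (mem_univ i)
  rw [← sum_mul, ← hB] at e5
  have e10 := mul_le_mul e7 e2 e8 (Nat.cast_nonneg _)
  have e11 := mul_le_mul_of_nonneg_left e4 hB0
  have e12 := mul_le_mul_of_nonneg_left (e6.trans e5) hε.le
  have e13 := mul_le_mul_of_nonneg_left e11 hε.le
  generalize logHeight (fun i => v p (f i)) = L at *
  have e14 : L ≤ 2 * (ε * B + C) := by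
    have := congrArg (· * L) h2
    beta_reduce at this
    linarith
  have e15 := mul_le_mul_of_nonneg_left e14 (mul_nonneg hB0 hN0)
  have e16 := mul_nonneg (mul_nonneg hB0 hN0) e8
  rintro (i | i)
  · have := e9 i
    rw [Sum.elim_inl]
    linarith
  · have := e3 i
    rw [Sum.elim_inr]
    linarith

theorem sp_top (htop : adjoin (adjoin k (Set.range y)) (Set.range f) = ⊤) :
    ∃ v : (ι ⊕ κ → k) → K → k, Sp (gen k (Sum.elim y f)) v ∧ ∀ᶠ p in gen k (Sum.elim y f),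
      (∀ i, v p (y i) = p (.inl i)) ∧ ∀ i, v p (f i) = p (.inr i) := by
  obtain ⟨v, h, hv⟩ := exists_sp (k := k) (ξ := Sum.elim y f) (by
    rw [Set.Sum.elim_range, ← IntermediateField.adjoin_adjoin_left, htop,
      IntermediateField.restrictScalars_top])
  exact ⟨v, h, (eventually_all.2 hv).mono fun p hp => ⟨fun i => hp (.inl i), fun i => hp (.inr i)⟩⟩

theorem Dat.ineq (D : Dat J y) (htop : adjoin (adjoin k (Set.range y)) (Set.range f) = ⊤)
    {q n : ℕ} {U : Fin q → Fin n → MvPolynomial (ι ⊕ κ) k}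
    (hU : ∀ j, ∃ l, aeval (Sum.elim y f) (U j l) ≠ 0) (e : Fin q → ℕ) {δ a : Fin q → ℕ}
    (hN : NevB (adjoin k (Set.range y)) f (fun j l => aeval (Sum.elim y f) (U j l)) δ a b) {ε : ℝ}
    (hε : 0 < ε) : ∃ W ∈ Fc.gen k (Sum.elim y f), ∀ S : Finset (FinitePlace k), ∃ C : ℝ, ∀ p ∈ W,
      (∀ j, ∃ l, eval p (U j l) ≠ 0) ∧
      ∑ s : Pl S, mu s * ∑ j, a j * log ((⨆ i, av s (p (.inl i))) ^ e j *
        (⨆ i, av s (p (.inr i))) ^ δ j / ⨆ l, av s (eval p (U j l))) ≤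
      (b + ε) * logHeight (fun i => p (.inr i)) + ε * logHeight (fun i => p (.inl i)) + C := by
  obtain ⟨v, h, hv⟩ := sp_top (k := k) htop
  obtain ⟨W, w1, h3⟩ := D.core h (fun j => Function.ne_iff.2 (hU j)) e hN hε
  choose l hl using hU
  refine ⟨_, inter_mem w1 (hv.and ((eventually_all.2 fun j => h.ne (hl j)).and
    (eventually_all.2 fun j => eventually_all.2 fun l => h.aeval (Sum.elim y f) (U j l)))),
    fun S => (h3 S).imp fun C hC p ⟨p1, ⟨p2, p3⟩, p4, p5⟩ => ?_⟩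
  have e1 : (fun s => v p (Sum.elim y f s)) = p := funext (Sum.forall.2 ⟨p2, p3⟩)
  simp only [e1] at p5
  exact ⟨fun j => ⟨l j, p5 j _ ▸ p4 j⟩, by simpa only [p2, p3, p5] using hC p p1⟩

theorem Dat.fin (D : Dat J y) (htop : adjoin (adjoin k (Set.range y)) (Set.range f) = ⊤)
    (hV : Nev (adjoin k (Set.range y)) (fun i : Option κ => i.elim 1 f) a b) (hn : b < a)
    (hy : ∀ i, IsAlgebraic (Algebra.adjoin k (Set.range f)) (y i)) :
    ∃ W ∈ Fc.gen k (Sum.elim y f), ∀ S : Finset (FinitePlace k),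
      {p ∈ W | ∀ i, ∀ w : FinitePlace k, w ∉ S → w (p (.inr i)) ≤ 1}.Finite := by
  obtain ⟨v, h, hv⟩ := sp_top (k := k) htop
  obtain ⟨W, w1, h3⟩ := D.bdd h (o := none) rfl hV hn fun i => by
    rw [Option.range_eq]
    exact Algebra.adjoin_insert_one k (Set.range f) ▸ hy i
  refine ⟨_, inter_mem w1 (hv.and h.one), fun S => ?_⟩
  obtain ⟨C, hC⟩ := h3 S
  refine (Set.Finite.pi' fun _ => finite_setOfPred_logHeight₁_le (K := k) C).subset
    fun p ⟨⟨p1, ⟨p2, p3⟩, p5⟩, p4⟩ s => ?_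
  have h4 := hC p p1 (Option.forall.2 ⟨fun w _ => (p5 ▸ map_one w.1).le, fun i => p3 i ▸ p4 i⟩)
  rcases s with i | i
  · exact p2 i ▸ h4 (.inl i)
  · exact p3 i ▸ h4 (.inr (some i))

theorem Dat.curve (D : Dat J y) (htop : adjoin (adjoin k (Set.range y)) (Set.range f) = ⊤) {u : κ}
    (hu : f u ∉ adjoin k (Set.range y)) {n : ℕ}
    (hW : ∀ (O : ValuationSubring K) (e : κ), (∀ z ∈ adjoin k (Set.range y), z ∈ O) → f e ∉ O →
      (∀ i, f i / f e ∈ O) → ∃ b : Fin n → K, ∀ z ∈ O, ∃ c : Fin n → adjoin k (Set.range y),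
        (z - ∑ i, c i • b i) * f e ∈ O)
    (hn : 2 * n < finrank (adjoin (adjoin k (Set.range y)) {f u}) K) :
    Nev (adjoin k (Set.range y)) (fun i : Option κ => i.elim 1 f) (2 * n + 2) (2 * n + 1) := by
  refine nev_curve _ (u := some u) (fun h => hu (D.cl _ h)) ?_ ⟨none, rfl⟩ (n := n) ?_ ?_
  · exact eq_top_iff.2 (htop.ge.trans (IntermediateField.adjoin.mono _ _ _ (by
      rintro _ ⟨i, rfl⟩
      exact ⟨some i, rfl⟩)))
  · rintro O (_ | e) h
    · exact (h.2.1 O.one_mem).elim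
    · exact hW O e (fun z hz => h.1 ⟨z, hz⟩) h.2.1 fun i => h.2.2 (some i)
  · exact lt_of_lt_of_le (by nlinarith) (Nat.mul_le_mul_left _ (Nat.succ_le_of_lt hn))

end Pool.Agent.Lib.MP_651af7_nt.Fc
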