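import Mathlib

/-! A bound for the birational Nevanlinna constant, in terms of valuation rings. -/

namespace Pool.Agent.Lib.MP_651af7_nt.Fc

variable {K κ : Type} [Field K]

/-- The coordinate `f e` is not zero and has the smallest valuation at `O`. -/
def Max (O : ValuationSubring K) (f : κ → K) (e : κ) : Prop := f e ≠ 0 ∧ ∀ i, f i / f e ∈ O

/-- Some space spanned by `r` monomials of degree `d` in `f` has, at each valuation ring over `F`, a
basis such that `b` times the sum of the divisors of its members is at least `r d ∑ a j D j`, where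
`D j` is cut out by the sections `u j` of degree `δ j`. -/
def NevB (F : Type) [Field F] [Algebra F K] [Fintype κ] (f : κ → K) {q s : ℕ}
    (u : Fin q → Fin s → K) (δ a : Fin q → ℕ) (b : ℕ) : Prop :=
  ∃ (d r : ℕ) (α : Fin r → κ → ℕ), 0 < d ∧ 0 < r ∧ (∀ m, ∑ i, α m i = d) ∧
    LinearIndependent F (fun m => ∏ i, f i ^ α m i) ∧
    ∀ (O : ValuationSubring K) (e : κ) (c : Fin q → Fin s), (∀ z : F, algebraMap F K z ∈ O) →
      Max O f e → (∀ j, Max O (u j) (c j)) → ∃ G : Matrix (Fin r) (Fin r) F, G.det ≠ 0 ∧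
        (∏ l, (∑ m, G l m • ∏ i, f i ^ α m i) / f e ^ d) ^ b *
          ∏ j, (f e ^ δ j / u j (c j)) ^ (a j * r * d) ∈ O

end Pool.Agent.Lib.MP_651af7_nt.Fc
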