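import Mathlib

/-! Charts, proper intersection and the constant of Ru and Vojta. -/

namespace Pool.Agent.Lib.MP_651af7_nt.Fc

open Module

variable (F : Type) {K κ : Type} [Field F] [Field K] [Algebra F K] [Fintype κ] (f : κ → K)
  {q s : ℕ} (u : Fin q → Fin s → K) (δ : Fin q → ℕ)

/-- The values at `f` of the forms of degree `d`. -/
def mon (d : ℕ) : Submodule F K :=
  Submodule.span F {z | ∃ α : κ → ℕ, ∑ i, α i = d ∧ z = ∏ i, f i ^ α i}

/-- The coordinate ring of the chart in which `f e` and the `u j (c j)` are generators. -/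
def chart (e : κ) (c : Fin q → Fin s) : Subalgebra F K :=
  Algebra.adjoin F ({z | ∃ i, z = f i / f e} ∪ {z | ∃ j l, z = u j l / u j (c j)})

/-- In each chart the local equation `φ j` is not a zero divisor modulo any set of the others. -/
def Proper : Prop :=
  ∀ e c, f e ≠ 0 → (∀ j, u j (c j) ≠ 0) → ∀ φ : Fin q → chart F f u e c,
    (∀ j, φ j = u j (c j) / f e ^ δ j) → ∀ (T : Set (Fin q)) j, j ∉ T →
      ∀ g, φ j * g ∈ Ideal.span (φ '' T) → g ∈ Ideal.span (φ '' T)

/-- The forms of degree `d` that are divisible in each chart by the `m`-th power of `φ j`. -/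
def van (j : Fin q) (d m : ℕ) : Submodule F K :=
  Submodule.span F {z | z ∈ mon F f d ∧ ∀ e c, f e ≠ 0 → (∀ j, u j (c j) ≠ 0) →
    ∃ g ∈ chart F f u e c, z / f e ^ d = (u j (c j) / f e ^ δ j) ^ m * g}

/-- The constant `β (L, D j)` of Ru and Vojta. -/
noncomputable def beta (j : Fin q) : ℝ :=
  Filter.liminf (fun d : ℕ => (∑' m : ℕ, (finrank F (van F f u δ j d (m + 1)) : ℝ)) /
    (d * finrank F (mon F f d))) Filter.atTop

end Pool.Agent.Lib.MP_651af7_nt.Fc
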