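import Pool.Agent.Lib.MP_651af7_nt.Fc.RA
import Pool.Agent.Lib.MP_651af7_nt.Fc.RDefs
import Pool.Agent.Lib.MP_651af7_nt.Fc.RVD

/-! Proper intersection bounds the birational Nevanlinna constant. -/

namespace Pool.Agent.Lib.MP_651af7_nt.Fc

open Module Finset

theorem disc {Γ Q : Type} [LinearOrderedCommGroupWithZero Γ] [Fintype Q] (t : Q → Γ)
    (ht : ∀ j, t j ≤ 1) (a : Q → ℕ) (N : ℕ) : ∃ (B : ℕ) (w : Q → ℕ) (ρ : Γ), B ≠ 0 ∧ ρ ≤ 1 ∧
      (∀ j, t j ^ B ≤ ρ ^ w j) ∧ ρ ^ ((N + 1) * ∑ j, w j * a j) ≤ (∏ j, t j ^ (N * a j)) ^ B := by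
  classical
  rcases (univ.filter fun j => 0 < a j).eq_empty_or_nonempty with h | h
  · have h0 : ∀ j, a j = 0 := fun j => by simpa using filter_eq_empty_iff.1 h (mem_univ j)
    exact ⟨1, 0, 1, one_ne_zero, le_rfl, by simpa using ht, by simp [h0]⟩
  obtain ⟨i, h1, h2⟩ := exists_min_image _ t h
  obtain ⟨B, hB⟩ : ∃ B, B = N * ∑ j, a j + 1 := ⟨_, rfl⟩
  let w : Q → ℕ := fun j => Nat.findGreatest (fun n => t j ^ B ≤ t i ^ n) B
  have h3 : w i = B := Nat.findGreatest_eq le_rfl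
  have h4 : ∀ j, 0 < a j → t i ^ (w j + 1) ≤ t j ^ B := fun j hj => by
    rcases (Nat.findGreatest_le (P := fun n => t j ^ B ≤ t i ^ n) B).eq_or_lt with e | e
    · exact (pow_le_pow_right_of_le_one' (ht i) (by change w j = B at e; omega)).trans
        (pow_le_pow_left' (h2 j (mem_filter.2 ⟨mem_univ _, hj⟩)) _)
    · exact (not_le.1 (Nat.findGreatest_is_greatest (P := fun n => t j ^ B ≤ t i ^ n)
        (Nat.lt_succ_self _) e)).le
  refine ⟨B, w, t i, by omega, ht i, fun j => Nat.findGreatest_spec (m := 0)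
    (P := fun n => t j ^ B ≤ t i ^ n) (Nat.zero_le _) (by simpa using pow_le_one' (ht j) B), ?_⟩
  have h5 : w i * a i ≤ ∑ j, w j * a j :=
    single_le_sum (f := fun j => w j * a j) (fun _ _ => Nat.zero_le _) (mem_univ i)
  have h6 : B ≤ w i * a i := h3 ▸ Nat.le_mul_of_pos_right _ (mem_filter.1 h1).2
  have h7 : ∑ j, (w j + 1) * (N * a j) ≤ (N + 1) * ∑ j, w j * a j := by
    have : ∑ j, (w j + 1) * (N * a j) = N * ∑ j, w j * a j + N * ∑ j, a j := by
      rw [mul_sum, mul_sum, ← sum_add_distrib]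
      exact sum_congr rfl fun j _ => by ring
    rw [this, add_one_mul]
    omega
  refine (pow_le_pow_right_of_le_one' (ht i) h7).trans ?_
  rw [← prod_pow_eq_pow_sum, ← prod_pow]
  refine prod_le_prod' fun j _ => ?_
  rcases (a j).eq_zero_or_pos with e | e
  · simp [e]
  · rw [pow_mul, ← pow_mul (t j), mul_comm _ B, pow_mul (t j)]
    exact pow_le_pow_left' (h4 j e) _

variable {F K κ : Type} [Field F] [Field K] [Algebra F K] [Fintype κ] {f : κ → K} {q s : ℕ}
  {u : Fin q → Fin s → K} {δ : Fin q → ℕ}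

theorem mon_basis (d : ℕ) : ∃ (r : ℕ) (α : Fin r → κ → ℕ), (∀ m, ∑ i, α m i = d) ∧
    LinearIndependent F (fun m => ∏ i, f i ^ α m i) ∧
      Submodule.span F (Set.range fun m => ∏ i, f i ^ α m i) = mon F f d := by
  classical
  obtain ⟨b, h1, h2, h3⟩ := exists_linearIndependent F
    {z | ∃ α : κ → ℕ, ∑ i, α i = d ∧ z = ∏ i, f i ^ α i}
  have h4 : b.Finite := (((piAntidiag (univ : Finset κ) d).finite_toSet.image
    fun α => ∏ i, f i ^ α i).subset (by
      rintro _ ⟨α, h, rfl⟩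
      exact ⟨α, mem_piAntidiag.2 ⟨h, fun _ _ => mem_univ _⟩, rfl⟩)).subset h1
  have := h4.fintype
  let e := (Fintype.equivFin b).symm
  choose α h5 h6 using fun m => h1 (e m).2
  refine ⟨_, α, h5, by simp only [← h6]; exact h3.comp e e.injective, ?_⟩
  simp only [← h6]
  rw [mon, ← h2, show (fun m => (e m : K)) = Subtype.val ∘ e from rfl, e.surjective.range_comp,
    Subtype.range_coe]

theorem mon_div {d : ℕ} {z : K} (hz : z ∈ mon F f d) (e : κ) (c : Fin q → Fin s) :
    z / f e ^ d ∈ chart F f u e c := by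
  refine Submodule.span_induction ?_ (by simp) (fun x y _ _ hx hy => ?_) (fun a x _ hx => ?_) hz
  · rintro _ ⟨α, rfl, rfl⟩
    rw [← prod_pow_eq_pow_sum, ← prod_div_distrib]
    exact prod_mem fun i _ => div_pow (f i) (f e) _ ▸
      pow_mem (Algebra.subset_adjoin (.inl ⟨i, rfl⟩)) _
  · rw [add_div]
    exact add_mem hx hy
  · rw [smul_div_assoc]
    exact Subalgebra.smul_mem _ hx a

theorem mon_pos (h1 : ∃ i, f i ≠ 0) (d : ℕ) : 0 < finrank F (mon F f d) := by
  classical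
  obtain ⟨r, α, -, a2, a3⟩ := mon_basis (F := F) (f := f) d
  obtain ⟨i, hi⟩ := h1
  have : f i ^ d ∈ mon F f d := Submodule.subset_span ⟨Pi.single i d, by simp, by
    simp [Pi.single_apply]⟩
  rw [← a3] at this ⊢
  rw [finrank_span_eq_card a2, Fintype.card_fin]
  rcases r with _ | r
  · simp [Set.range_eq_empty, hi] at this
  · simp

theorem nev_rv (h1 : ∃ i, f i ≠ 0) (hu : ∀ j l, u j l ∈ mon F f (δ j)) (hP : Proper F f u δ)
    {a : Fin q → ℕ} {b d M : ℕ} (hd : 0 < d) (h : ∀ j, a j * finrank F (mon F f d) * d ≤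
      b * ∑ m ∈ range M, finrank F (van F f u δ j d (m + 1))) (N : ℕ) :
    NevB F f u δ (fun j => N * a j) ((N + 1) * b) := by
  classical
  obtain ⟨r, α, a1, a2, a3⟩ := mon_basis (F := F) (f := f) d
  obtain ⟨T, hT⟩ : ∃ T : Fin r → K, ∀ m, ∏ i, f i ^ α m i = T m := ⟨_, fun _ => rfl⟩
  have hr : finrank F (mon F f d) = r := by
    rw [← a3, finrank_span_eq_card a2, Fintype.card_fin]
  refine ⟨d, r, α, hd, hr ▸ mon_pos h1 d, a1, a2, fun O e c o1 o2 o3 => ?_⟩
  simp only [hT] at a2 a3 ⊢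
  let L := Fintype.linearCombination F T
  have l1 : LinearMap.range L = mon F f d := by
    rw [← a3, Fintype.range_linearCombination]
  let ψ : (Fin r → F) →ₗ[F] chart F f u e c :=
    ((LinearMap.mulRight F (f e ^ d)⁻¹).comp L).codRestrict (chart F f u e c).toSubmodule fun x =>
      by simpa [div_eq_mul_inv] using mon_div (l1 ▸ LinearMap.mem_range_self L x) e c
  have l2 : ∀ x, (ψ x : K) = L x / f e ^ d := fun x => (div_eq_mul_inv _ _).symm
  let φ : Fin q → chart F f u e c := fun j => ⟨_, mon_div (hu j (c j)) e c⟩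
  have hO : ∀ z : chart F f u e c, O.valuation z ≤ 1 := fun z => by
    refine (O.valuation_le_one_iff _).2 (Algebra.adjoin_induction ?_ o1
      (fun _ _ _ _ => add_mem) (fun _ _ _ _ => mul_mem) z.2)
    rintro _ (⟨i, rfl⟩ | ⟨j, l, rfl⟩)
    exacts [o2.2 i, (o3 j).2 l]
  obtain ⟨B, w, ρ, b1, b2, b3, b4⟩ := disc (fun j => O.valuation (φ j)) (fun j => hO _) a N
  obtain ⟨G, n, g1, g2, g3⟩ := wI_basis (hP e c o2.1 (fun j => (o3 j).1) φ fun _ => rfl) ψ
    (fun j m => (van F f u δ j d (m + 1)).comap L) (fun j m x hx => by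
      have : ∃ g ∈ chart F f u e c, L x / f e ^ d = (u j (c j) / f e ^ δ j) ^ (m + 1) * g := by
        refine Submodule.span_induction (fun z hz => hz.2 e c o2.1 fun j => (o3 j).1)
          ⟨0, zero_mem _, by simp⟩ ?_ ?_ (Submodule.mem_comap.1 hx)
        · rintro x y - - ⟨g, k1, k2⟩ ⟨g', k3, k4⟩
          exact ⟨g + g', add_mem k1 k3, by rw [add_div, k2, k4, mul_add]⟩
        · rintro a x - ⟨g, k1, k2⟩
          exact ⟨a • g, Subalgebra.smul_mem _ k1 a, by rw [smul_div_assoc, k2, mul_smul_comm]⟩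
      obtain ⟨g, k1, k2⟩ := this
      exact Ideal.mem_span_singleton.2 ⟨⟨g, k1⟩, Subtype.ext ((l2 x).trans k2)⟩) M w
  have g4 : ∀ l, O.valuation (ψ (G l)) ^ B ≤ ρ ^ n l := fun l => by
    refine Submodule.span_induction
      (p := fun (z : chart F f u e c) _ => O.valuation z ^ B ≤ ρ ^ n l) ?_
      (by simp [b1]) (fun x y _ _ hx hy => ?_) (fun a x _ hx => ?_) (g2 l)
    · rintro _ ⟨β, k1, rfl⟩
      refine le_trans ?_ (pow_le_pow_right_of_le_one' b2 k1)
      rw [SubmonoidClass.coe_finsetProd, map_prod, ← prod_pow, ← prod_pow_eq_pow_sum]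
      refine prod_le_prod' fun j _ => ?_
      rw [SubmonoidClass.coe_pow, map_pow, ← pow_mul, mul_comm, pow_mul, pow_mul]
      exact pow_le_pow_left' (b3 j) _
    · rcases le_max_iff.1 (O.valuation.map_add (x : K) y) with k | k
      exacts [(pow_le_pow_left' k B).trans hx, (pow_le_pow_left' k B).trans hy]
    · rw [smul_eq_mul, MulMemClass.coe_mul, map_mul]
      exact (pow_le_pow_left' (mul_le_of_le_one_left' (hO a)) B).trans hx
  have g5 : (∑ j, w j * a j) * (r * d) ≤ (∑ l, n l) * b := by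
    refine le_trans ?_ (Nat.mul_le_mul_right b g3)
    rw [sum_mul, sum_mul]
    refine sum_le_sum fun j _ => ?_
    rw [mul_assoc, mul_assoc, ← mul_assoc (a j), mul_comm _ b]
    refine Nat.mul_le_mul_left _ ((hr ▸ h j).trans (Nat.mul_le_mul_left _ (sum_le_sum fun m _ => ?_)))
    have k : van F f u δ j d (m + 1) ≤ LinearMap.range L :=
      l1 ▸ Submodule.span_le.2 fun z hz => hz.1
    conv_lhs => rw [← Submodule.map_comap_eq_self k]
    exact Submodule.finrank_map_le _ _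
  have g6 : O.valuation (∏ l, (ψ (G l) : K)) ^ ((N + 1) * b) ≤
      (∏ j, O.valuation (φ j) ^ (N * a j)) ^ (r * d) := by
    refine (pow_le_pow_iff_left₀ zero_le zero_le b1).1 ?_
    rw [← pow_mul, mul_comm _ B, pow_mul, ← pow_mul _ (r * d), mul_comm _ B, pow_mul _ B (r * d)]
    refine le_trans ?_ (pow_le_pow_left' b4 _)
    rw [map_prod, ← prod_pow]
    refine (pow_le_pow_left' (prod_le_prod' fun l _ => g4 l) _).trans ?_
    rw [prod_pow_eq_pow_sum, ← pow_mul, ← pow_mul]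
    refine pow_le_pow_right_of_le_one' b2 ?_
    rw [mul_assoc, mul_left_comm (∑ i, n i)]
    exact Nat.mul_le_mul_left _ g5
  refine ⟨G, g1, (O.valuation_le_one_iff _).1 ?_⟩
  have g7 : ∀ j, O.valuation (φ j) ≠ 0 := fun j =>
    (map_ne_zero _).2 (div_ne_zero (o3 j).1 (pow_ne_zero _ o2.1))
  have g8 : ∀ j, f e ^ δ j / u j (c j) = (φ j : K)⁻¹ := fun j => (inv_div _ _).symm
  simp only [g8, inv_pow, prod_inv_distrib, map_mul, map_inv₀, map_pow, map_prod]
  rw [mul_inv_le_iff₀ (zero_lt_iff.2 (prod_ne_zero_iff.2 fun j _ => pow_ne_zero _ (g7 j))), one_mul]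
  rw [← prod_pow, map_prod] at g6
  simpa only [← pow_mul, mul_assoc, l2, L, Fintype.linearCombination_apply] using g6

theorem beta_nonneg (j : Fin q) : 0 ≤ beta F f u δ j := by
  rw [beta, Filter.liminf_eq]
  exact Real.sSup_nonneg' ⟨0, Filter.Eventually.of_forall fun _ =>
    div_nonneg (tsum_nonneg fun _ => Nat.cast_nonneg _) (by positivity), le_rfl⟩

theorem beta_approx (h1 : ∃ i, f i ≠ 0) (N : ℕ) : ∃ d M : ℕ, 0 < d ∧ ∀ j,
    N * beta F f u δ j * (d * finrank F (mon F f d)) ≤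
      (N + 1) * (∑ m ∈ range M, finrank F (van F f u δ j d (m + 1)) : ℕ) := by
  have h2 : ∀ j, ∀ᶠ d : ℕ in Filter.atTop, ∀ᶠ M in Filter.atTop,
      N * beta F f u δ j * (d * finrank F (mon F f d)) ≤
        (N + 1) * (∑ m ∈ range M, finrank F (van F f u δ j d (m + 1)) : ℕ) := fun j => by
    rcases (beta_nonneg (F := F) (f := f) (u := u) (δ := δ) j).eq_or_lt with e | e
    · exact .of_forall fun d => .of_forall fun M => by rw [← e, mul_zero, zero_mul]; positivity
    have h3 : N * beta F f u δ j / (N + 1) < beta F f u δ j := by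
      rw [div_lt_iff₀ (by positivity)]
      linarith
    filter_upwards [Filter.eventually_lt_of_lt_liminf h3 (Filter.isBoundedUnder_of_eventually_ge
      (a := 0) (.of_forall fun _ => div_nonneg (tsum_nonneg fun _ => Nat.cast_nonneg _)
      (by positivity))), Filter.eventually_gt_atTop 0] with d h4 hd
    have h5 := mon_pos (F := F) h1 d
    rw [lt_div_iff₀ (by positivity)] at h4
    have h6 : ∀ᶠ M in Filter.atTop, N * beta F f u δ j / (N + 1) * (d * finrank F (mon F f d)) ≤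
        ∑ m ∈ range M, (finrank F (van F f u δ j d (m + 1)) : ℝ) := by
      by_cases hs : Summable fun m => (finrank F (van F f u δ j d (m + 1)) : ℝ)
      · exact (hs.hasSum.tendsto_sum_nat.eventually_const_lt h4).mono fun _ => le_of_lt
      · rw [tsum_eq_zero_of_not_summable hs] at h4
        exact .of_forall fun M => h4.le.trans (sum_nonneg fun _ _ => Nat.cast_nonneg _)
    refine h6.mono fun M h7 => ?_
    rwa [div_mul_eq_mul_div, div_le_iff₀' (by positivity), ← Nat.cast_sum] at h7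
  obtain ⟨d, h3, hd⟩ := ((Filter.eventually_all.2 h2).and (Filter.eventually_gt_atTop 0)).exists
  obtain ⟨M, h4⟩ := (Filter.eventually_all.2 h3).exists
  exact ⟨d, M, hd, h4⟩

/-- From the bound on the Nevanlinna constant to the constants `β`. -/
theorem beta_main (h1 : ∃ i, f i ≠ 0) (hu : ∀ j l, u j l ∈ mon F f (δ j)) (hP : Proper F f u δ)
    {β Λ : Type} {𝓕 : Filter β} (m : Λ → Fin q → β → ℝ) (L H : β → ℝ) (hL : ∀ p, 0 ≤ L p)
    (hH : ∀ p, 0 ≤ H p) (h : ∀ (a : Fin q → ℕ) (b : ℕ), NevB F f u δ a b → ∀ ε : ℝ, 0 < ε →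
      ∃ W ∈ 𝓕, ∀ S, ∃ C : ℝ, ∀ p ∈ W, ∑ j, a j * m S j p ≤ (b + ε) * L p + ε * H p + C)
    {ε : ℝ} (hε : 0 < ε) : ∃ W ∈ 𝓕, ∀ S, ∃ C : ℝ, ∀ p ∈ W,
      ∑ j, beta F f u δ j * m S j p ≤ (1 + ε) * L p + ε * H p + C := by
  classical
  obtain ⟨N, hN⟩ := exists_nat_ge (5 / ε + 1)
  have n1 : (1 : ℝ) ≤ N := le_trans (le_add_of_nonneg_left (by positivity)) hN
  have n2 : 5 ≤ ε * N := by
    have := (div_le_iff₀' hε).1 ((le_add_of_nonneg_right zero_le_one).trans hN)
    exact this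
  obtain ⟨d, M, hd, h2⟩ := beta_approx (F := F) (u := u) (δ := δ) h1 N
  have hr := mon_pos (F := F) h1 d
  obtain ⟨D, hD⟩ : ∃ D : Fin q → ℕ,
    ∀ j, ∑ m ∈ range M, finrank F (van F f u δ j d (m + 1)) = D j := ⟨_, fun _ => rfl⟩
  simp only [hD] at h2
  choose W w1 w2 using fun T : Finset (Fin q) => h _ _ (nev_rv h1 hu hP
    (a := fun j => if j ∈ T then D j else 0) (b := finrank F (mon F f d) * d) (M := M) hd (fun j => by
      rw [hD]
      split_ifs
      · rw [mul_assoc, mul_comm]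
      · simp) N) (d * finrank F (mon F f d)) (by positivity)
  refine ⟨_, Filter.iInter_mem.2 w1, fun S => ?_⟩
  choose C w3 using fun T => w2 T S
  refine ⟨2 * ∑ T, |C T|, fun p hp => ?_⟩
  obtain ⟨T, hT⟩ : ∃ T : Finset (Fin q), ∀ j, j ∈ T ↔ 0 ≤ m S j p :=
    ⟨univ.filter fun j => 0 ≤ m S j p, by simp⟩
  have h3 := w3 T p (Set.mem_iInter.1 hp _)
  have h4 := (le_abs_self _).trans (single_le_sum (f := fun T => |C T|)
    (fun _ _ => abs_nonneg _) (mem_univ T))
  have h5 : (0 : ℝ) ≤ ∑ T, |C T| := sum_nonneg fun _ _ => abs_nonneg _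
  have h6 : (1 : ℝ) ≤ d * finrank F (mon F f d) := by exact_mod_cast Nat.mul_pos hd hr
  push_cast at h3
  rw [mul_comm (finrank F (mon F f d) : ℝ)] at h3
  generalize (d * finrank F (mon F f d) : ℝ) = R at *
  have h7 : N * N * R * ∑ j, beta F f u δ j * m S j p ≤ (N + 1) * ∑ j, (N : ℝ) *
      (if j ∈ T then (D j : ℝ) else 0) * m S j p := by
    rw [mul_sum, mul_sum]
    refine sum_le_sum fun j _ => ?_
    have k := beta_nonneg (F := F) (f := f) (u := u) (δ := δ) j
    split_ifs with e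
    · have := mul_le_mul_of_nonneg_right (h2 j) (mul_nonneg N.cast_nonneg ((hT j).1 e))
      linarith
    · have := mul_nonpos_of_nonneg_of_nonpos (show 0 ≤ N * N * R * beta F f u δ j by positivity)
        (not_le.1 (mt (hT j).2 e)).le
      linarith
  have h8 := h7.trans (mul_le_mul_of_nonneg_left h3 (by positivity))
  have l0 := hL p
  have h0 := hH p
  generalize ∑ T, |C T| = C' at *
  refine le_of_mul_le_mul_left (h8.trans ?_) (by positivity)
  have k1 : (N + 1 : ℝ) * (N + 2) ≤ N * N * (1 + ε) := by nlinarith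
  have k2 : (N + 1 : ℝ) ≤ N * N * ε := by nlinarith
  have k3 : (N + 1 : ℝ) ≤ N * N * R * 2 := by nlinarith
  have k4 := mul_le_mul_of_nonneg_right k1 (show 0 ≤ R * L p by positivity)
  have k5 := mul_le_mul_of_nonneg_right k2 (show 0 ≤ R * H p by positivity)
  have k6 := mul_le_mul_of_nonneg_right k3 h5
  have k7 := mul_le_mul_of_nonneg_left h4 (show (0 : ℝ) ≤ N + 1 by positivity)
  linarith

end Pool.Agent.Lib.MP_651af7_nt.Fc
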