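import Pool.Agent.Lib.MP_651af7_nt.Fc.FA

/-! Weighted monomial ideals in a sequence that is regular in every order. -/

namespace Pool.Agent.Lib.MP_651af7_nt.Fc

open Module Finset

section Lin

variable {F E : Type} [Field F] [AddCommGroup E] [Module F E] [FiniteDimensional F E]

theorem conv (U W Z : ℕ → Submodule F E) (hU : Antitone U) (h0 : U 0 = ⊤) (hZ : Antitone Z)
    (h1 : ∀ n, U n ≤ Z n) (h2 : ∀ n j, U n ⊓ W j ≤ Z (n + j + 1)) (A B : ℕ) :
    ∃ Y : ℕ → Submodule F E, Antitone Y ∧ Y 0 = ⊤ ∧ (∀ n, Y n ≤ Z n) ∧ (∀ n, Y n ≤ U (n - B)) ∧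
      ∑ n ∈ range A, finrank F (U (n + 1)) + ∑ j ∈ range B, finrank F (W j) ≤
        ∑ n ∈ range (A + B), finrank F (Y (n + 1)) := by
  induction B with
  | zero => exact ⟨U, hU, h0, h1, fun _ => le_rfl, by simp⟩
  | succ B ih =>
    obtain ⟨Y, k1, k2, k3, k4, k5⟩ := ih
    refine ⟨fun n => Y n ⊔ Y (n - 1) ⊓ W B, fun n m h => sup_le_sup (k1 h)
      (inf_le_inf_right _ (k1 (Nat.sub_le_sub_right h 1))), by simp [k2], fun n => ?_, fun n => ?_,
      ?_⟩
    · refine sup_le (k3 n) ?_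
      cases n with
      | zero => exact le_top.trans (h0.ge.trans (h1 0))
      | succ n => exact ((inf_le_inf_right _ (k4 n)).trans (h2 _ _)).trans (hZ (by omega))
    · exact sup_le ((k4 n).trans (hU (by omega))) (inf_le_left.trans ((k4 _).trans (hU (by omega))))
    · have k6 : ∀ M, ∑ n ∈ range M, finrank F (Y (n + 1) ⊔ Y n ⊓ W B : Submodule F E) +
          finrank F (Y M ⊓ W B : Submodule F E) =
          ∑ n ∈ range M, finrank F (Y (n + 1)) + finrank F (W B) := fun M => by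
        induction M with
        | zero => rw [k2, top_inf_eq, sum_range_zero, sum_range_zero]
        | succ M ih =>
          have := Submodule.finrank_sup_add_finrank_inf_eq (Y (M + 1)) (Y M ⊓ W B)
          rw [← inf_assoc, inf_eq_left.2 (k1 (Nat.le_add_right M 1))] at this
          rw [sum_range_succ, sum_range_succ]
          omega
      have k7 := k6 (A + B + 1)
      have k8 := Submodule.finrank_mono (inf_le_left : Y (A + B + 1) ⊓ W B ≤ _)
      rw [sum_range_succ (fun n => finrank F (Y (n + 1)))] at k7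
      rw [sum_range_succ (fun j => finrank F (W j))]
      change _ ≤ ∑ n ∈ range (A + B + 1), finrank F (Y (n + 1) ⊔ Y n ⊓ W B : Submodule F E)
      omega

theorem sum_div (f : ℕ → ℕ) (c N : ℕ) :
    ∑ j ∈ range (c * N), f (j / c) = c * ∑ j ∈ range N, f j := by
  induction N with
  | zero => simp
  | succ N ih =>
    rw [mul_add_one, sum_range_add, ih, sum_range_succ, mul_add]
    congr 1
    rw [sum_congr rfl fun j hj => by
      rw [Nat.mul_add_div (by have := mem_range.1 hj; omega), Nat.div_eq_of_lt (mem_range.1 hj),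
        add_zero]]
    simp

end Lin

variable {A Q : Type} [CommRing A] [DecidableEq Q] (φ : Q → A) (a : Q → ℕ)

/-- The monomials in the variables `J` of weight at least `n`. -/
def wI (J : Finset Q) (n : ℕ) : Ideal A :=
  Ideal.span {z | ∃ b : Q → ℕ, n ≤ ∑ j ∈ J, a j * b j ∧ z = ∏ j ∈ J, φ j ^ b j}

variable {φ a} {J : Finset Q} {j : Q}

omit [DecidableEq Q] in
theorem wI_anti (J : Finset Q) : Antitone (wI φ a J) := fun _ _ h =>
  Ideal.span_mono fun _ ⟨b, h1, h2⟩ => ⟨b, h.trans h1, h2⟩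

omit [DecidableEq Q] in
theorem wI_zero (J : Finset Q) : wI φ a J 0 = ⊤ :=
  (Ideal.eq_top_iff_one _).2 (Ideal.subset_span ⟨0, Nat.zero_le _, by simp⟩)

theorem wI_gen (hj : j ∉ J) (b : Q → ℕ) (t n : ℕ) (h : n ≤ a j * t + ∑ i ∈ J, a i * b i) :
    φ j ^ t * ∏ i ∈ J, φ i ^ b i ∈ wI φ a (insert j J) n := by
  have e : ∀ i ∈ J, Function.update b j t i = b i := fun i hi =>
    Function.update_of_ne (ne_of_mem_of_not_mem hi hj) _ _
  refine Ideal.subset_span ⟨Function.update b j t, ?_, ?_⟩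
  · rwa [sum_insert hj, Function.update_self, sum_congr rfl fun i hi => by rw [e i hi]]
  · rw [prod_insert hj, Function.update_self]
    exact congrArg _ (prod_congr rfl fun i hi => by rw [e i hi])

theorem wI_pow (hj : j ∉ J) (t n : ℕ) {g : A} (hg : g ∈ wI φ a J n) :
    φ j ^ t * g ∈ wI φ a (insert j J) (n + a j * t) := by
  refine Submodule.span_induction ?_ (by simp) (fun x y _ _ hx hy => ?_) (fun c x _ hx => ?_) hg
  · rintro _ ⟨b, h1, rfl⟩
    exact wI_gen hj b t _ (by omega)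
  · rw [mul_add]
    exact add_mem hx hy
  · rw [smul_eq_mul, mul_left_comm]
    exact Ideal.mul_mem_left _ _ hx

theorem wI_le (hj : j ∉ J) (n : ℕ) : wI φ a J n ≤ wI φ a (insert j J) n := fun g hg => by
  simpa using wI_pow hj 0 n hg

theorem wI_mul (hj : j ∉ J) (n : ℕ) {g : A} (hg : g ∈ wI φ a (insert j J) (n - a j)) :
    φ j * g ∈ wI φ a (insert j J) n := by
  refine Submodule.span_induction ?_ (by simp) (fun x y _ _ hx hy => ?_) (fun c x _ hx => ?_) hg
  · rintro _ ⟨b, h1, rfl⟩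
    rw [sum_insert hj] at h1
    rw [prod_insert hj, ← mul_assoc, ← pow_succ']
    exact wI_gen hj b _ _ (by rw [mul_add_one]; omega)
  · rw [mul_add]
    exact add_mem hx hy
  · rw [smul_eq_mul, mul_left_comm]
    exact Ideal.mul_mem_left _ _ hx

theorem wI_split (hj : j ∉ J) (n : ℕ) {g : A} (hg : g ∈ wI φ a (insert j J) n) :
    ∃ μ ∈ wI φ a (insert j J) (n - a j), g - φ j * μ ∈ wI φ a J n := by
  refine Submodule.span_induction ?_ ⟨0, zero_mem _, by simp⟩ ?_ ?_ hg
  · rintro _ ⟨b, h1, rfl⟩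
    rw [sum_insert hj] at h1
    rw [prod_insert hj]
    rcases e : b j with _ | t
    · exact ⟨0, zero_mem _, Ideal.subset_span ⟨b, by simpa [e] using h1, by simp⟩⟩
    · rw [e, mul_add_one] at h1
      exact ⟨_, wI_gen hj b t _ (by omega), by rw [pow_succ', mul_assoc, sub_self]; exact zero_mem _⟩
  · rintro x y - - ⟨μ, h1, h2⟩ ⟨ν, h3, h4⟩
    exact ⟨μ + ν, add_mem h1 h3, by convert add_mem h2 h4 using 1; ring⟩
  · rintro c x - ⟨μ, h1, h2⟩
    exact ⟨c * μ, Ideal.mul_mem_left _ _ h1, by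
      convert Ideal.mul_mem_left _ c h2 using 1; rw [smul_eq_mul]; ring⟩

variable (hP : ∀ (J : Set Q) (i : Q), i ∉ J → ∀ g, φ i * g ∈ Ideal.span (φ '' J) →
  g ∈ Ideal.span (φ '' J))
include hP

theorem wI_reg (J : Finset Q) (hJ : ∀ j ∈ J, 0 < a j) : ∀ (n : ℕ) (J₀ : Set Q) (i : Q), i ∉ J →
    i ∉ J₀ → (∀ j ∈ J, j ∉ J₀) → ∀ g, φ i * g ∈ wI φ a J n ⊔ Ideal.span (φ '' J₀) →
      g ∈ wI φ a J n ⊔ Ideal.span (φ '' J₀) := by
  induction J using Finset.induction_on with
  | empty =>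
    rintro (_ | n) J₀ i - h2 - g hg
    · rw [wI_zero, top_sup_eq]
      trivial
    · have e : wI φ a ∅ (n + 1) = ⊥ := Ideal.span_eq_bot.2 (by rintro _ ⟨b, h, -⟩; simp at h)
      rw [e, bot_sup_eq] at hg ⊢
      exact hP _ _ h2 g hg
  | insert j J hj ih =>
    replace ih := ih fun l hl => hJ l (mem_insert_of_mem hl)
    intro n J₀ i h1 h2 h3
    have hc := hJ j (mem_insert_self _ _)
    rw [mem_insert, not_or] at h1
    induction n using Nat.strong_induction_on with
    | _ n ihn =>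
    intro g hg
    rcases n.eq_zero_or_pos with rfl | hn
    · rw [wI_zero, top_sup_eq]
      trivial
    have sp : ∀ g ∈ wI φ a (insert j J) n ⊔ Ideal.span (φ '' J₀),
        ∃ μ ∈ wI φ a (insert j J) (n - a j), g - φ j * μ ∈ wI φ a J n ⊔ Ideal.span (φ '' J₀) := by
      intro g hg
      obtain ⟨x, hx, y, hy, rfl⟩ := Submodule.mem_sup.1 hg
      obtain ⟨μ, k1, k2⟩ := wI_split hj n hx
      exact ⟨μ, k1, by rw [add_sub_right_comm]; exact Submodule.add_mem_sup k2 hy⟩
    have e : wI φ a J n ⊔ Ideal.span (φ '' insert j J₀) =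
        Ideal.span {φ j} ⊔ (wI φ a J n ⊔ Ideal.span (φ '' J₀)) := by
      rw [Set.image_insert_eq, Ideal.span_insert, sup_left_comm]
    have le : wI φ a J n ⊔ Ideal.span (φ '' J₀) ≤ wI φ a (insert j J) n ⊔ Ideal.span (φ '' J₀) :=
      sup_le_sup_right (wI_le hj n) _
    obtain ⟨μ, -, k2⟩ := sp _ hg
    have k3 := ih n (insert j J₀) i h1.2 (fun h => h.elim h1.1 h2)
      (fun l hl h => h.elim (fun e => hj (e ▸ hl)) (h3 l (mem_insert_of_mem hl))) g (by
        rw [e, ← add_sub_cancel (φ j * μ) (φ i * g)]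
        exact Submodule.add_mem_sup (Ideal.mul_mem_right _ _ (Ideal.mem_span_singleton_self _)) k2)
    rw [e] at k3
    obtain ⟨h, g', k4, rfl⟩ := Ideal.mem_span_singleton_sup.1 k3
    rw [mul_add] at hg
    obtain ⟨ν, k5, k6⟩ := sp _ ((add_mem_cancel_right (Ideal.mul_mem_left _ _ (le k4))).1 hg)
    have k7 := ih n J₀ j hj (h3 j (mem_insert_self _ _)) (fun l hl => h3 l (mem_insert_of_mem hl))
      (φ i * h - ν) (by convert k6 using 1; ring)
    have k8 := ihn (n - a j) (by omega) h (by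
      rw [← sub_add_cancel (φ i * h) ν]
      have le' : wI φ a (insert j J) n ≤ wI φ a (insert j J) (n - a j) := wI_anti _ (Nat.sub_le _ _)
      exact add_mem (sup_le_sup_right le' _ (le k7)) (Submodule.mem_sup_left k5))
    refine add_mem ?_ (le k4)
    obtain ⟨x, hx, y, hy, rfl⟩ := Submodule.mem_sup.1 k8
    rw [mul_comm, mul_add]
    exact Submodule.add_mem_sup (wI_mul hj n hx) (Ideal.mul_mem_left _ _ hy)

theorem wI_inf (hJ : ∀ j ∈ J, 0 < a j) (hj : j ∉ J) (t n : ℕ) {s : A} (h1 : s ∈ wI φ a J n)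
    (h2 : s ∈ Ideal.span {φ j ^ t}) : s ∈ wI φ a (insert j J) (n + a j * t) := by
  obtain ⟨g, rfl⟩ := Ideal.mem_span_singleton.1 h2
  refine wI_pow hj t n ?_
  clear h2
  induction t with
  | zero => simpa using h1
  | succ t ih =>
    refine ih ?_
    rw [pow_succ', mul_assoc] at h1
    simpa using wI_reg hP J hJ n ∅ j hj (fun h => h) (fun _ _ h => h) _ (Submodule.mem_sup_left h1)

variable {F : Type} [Field F] [Algebra F A]

theorem wI_dim {E : Type} [AddCommGroup E] [Module F E] [FiniteDimensional F E] (ψ : E →ₗ[F] A)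
    (W : Q → ℕ → Submodule F E) (hW : ∀ i t, ∀ s ∈ W i t, ψ s ∈ Ideal.span {φ i ^ (t + 1)}) (N : ℕ)
    (J : Finset Q) (hJ : ∀ j ∈ J, 0 < a j) : ∃ M, ∑ i ∈ J, a i * ∑ t ∈ range N, finrank F (W i t) ≤
      ∑ n ∈ range M, finrank F (((wI φ a J (n + 1)).restrictScalars F).comap ψ) := by
  induction J using Finset.induction_on with
  | empty => exact ⟨0, by simp⟩
  | insert j J hj ih =>
    have hJ' : ∀ l ∈ J, 0 < a l := fun l hl => hJ l (mem_insert_of_mem hl)
    obtain ⟨M, hM⟩ := ih hJ'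
    obtain ⟨Y, -, -, k1, -, k2⟩ := conv (fun n => ((wI φ a J n).restrictScalars F).comap ψ)
      (fun t => W j (t / a j)) (fun n => ((wI φ a (insert j J) n).restrictScalars F).comap ψ)
      (fun _ _ h _ hs => wI_anti J h hs) (by simp [wI_zero]) (fun _ _ h _ hs => wI_anti _ h hs)
      (fun n _ hs => wI_le hj n hs) (fun n t s hs => wI_anti _ (by
        have := Nat.lt_mul_div_succ t (hJ j (mem_insert_self _ _))
        omega) (wI_inf hP hJ' hj _ n hs.1 (hW _ _ _ hs.2))) M (a j * N)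
    rw [sum_div fun t => finrank F (W j t)] at k2
    refine ⟨_, le_trans ?_ (k2.trans (sum_le_sum fun n _ => Submodule.finrank_mono (k1 _)))⟩
    rw [sum_insert hj]
    omega

/-- A basis adapted to the weight `a`. -/
theorem wI_basis [Fintype Q] {r : ℕ} (ψ : (Fin r → F) →ₗ[F] A) (W : Q → ℕ → Submodule F (Fin r → F))
    (hW : ∀ i t, ∀ s ∈ W i t, ψ s ∈ Ideal.span {φ i ^ (t + 1)}) (N : ℕ) (a : Q → ℕ) :
    ∃ (G : Matrix (Fin r) (Fin r) F) (w : Fin r → ℕ), G.det ≠ 0 ∧
      (∀ l, ψ (G l) ∈ wI φ a {i | 0 < a i} (w l)) ∧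
      ∑ i, a i * ∑ t ∈ range N, finrank F (W i t) ≤ ∑ l, w l := by
  obtain ⟨M, hM⟩ := wI_dim hP ψ W hW N {i | 0 < a i} fun j hj => (mem_filter.1 hj).2
  obtain ⟨b, w, h1, h2, h3, h4⟩ := fa_aux M
    (fun n => ((wI φ a {i | 0 < a i} n).restrictScalars F).comap ψ) fun _ _ h _ hs => wI_anti _ h hs
  have hc : b.card = r := by
    rw [← finrank_span_finset_eq_card h1, h2, wI_zero, Submodule.restrictScalars_top,
      Submodule.comap_top, finrank_top, finrank_fin_fun]
  let e := (Finset.equivFinOfCardEq hc).symm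
  refine ⟨Matrix.of fun a => (e a).1, fun a => w (e a), ?_, fun a => h3 _ (e a).2, ?_⟩
  · exact ((Matrix.isUnit_iff_isUnit_det _).1 (Matrix.linearIndependent_rows_iff_isUnit.1
      (h1.comp e e.injective))).ne_zero
  · rw [e.sum_comp fun x => w x, Finset.sum_coe_sort b w]
    refine le_trans (le_of_eq ?_) (hM.trans h4)
    exact (sum_filter_of_ne fun i _ h => Nat.pos_of_ne_zero fun e => h (by rw [e, zero_mul])).symm

end Pool.Agent.Lib.MP_651af7_nt.Fc
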