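import Pool.Agent.Lib.MP_651af7_nt.Fc.Loc
import Pool.Agent.Lib.MP_651af7_nt.Et.Ht

/-! The global inequality. -/

namespace Pool.Agent.Lib.MP_651af7_nt.Fc

open MvPolynomial Finset Height NumberField Filter Real Module
open IntermediateField (adjoin)
open Rt (Pl av mu)
open Es (vol)
open Ex (lx)

variable {k K ι κ β : Type} [Field k] [NumberField k] [Fintype κ]

theorem mono_le (S : Finset (FinitePlace k)) {x : κ → k} (hx : x ≠ 0) {r d : ℕ}
    {α : Fin r → κ → ℕ} (hα : ∀ m, ∑ i, α m i = d) (h0 : (fun m => ∏ i, x i ^ α m i) ≠ 0) :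
    logHeight (fun m => ∏ i, x i ^ α m i) ≤ d * logHeight x ∧
      logHeight (fun m => ∏ i, x i ^ α m i) + ∑ s : Pl S, mu s * (d * log (⨆ i, av s (x i)) -
        log (⨆ m, av s (∏ i, x i ^ α m i))) ≤ d * logHeight x := by
  have h1 : ∀ w : AbsoluteValue k ℝ, log (⨆ m, w (∏ i, x i ^ α m i)) ≤ d * log (⨆ i, w (x i)) := by
    intro w
    rw [← log_pow]
    refine log_le_log (Es.sup_pos w h0) (Real.iSup_le (fun m => ?_)
      (pow_nonneg (iSup_nonneg fun _ => w.nonneg _) _))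
    rw [← hα m, ← prod_pow_eq_pow_sum, map_prod]
    exact prod_le_prod (fun _ _ => w.nonneg _) fun i _ => (map_pow w _ _).trans_le
      (pow_le_pow_left₀ (w.nonneg _) (Es.le_sup_av w x i) _)
  have h2 := Es.gsum_le_S S (Es.finS_sup _) ((Es.finS_sup x).const_mul d)
    (fun s => -(d * log (⨆ i, av s (x i)) - log (⨆ m, av s (∏ i, x i ^ α m i))))
    (fun s => by linarith) fun w _ => h1 w.1
  rw [Vj.gsum_const_mul (Es.finS_sup x), Es.gsum_sup hx, Es.gsum_sup h0] at h2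
  simp only [mul_neg, sum_neg_distrib] at h2
  have h3 : 0 ≤ ∑ s : Pl S, mu s * (d * log (⨆ i, av s (x i)) -
      log (⨆ m, av s (∏ i, x i ^ α m i))) :=
    sum_nonneg fun s _ => mul_nonneg (Nat.cast_nonneg _) (sub_nonneg.2 (h1 _))
  exact ⟨by linarith, by linarith⟩

theorem le_prox (S : Finset (FinitePlace k)) {x : κ → k} {b : κ} (h : x b = 1)
    (hx : ∀ i, ∀ w : FinitePlace k, w ∉ S → w (x i) ≤ 1) :
    logHeight x ≤ ∑ s : Pl S, mu s * log (⨆ i, av s (x i)) := by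
  have h1 := Es.gsum_le_S S (Es.finS_sup x) Vj.pf_finS_zero (fun s => log (⨆ i, av s (x i)))
    (fun s => by simp) fun w hw => log_nonpos (iSup_nonneg fun _ => w.1.nonneg _)
      (Real.iSup_le (fun i => hx i w hw) zero_le_one)
  rwa [Vj.pf_gsum_zero, Es.gsum_sup (Function.ne_iff.2 ⟨b, h ▸ one_ne_zero⟩), zero_add] at h1

variable [Field K] [Algebra k K] [Fintype ι] {𝓕 : Filter β} {v : β → K → k}
  {J : Ideal (MvPolynomial ι k)} {y : ι → K}

theorem Dat.core (D : Dat J y) (h : Sp 𝓕 v) {f : κ → K} {q n : ℕ} {u : Fin q → Fin n → K}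
    (hu : ∀ j, u j ≠ 0) (e : Fin q → ℕ) {δ a : Fin q → ℕ} {b : ℕ}
    (hN : NevB (adjoin k (Set.range y)) f u δ a b) {ε : ℝ} (hε : 0 < ε) :
    ∃ W ∈ 𝓕, ∀ S : Finset (FinitePlace k), ∃ C : ℝ, ∀ p ∈ W,
      ∑ s : Pl S, mu s * ∑ j, a j * log ((⨆ i, av s (v p (y i))) ^ e j *
        (⨆ i, av s (v p (f i))) ^ δ j / ⨆ l, av s (v p (u j l))) ≤
      (b + ε) * logHeight (fun i => v p (f i)) + ε * logHeight (fun i => v p (y i)) + C := by
  obtain ⟨d, r, α, hd, hr, a1, a2, a4⟩ := hN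
  have hf : f ≠ 0 := fun e => a2.ne_zero ⟨0, hr⟩ (by
    simp only [e, Pi.zero_apply, prod_pow_eq_pow_sum, a1, zero_pow hd.ne'])
  obtain ⟨τ, _, G, g1, g2⟩ := D.loc h hf hu a2 a4
  obtain ⟨N, hN⟩ : ∃ N : ℝ, N = r * d * ∑ j, (a j * e j : ℝ) + 1 := ⟨_, rfl⟩
  have hN0 : 0 < N := by rw [hN]; positivity
  obtain ⟨W₁, w1, b1⟩ := D.sub h a2 G g1 (ε := ε / 2 / (b + 1)) (by positivity)
  obtain ⟨W₂, w2, b2⟩ := (g2.and (ev_all (fun _ => logHeight_nonneg _) fun i =>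
    D.fal (c := fun _ _ => True) h ⟨y i, IntermediateField.subset_adjoin _ _ ⟨i, rfl⟩⟩))
    (ε / 2 / N) (by positivity)
  have w3 : ∀ m, ∀ᶠ p in 𝓕, v p (∏ i, f i ^ α m i) = ∏ i, v p (f i) ^ α m i := fun m => by
    simpa using h.aeval f (∏ i, X i ^ α m i)
  obtain ⟨o, ho⟩ := Function.ne_iff.1 hf
  refine ⟨_, inter_mem w1 (inter_mem w2 ((h.ne ho).and ((eventually_all.2 w3).and
    ((h.ne (a2.ne_zero ⟨0, hr⟩)).and (D.gn h).ne)))), fun S => ?_⟩
  obtain ⟨C₁, b1⟩ := b1 S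
  obtain ⟨C₂, b2⟩ := b2 S
  refine ⟨|b * C₁ + N * C₂|, fun p ⟨p1, p2, p3, p4, p5, p6⟩ => ?_⟩
  obtain ⟨E, e0, e1, e2⟩ := b2 p p2
  choose t ht using fun s => (e2 s _ le_rfl).1
  have c0 : (fun i => v p (f i)) ≠ 0 := Function.ne_iff.2 ⟨o, p3⟩
  have c1 := b1 p p1 t
  obtain ⟨c2, c4⟩ := mono_le S c0 a1 (Function.ne_iff.2 ⟨⟨0, hr⟩, p4 _ ▸ p5⟩)
  have c5 : ∀ s : Pl S, r * d * ∑ j, a j * log ((⨆ i, av s (v p (y i))) ^ e j *
      (⨆ i, av s (v p (f i))) ^ δ j / ⨆ l, av s (v p (u j l))) ≤ _ + N * E s := fun s => by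
    have k1 := Es.sup_pos (av s) p6
    have k2 : log (⨆ i, av s (v p (y i))) ≤ E s := ((log_le_iff_le_exp k1).2 (Real.iSup_le
      (fun i => by simpa using (e2 s _ le_rfl).2 i trivial) (exp_pos _).le)).trans
        (half_le_self (e0 s))
    have k3 : ∀ j, log ((⨆ i, av s (v p (y i))) ^ e j * (⨆ i, av s (v p (f i))) ^ δ j /
        ⨆ l, av s (v p (u j l))) ≤ e j * E s +
          log ((⨆ i, av s (v p (f i))) ^ δ j / ⨆ l, av s (v p (u j l))) := fun j => by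
      by_cases k4 : ⨆ l, av s (v p (u j l)) = 0
      · simpa [k4] using mul_nonneg (e j).cast_nonneg (e0 s)
      rw [mul_div_assoc, log_mul (pow_pos k1 _).ne'
        (div_ne_zero (pow_pos (Es.sup_pos (av s) c0) _).ne' k4), log_pow]
      exact add_le_add_left (mul_le_mul_of_nonneg_left k2 (Nat.cast_nonneg _)) _
    have k5 := mul_le_mul_of_nonneg_left (sum_le_sum fun j (_ : j ∈ univ) =>
      mul_le_mul_of_nonneg_left (k3 j) (a j).cast_nonneg) (show (0 : ℝ) ≤ r * d by positivity)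
    have k6 := ht s
    simp only [mul_add, sum_add_distrib, ← mul_assoc, ← sum_mul] at k5
    simp only [Nat.cast_mul, mul_assoc, mul_left_comm (a _ : ℝ), ← mul_sum] at k6
    rw [hN]
    refine le_trans ?_ (add_le_add_left (sub_le_iff_le_add.2 k6) _)
    linarith [e0 s]
  have c3 := sum_le_sum fun s (_ : s ∈ univ) =>
    mul_le_mul_of_nonneg_left (c5 s) ((mu s).cast_nonneg (α := ℝ))
  simp only [← p4] at c2 c4
  simp only [mul_add, sum_add_distrib, mul_left_comm (mu _ : ℝ) N, mul_left_comm (mu _ : ℝ) (b : ℝ),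
    mul_left_comm (mu _ : ℝ) (r * d : ℝ), mul_left_comm (mu _ : ℝ) (r : ℝ), ← mul_sum] at c3
  rw [vol] at c1
  beta_reduce at e1
  have c6 := logHeight_nonneg fun i => v p (y i)
  have c7 := logHeight_nonneg fun i => v p (f i)
  have c8 := le_abs_self (b * C₁ + N * C₂)
  have c9 := abs_nonneg (b * C₁ + N * C₂)
  generalize |b * C₁ + N * C₂| = C at *
  generalize logHeight (fun i => v p (y i)) = H at *
  generalize logHeight (fun i => v p (f i)) = L at *
  have d1 : b * (ε / 2 / (b + 1)) ≤ ε / 2 := by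
    rw [← mul_div_assoc, div_le_iff₀ (by positivity)]
    linarith
  have d2 : N * (ε / 2 / N) = ε / 2 := mul_div_cancel₀ _ hN0.ne'
  have d3 : 0 < ε / 2 / (b + 1) := by positivity
  generalize ε / 2 / (b + 1) = η at *
  have hr' : (1 : ℝ) ≤ r := by exact_mod_cast hr
  have d4 : (1 : ℝ) ≤ r * d := one_le_mul_of_one_le_of_one_le hr' (by exact_mod_cast hd)
  have d5 := mul_le_mul_of_nonneg_left c1 (b.cast_nonneg (α := ℝ))
  have d6 := mul_le_mul_of_nonneg_left c2 (show 0 ≤ b * η by positivity)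
  have d7 := mul_le_mul_of_nonneg_left e1 hN0.le
  have d8 := mul_le_mul_of_nonneg_left c4 (show (0 : ℝ) ≤ b * r by positivity)
  have d11 := mul_le_mul_of_nonneg_right d1 c6
  have d12 := congrArg (· * H) d2
  have d13 := mul_le_mul_of_nonneg_right d1 (show 0 ≤ d * L by positivity)
  have d14 := mul_le_mul_of_nonneg_right hr' (show 0 ≤ ε * d * L by positivity)
  have d15 := mul_le_mul_of_nonneg_right d4 (show 0 ≤ ε * H + C by positivity)
  have d16 : 0 ≤ ε * d * L := by positivity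
  refine le_of_mul_le_mul_left ?_ (one_pos.trans_le d4)
  beta_reduce at d12
  linarith

/-- The height of an algebraic function. -/
theorem ht_alg (h : Sp 𝓕 v) {f : κ → K} {z : K}
    (hz : IsAlgebraic (Algebra.adjoin k (Set.range f)) z) :
    ∃ C : ℝ, 0 ≤ C ∧ ∀ᶠ p in 𝓕, logHeight₁ (v p z) ≤ C * (1 + ∑ i, logHeight₁ (v p (f i))) := by
  obtain ⟨P, P0, hP⟩ := hz
  have h1 : ∀ i : Fin (P.natDegree + 1), ∃ Q : MvPolynomial κ k, aeval f Q = P.coeff i := fun i =>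
    (Algebra.adjoin_range_eq_range_aeval k f).le (P.coeff i).2
  choose Q hQ using h1
  choose C₁ c1 h2 using fun i => Rt.ht_poly (Q i)
  obtain ⟨C₂, h3⟩ := Et.ht_root (K := k) P.natDegree
  have h4 : ∑ i, aeval f (Q i) * z ^ (i : ℕ) = 0 := by
    rw [← hP, Polynomial.aeval_eq_sum_range, sum_range]
    exact sum_congr rfl fun i _ => by rw [hQ]; rfl
  have h5 : aeval f (Q (Fin.last _)) ≠ 0 := by
    rw [hQ]
    exact fun e => Polynomial.leadingCoeff_ne_zero.2 P0 (Subtype.ext e)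
  refine ⟨∑ i, C₁ i + |C₂|, add_nonneg (sum_nonneg fun i _ => c1 i) (abs_nonneg _), ?_⟩
  filter_upwards [h.zero, h.ne h5, h.sum univ fun i => aeval f (Q i) * z ^ (i : ℕ),
    eventually_all.2 fun i => (h.aeval f (Q i)).and
      ((h.mul (aeval f (Q i)) (z ^ (i : ℕ))).and (h.pow z i))] with p e1 e2 e3 e4
  simp only [h4, e1, e4] at e2 e3
  have h6 := (Av.logHeight_le_sum _).trans (sum_le_sum fun i _ => h2 i fun s => v p (f s))
  have h7 : 0 ≤ ∑ i, logHeight₁ (v p (f i)) := sum_nonneg fun _ _ => zero_le_logHeight₁ _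
  rw [← sum_mul] at h6
  nlinarith [h3 _ _ e2 e3.symm, le_abs_self C₂, abs_nonneg C₂]

end Pool.Agent.Lib.MP_651af7_nt.Fc
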