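import Pool.Agent.Lib.MP_651af7_nt.Fc.Main

namespace Pool.Agent.Lib.MP_651af7_nt.Fc.FibredCurves

open MvPolynomial NumberField IntermediateField Pool.Agent.Lib.MP_651af7_nt Ds

/-- Integral points on families of curves over an abelian variety are finite off a hypersurface
that does not depend on the set of places. -/
theorem result (k : Type) [Field k] [NumberField k] (g n w : ℕ)
    (J : Ideal (MvPolynomial (Fin g) k)) (hJ : ∀ P ∈ J, ∀ d, homogeneousComponent d P ∈ J)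
    (hA : Abelian (J.map (MvPolynomial.map (algebraMap k (AlgebraicClosure k)))))
    (K : Type) [Field K] [Algebra k K] (y : Fin g → K) (f : Fin (n + 1) → K)
    (hy : ∀ (P : MvPolynomial (Fin g) k) (d : ℕ), P.IsHomogeneous d → (aeval y P = 0 ↔ P ∈ J))
    (y1 : ∃ a, y a = 1) (F : IntermediateField k K) (hF : F = adjoin k (Set.range y))
    (hK : adjoin F (Set.range f) = ⊤) (hc : ∀ z : K, IsAlgebraic F z → z ∈ F) (f0 : f 0 ∉ F)
    (hw : ∀ (O : ValuationSubring K) (e : Fin (n + 1)), (∀ z ∈ F, z ∈ O) → f e ∉ O →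
      (∀ i, f i / f e ∈ O) →
      ∃ b : Fin w → K, ∀ z ∈ O, ∃ c : Fin w → F, (z - ∑ i, c i • b i) * f e ∈ O)
    (h2 : 2 * w < Module.finrank (adjoin F {f 0}) K)
    (ha : ∀ a, IsAlgebraic (Algebra.adjoin k (Set.range f)) (y a)) :
    ∃ Θ : MvPolynomial (Fin g ⊕ Fin (n + 1)) k, aeval (Sum.elim y f) Θ ≠ 0 ∧
      ∀ S : Finset (FinitePlace k), {p : Fin g ⊕ Fin (n + 1) → k |
        (∀ P, aeval (Sum.elim y f) P = 0 → eval p P = 0) ∧ eval p Θ ≠ 0 ∧
        ∀ i, ∀ v : FinitePlace k, v ∉ S → v (p (.inr i)) ≤ 1}.Finite := by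
  subst hF
  have D : Fc.Dat J y := ⟨hJ, hA, y1, hy, hc⟩
  obtain ⟨W, ⟨Θ, a1, a2⟩, a3⟩ := D.fin hK (D.curve hK f0 hw h2) (Nat.lt_succ_self _) ha
  exact ⟨Θ, a1, fun S => (a3 S).subset fun p hp => ⟨a2 p hp.1 hp.2.1, hp.2.2⟩⟩

end Pool.Agent.Lib.MP_651af7_nt.Fc.FibredCurves
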