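import Pool.Agent.Lib.MP_651af7_nt.As.Main

/-! The subspace inequality along a filter of points that stay independent. -/

namespace Pool.Agent.Lib.MP_651af7_nt.Fc

open MvPolynomial Finset Height NumberField Matrix Filter Av As
open Rt (Pl av mu)
open Es (vol)
open Ex (lx)

variable {k ι β : Type} [Field k] [Fintype ι]

/-- Along every ultrafilter below `𝓕` the coordinates of `t` are independent over the elements
that are algebraic over the coordinates of `x`. -/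
def HI {r : ℕ} (𝓕 : Filter β) (x : β → ι → k) (t : β → Fin r → k) : Prop :=
  ∀ (α : Type) (U : Ultrafilter α) (j : α → β), Tendsto j U 𝓕 → ∀ w : Fin r → Up U k,
    (∀ l, w l ∈ Cl k (Set.range (gv U fun m => x (j m)))) → w ⬝ᵥ (gv U fun m => t (j m)) = 0 → w = 0

variable [NumberField k]

theorem gapT {κ : Type} [Fintype κ] (A : AV k ι) (a₀ : ι) {r : ℕ}
    (Cs : Finset (κ → MvPolynomial ι k)) (M : Matrix κ (Fin r) (MvPolynomial ι k)) {γ : ℝ}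
    (hγ : 0 < γ) {𝓕 : Filter β} {x : β → ι → k} {t : β → Fin r → k} (hI : HI 𝓕 x t) :
    ∃ W ∈ 𝓕, ∃ Q : ℝ, ∀ b ∈ W, ∀ (q : ℝ) (z : κ → k), Q ≤ q → Aff A a₀ (x b) →
      logHeight (x b) ≤ q → Gap Cs (γ * q) (x b) z → z ᵥ* M.map (eval (x b)) ≠ 0 →
      (z ᵥ* M.map (eval (x b))) ⬝ᵥ t b ≠ 0 := by
  by_contra hcon
  have hS : ∀ τ : {W : Set β // W ∈ 𝓕} × ℝ, ∃ y : β × ℝ × (κ → k), (y.1 ∈ τ.1.1 ∧ τ.2 ≤ y.2.1) ∧
      (Aff A a₀ (x y.1) ∧ logHeight (x y.1) ≤ y.2.1 ∧ Gap Cs (γ * y.2.1) (x y.1) y.2.2) ∧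
      y.2.2 ᵥ* M.map (eval (x y.1)) ≠ 0 ∧ (y.2.2 ᵥ* M.map (eval (x y.1))) ⬝ᵥ t y.1 = 0 := fun τ => by
    by_contra h
    exact hcon ⟨τ.1.1, τ.1.2, τ.2, fun b h0 q z h1 h2 h3 h4 h5 h6 =>
      h ⟨(b, q, z), ⟨h0, h1⟩, ⟨h2, h3, h4⟩, h5, h6⟩⟩
  have : Nonempty (β × ℝ × (κ → k)) := (hS (⟨Set.univ, univ_mem⟩, 0)).nonempty
  obtain ⟨U, hU⟩ := gapF_ex _ hS fun τ τ' => ⟨(⟨τ.1.1 ∩ τ'.1.1, inter_mem τ.1.2 τ'.1.2⟩,
    max τ.2 τ'.2), fun y hy => ⟨⟨⟨hy.1.1.1, (le_max_left _ _).trans hy.1.2⟩, hy.2⟩,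
      ⟨hy.1.1.2, (le_max_right _ _).trans hy.1.2⟩, hy.2⟩⟩
  have h := (hU (⟨Set.univ, univ_mem⟩, 0)).mono fun y hy => hy.2
  obtain ⟨a, ha⟩ : ∃ a, ∀ᶠ m : β × ℝ × (κ → k) in U, m.2.2 a ≠ 0 :=
    Ultrafilter.eventually_exists_iff.1 (h.mono fun m hm => Function.ne_iff.1 hm.1.2.2.ne)
  obtain ⟨l₀, hl₀⟩ : ∃ l, ∀ᶠ m : β × ℝ × (κ → k) in U,
      (m.2.2 ᵥ* M.map (eval (x m.1))) l ≠ 0 :=
    Ultrafilter.eventually_exists_iff.1 (h.mono fun m hm => Function.ne_iff.1 hm.2.1)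
  let w : β × ℝ × (κ → k) → Fin r → k := fun m => (m.2.2 a)⁻¹ • (m.2.2 ᵥ* M.map (eval (x m.1)))
  have hw : ∀ l, gv U w l = ∑ b, (germ U fun m => m.2.2 b / m.2.2 a) *
      aeval (gv U fun m => x m.1) (M b l) := fun l => by
    simp only [aeval_germ, ← map_mul]
    rw [germ_sum]
    refine congrArg _ (funext fun m => ?_)
    simp only [w, Pi.smul_apply, smul_eq_mul, vecMul, dotProduct, Matrix.map_apply,
      Finset.mul_sum, Pi.mul_apply]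
    exact Finset.sum_congr rfl fun b _ => by ring
  have h0 := hI _ U Prod.fst (fun W hW => (hU (⟨W, hW⟩, 0)).mono fun y hy => hy.1.1) (gv U w)
    (fun l => by
      rw [hw]
      exact sum_mem fun b _ => mul_mem (gap_alg (q := fun y => y.2.1) hγ (tendsto_atTop.2 fun Q =>
        (hU (⟨Set.univ, univ_mem⟩, Q)).mono fun y hy => hy.1.2) (h.mono fun y hy => hy.1) a b)
        (gapA_aeval_mem _ _))
    (by
      rw [gv_dot]
      refine germ_eq_zero.2 (h.mono fun m hm => ?_)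
      simp only [w, smul_dotProduct, hm.2.2, smul_zero])
  exact germ_ne_zero.2 ((ha.and hl₀).mono fun m hm => mul_ne_zero (inv_ne_zero hm.1) hm.2)
    (congrFun h0 l₀)

theorem mainT (A : AV k ι) (a₀ : ι) {r : ℕ} (Ls : Finset (Fin r → MvPolynomial ι k))
    {𝓕 : Filter β} {x : β → ι → k} {t : β → Fin r → k} (hI : HI 𝓕 x t) {ε : ℝ} (hε : 0 < ε) :
    ∃ W ∈ 𝓕, ∀ (S : Finset (FinitePlace k))
      (G : Pl S → Matrix (Fin r) (Fin r) (MvPolynomial ι k)), (∀ p l, G p l ∈ Ls) →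
      ∃ C : ℝ, ∀ b ∈ W, Aff A a₀ (x b) → (∀ p, ((G p).map (eval (x b))).det ≠ 0) →
        (∀ p l, ((G p).map (eval (x b)) *ᵥ t b) l ≠ 0) →
        vol (fun p l => lx (av p) (t b) (((G p).map (eval (x b)) *ᵥ t b) l)) ≤
          r * logHeight (t b) + ε * (logHeight (x b) + logHeight (t b)) + C := by
  classical
  obtain ⟨γ, 𝒲, hγ, H⟩ := stage1 A a₀ Ls 1 id hε
  choose W hW Q hQ using fun (j : Fin r) (u : Finset (Common.Subspace.PS r j → MvPolynomial ι k) ×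
    Matrix (Common.Subspace.PS r j) (Fin r) (MvPolynomial ι k)) => gapT A a₀ u.1 u.2 hγ hI
  refine ⟨⋂ j, ⋂ u ∈ 𝒲 j, W j u, iInter_mem.2 fun j => (biInter_finset_mem _).2 fun u _ => hW j u,
    fun S G hG => ?_⟩
  obtain ⟨H₀, hH₀⟩ := H S G hG
  obtain ⟨C, hC⟩ := main_smallA a₀ 1 id G (|H₀| + ∑ j, ∑ u ∈ 𝒲 j, |Q j u|)
  refine ⟨|C|, fun b hb hx hdet hne => ?_⟩
  have e1 : (1 : Matrix (Fin r) (Fin r) (MvPolynomial ι k)).map (eval (x b)) = 1 :=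
    Matrix.map_one _ (map_zero _) (map_one _)
  have he : Es.mn (1 : Matrix (Fin r) (Fin r) k) id ≠ 0 := by simp [Es.mn]
  have a1 := hC (x b) (t b) hx.1
  have a2 := hH₀ (logHeight (x b) + logHeight (t b)) (x b) (t b)
  rw [e1, one_mulVec] at a1 a2
  have h1 := logHeight_nonneg (x b)
  have h2 := logHeight_nonneg (t b)
  have h3 := logHeight_nonneg (Es.mn (1 : Matrix (Fin r) (Fin r) k))
  have h4 := le_abs_self C
  rcases le_or_gt (logHeight (x b) + logHeight (t b)) (|H₀| + ∑ j, ∑ u ∈ 𝒲 j, |Q j u|) with h | h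
  · have a3 : 0 ≤ r * logHeight (t b) := by positivity
    have a4 : 0 ≤ ε * (logHeight (x b) + logHeight (t b)) := by positivity
    linarith [a1 h he hne]
  have hs0 : 0 ≤ ∑ j, ∑ u ∈ 𝒲 j, |Q j u| := by positivity
  rcases a2 (by linarith [le_abs_self H₀]) hx (by linarith) (by linarith) he hdet hne
    with h5 | ⟨j, u, hu, z, h5, h6, h7⟩
  · linarith [abs_nonneg C]
  have b1 : |Q j u| ≤ ∑ u ∈ 𝒲 j, |Q j u| :=
    single_le_sum (f := fun u => |Q j u|) (fun _ _ => abs_nonneg _) hu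
  have b2 : ∑ u ∈ 𝒲 j, |Q j u| ≤ ∑ j, ∑ u ∈ 𝒲 j, |Q j u| :=
    single_le_sum (f := fun j => ∑ u ∈ 𝒲 j, |Q j u|) (fun _ _ => by positivity) (mem_univ j)
  exact absurd h7 (hQ j u b (Set.mem_iInter₂.1 (Set.mem_iInter.1 hb j) u hu) _ z
    (by linarith [le_abs_self (Q j u), abs_nonneg H₀]) hx (by linarith) h5 h6)

end Pool.Agent.Lib.MP_651af7_nt.Fc
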