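import Pool.Agent.Lib.MP_651af7_nt.Fc.Sub

/-! Local estimates up to a small vertical term. -/

namespace Pool.Agent.Lib.MP_651af7_nt.Fc

open MvPolynomial Finset Height NumberField Filter Real
open IntermediateField (adjoin)
open Rt (Pl av mu)
open Es (vol)
open Ex (lx)

variable {k K ι β : Type} [Field k] [NumberField k]

/-- `R` holds at the places of `S` with errors whose sum is small against `H`. -/
def Ev (𝓕 : Filter β) (H : β → ℝ) (R : β → AbsoluteValue k ℝ → ℝ → Prop) : Prop :=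
  ∀ ε : ℝ, 0 < ε → ∃ W ∈ 𝓕, ∀ S : Finset (FinitePlace k), ∃ C : ℝ, ∀ p ∈ W, ∃ E : Pl S → ℝ,
    (∀ s, 0 ≤ E s) ∧ ∑ s, mu s * E s ≤ ε * H p + C ∧ ∀ s E', E s ≤ E' → R p (av s) E'

variable {𝓕 : Filter β} {H : β → ℝ} {R R' : β → AbsoluteValue k ℝ → ℝ → Prop}

theorem Ev.mono (h : Ev 𝓕 H R) (h' : ∀ᶠ p in 𝓕, ∀ w E, 0 ≤ E → R p w E → R' p w E) :
    Ev 𝓕 H R' := fun ε hε =>
  let ⟨_, hW, h1⟩ := h ε hε
  ⟨_, inter_mem hW h', fun S => (h1 S).imp fun _ h2 p hp => (h2 p hp.1).imp fun _ h3 =>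
    ⟨h3.1, h3.2.1, fun s E' e => hp.2 _ _ ((h3.1 s).trans e) (h3.2.2 s E' e)⟩⟩

theorem Ev.and (h : Ev 𝓕 H R) (h' : Ev 𝓕 H R') :
    Ev 𝓕 H fun p w E => R p w (E / 2) ∧ R' p w (E / 2) := fun ε hε => by
  obtain ⟨W, hW, h1⟩ := h (ε / 4) (by positivity)
  obtain ⟨W', hW', h2⟩ := h' (ε / 4) (by positivity)
  refine ⟨_, inter_mem hW hW', fun S => ?_⟩
  obtain ⟨C, h3⟩ := h1 S
  obtain ⟨C', h4⟩ := h2 S
  refine ⟨2 * (C + C'), fun p hp => ?_⟩
  obtain ⟨E, a1, a2, a3⟩ := h3 p hp.1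
  obtain ⟨E', b1, b2, b3⟩ := h4 p hp.2
  refine ⟨fun s => 2 * (E s + E' s), fun s => by linarith [a1 s, b1 s], ?_, fun s D e =>
    ⟨a3 _ _ (by linarith [b1 s]), b3 _ _ (by linarith [a1 s])⟩⟩
  simp only [mul_left_comm _ (2 : ℝ), mul_add, sum_add_distrib, ← mul_sum]
  linarith

theorem ev_const (hH : ∀ p, 0 ≤ H p) (c : ℝ) :
    Ev 𝓕 H fun _ (_ : AbsoluteValue k ℝ) E => c ≤ E := fun ε hε =>
  ⟨_, univ_mem, fun S => ⟨∑ s : Pl S, mu s * |c|, fun p _ => ⟨fun _ => |c|, fun _ => abs_nonneg c,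
    le_add_of_nonneg_left (mul_nonneg hε.le (hH p)), fun _ _ e => (le_abs_self c).trans e⟩⟩⟩

theorem ev_all (hH : ∀ p, 0 ≤ H p) {τ : Type} [Finite τ]
    {R : τ → β → AbsoluteValue k ℝ → ℝ → Prop} (h : ∀ i, Ev 𝓕 H (R i)) :
    Ev 𝓕 H fun p w E => ∀ i, R i p w E := fun ε hε => by
  have := Fintype.ofFinite τ
  choose W hW h1 using fun i => h i (ε / (Fintype.card τ + 1)) (by positivity)
  refine ⟨_, iInter_mem.2 hW, fun S => ?_⟩
  choose C h2 using fun i => h1 i S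
  refine ⟨∑ i, C i, fun p hp => ?_⟩
  choose E a1 a2 a3 using fun i => h2 i p (Set.mem_iInter.1 hp i)
  refine ⟨fun s => ∑ i, E i s, fun s => sum_nonneg fun i _ => a1 i s, ?_, fun s D e i =>
    a3 i _ _ ((single_le_sum (fun i _ => a1 i s) (mem_univ i)).trans e)⟩
  simp only [mul_sum]
  rw [sum_comm]
  refine (sum_le_sum fun i _ => a2 i).trans ?_
  rw [sum_add_distrib, sum_const, card_univ, nsmul_eq_mul, ← mul_assoc]
  refine add_le_add_left (mul_le_mul_of_nonneg_right ?_ (hH p)) _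
  rw [← mul_div_assoc, div_le_iff₀ (by positivity)]
  linarith

variable [Field K] [Algebra k K] [Fintype ι] {v : β → K → k} {J : Ideal (MvPolynomial ι k)}
  {y : ι → K} {c : β → AbsoluteValue k ℝ → Prop} {g g' : β → AbsoluteValue k ℝ → ℝ} {a b : K}

/-- In the case `c` the value of `a` is at most `g`, up to a small factor. -/
def Sm (𝓕 : Filter β) (v : β → K → k) (y : ι → K) (c : β → AbsoluteValue k ℝ → Prop)
    (g : β → AbsoluteValue k ℝ → ℝ) (a : K) : Prop :=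
  Ev 𝓕 (fun p => logHeight fun i => v p (y i)) fun p w E => c p w → w (v p a) ≤ exp E * g p w

theorem sm_of_le (h : ∀ᶠ p in 𝓕, ∀ w, c p w → w (v p a) ≤ g p w) : Sm 𝓕 v y c g a :=
  (ev_const (fun _ => logHeight_nonneg _) 0).mono (h.mono fun p hp w _ hE _ hc =>
    (hp w hc).trans (le_mul_of_one_le_left ((w.nonneg _).trans (hp w hc)) (one_le_exp hE)))

theorem Sm.mul (h : Sp 𝓕 v) (ha : Sm 𝓕 v y c g a) (hb : Sm 𝓕 v y c g' b) :
    Sm 𝓕 v y c (g * g') (a * b) :=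
  (Ev.and ha hb).mono ((h.mul a b).mono fun p hp w E _ h1 hc => by
    rw [hp, map_mul, ← add_halves E, exp_add, Pi.mul_apply, Pi.mul_apply, mul_mul_mul_comm]
    exact mul_le_mul (h1.1 hc) (h1.2 hc) (w.nonneg _) ((w.nonneg _).trans (h1.1 hc)))

theorem Sm.add (h : Sp 𝓕 v) (ha : Sm 𝓕 v y c g a) (hb : Sm 𝓕 v y c g b) :
    Sm 𝓕 v y c g (a + b) :=
  ((ev_all (fun _ => logHeight_nonneg _) (Fin.forall_fin_two.2 ⟨ha, hb⟩ :
    ∀ i, Sm 𝓕 v y c g (![a, b] i))).and (ev_const (fun _ => logHeight_nonneg _) 1)).mono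
    ((h.add a b).mono fun p hp w E _ h1 hc => by
      have h2 := (w.add_le _ _).trans (add_le_add (h1.1 0 hc) (h1.1 1 hc))
      have h3 := (w.nonneg _).trans (h1.1 0 hc)
      rw [hp, ← add_halves E, exp_add, mul_assoc]
      refine h2.trans (le_trans (two_mul _).ge (mul_le_mul_of_nonneg_right ?_ h3))
      linarith [add_one_le_exp (E / 2), h1.2])

/-- Faltings' theorem for the functions on the base. -/
theorem Dat.fal (D : Dat J y) (h : Sp 𝓕 v) (z : adjoin k (Set.range y)) :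
    Sm 𝓕 v y c 1 (algebraMap _ K z) := by
  rcases eq_or_ne z 0 with rfl | hz
  · exact sm_of_le (h.zero.mono fun p hp w _ => by simp [hp])
  intro ε hε
  obtain ⟨W, hW, h1⟩ := D.sub h (t := fun _ : Fin 1 => 1)
    (linearIndependent_unique_iff.2 one_ne_zero)
    (fun b : Bool => Matrix.of fun _ _ => if b then z⁻¹ else 1)
    (fun b => by cases b <;> simp [hz]) hε
  refine ⟨_, inter_mem hW (h.one.and (h.inv (z : K))), fun S => (h1 S).imp fun C hC p hp => ?_⟩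
  refine ⟨fun s => log⁺ (av s (v p z)), fun s => posLog_nonneg, ?_, fun s E e _ => ?_⟩
  · have h2 := hC p hp.1 fun s => decide (1 ≤ av s (v p z))
    simp only [vol, hp.2.1, univ_unique, sum_singleton, logHeight_eq_zero_of_subsingleton,
      mul_zero, zero_add, add_zero, lx, ciSup_unique, map_one, Matrix.of_apply] at h2
    refine le_trans (sum_le_sum fun s _ => mul_le_mul_of_nonneg_left ?_ (Nat.cast_nonneg _)) h2
    by_cases h3 : 1 ≤ av s (v p z)
    · simp [h3, Algebra.smul_def, hp.2.2, posLog_eq_log (abs_eq_self.2 ((av s).nonneg _) ▸ h3 :)]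
    · simp [h3, hp.2.1, (posLog_eq_zero_iff _).2 (abs_eq_self.2 ((av s).nonneg _) ▸
        (not_le.1 h3).le :)]
  · rw [Pi.one_apply, Pi.one_apply, mul_one]
    refine le_trans ?_ (exp_le_exp.2 e)
    simp only [posLog_eq_log_max_one ((av s).nonneg _)]
    rw [exp_log (by positivity)]
    exact le_max_right _ _

theorem Dat.sm_adjoin (D : Dat J y) (h : Sp 𝓕 v) {Z : Set K} (hZ : ∀ z ∈ Z, Sm 𝓕 v y c 1 z)
    (ha : a ∈ Algebra.adjoin (adjoin k (Set.range y)) Z) : Sm 𝓕 v y c 1 a := by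
  induction ha using Algebra.adjoin_induction with
  | mem x hx => exact hZ x hx
  | algebraMap z => exact D.fal h z
  | add x y _ _ hx hy => exact hx.add h hy
  | mul x y _ _ hx hy => simpa using hx.mul h hy

end Pool.Agent.Lib.MP_651af7_nt.Fc
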