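import Mathlib

/-! Bases adapted to a filtration. -/

namespace Pool.Agent.Lib.MP_651af7_nt.Fc

open Module Submodule

variable {F E : Type} [Field F] [AddCommGroup E] [Module F E] [FiniteDimensional F E]

theorem fa_le {E' : Type} [AddCommGroup E'] [Module F E'] (L : E →ₗ[F] E') (T W : Submodule F E')
    [FiniteDimensional F T] (h : ∀ x, L x ∈ T ⊔ W) :
    finrank F E ≤ finrank F (W.comap L) + finrank F T := by
  have h1 := (W.mkQ ∘ₗ L).finrank_range_add_finrank_ker
  rw [LinearMap.ker_comp, ker_mkQ] at h1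
  have h2 : LinearMap.range (W.mkQ ∘ₗ L) ≤ T.map W.mkQ := by
    rintro _ ⟨x, rfl⟩
    obtain ⟨a, ha, b, hb, e⟩ := mem_sup.1 (h x)
    refine ⟨a, ha, ?_⟩
    rw [LinearMap.comp_apply, ← e, map_add, mkQ_apply W b, (Quotient.mk_eq_zero W).2 hb, add_zero]
  have h3 := (finrank_mono h2).trans (finrank_map_le W.mkQ T)
  omega

theorem fa_aux (J : ℕ) : ∀ (W : ℕ → Submodule F E), Antitone W → ∃ (b : Finset E) (w : E → ℕ),
    LinearIndepOn F id (b : Set E) ∧ span F (b : Set E) = W 0 ∧ (∀ x ∈ b, x ∈ W (w x)) ∧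
      ∑ n ∈ Finset.range J, finrank F (W (n + 1)) ≤ ∑ x ∈ b, w x := by
  classical
  have ext : ∀ (V : Submodule F E) (s : Set E), LinearIndepOn F id s → s ⊆ V →
      ∃ b : Finset E, s ⊆ b ∧ LinearIndepOn F id (b : Set E) ∧ span F (b : Set E) = V := by
    intro V s h1 h2
    have h3 := h1.linearIndepOn_extend h2
    refine ⟨(LinearIndependent.set_finite_of_isNoetherian h3).toFinset, ?_⟩
    rw [Set.Finite.coe_toFinset, h1.span_extend_eq_span, span_eq]
    exact ⟨h1.subset_extend h2, h3, rfl⟩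
  induction J with
  | zero =>
    intro W _
    obtain ⟨b, -, h1, h2⟩ := ext (W 0) ∅ (linearIndepOn_empty _ _) (Set.empty_subset _)
    exact ⟨b, fun _ => 0, h1, h2, fun x hx => h2 ▸ subset_span hx, by simp⟩
  | succ J ih =>
    intro W hW
    obtain ⟨b', w, h1, h2, h3, h4⟩ := ih (fun n => W (n + 1)) fun _ _ h => hW (by omega)
    obtain ⟨b, h5, h6, h7⟩ := ext (W 0) b' h1
      (subset_span.trans (h2.le.trans (hW (Nat.zero_le _))))
    refine ⟨b, fun x => if x ∈ b' then w x + 1 else 0, h6, h7, fun x hx => ?_, ?_⟩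
    · dsimp only
      split_ifs with h
      · exact h3 x h
      · exact h7 ▸ subset_span hx
    · rw [Finset.sum_ite_mem, Finset.inter_eq_right.2 (Finset.coe_subset.1 h5),
        Finset.sum_add_distrib, Finset.sum_range_succ', ← h2, finrank_span_finset_eq_card h1]
      simpa using h4

/-- A basis adapted to a filtration whose steps have codimension at most `l`. -/
theorem fa_main {r l : ℕ} (W : ℕ → Submodule F (Fin r → F)) (hW : Antitone W) (h0 : W 0 = ⊤)
    (h : ∀ j, r ≤ finrank F (W j) + j * l) (J : ℕ) :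
    ∃ (G : Matrix (Fin r) (Fin r) F) (w : Fin r → ℕ), G.det ≠ 0 ∧ (∀ a, G a ∈ W (w a)) ∧
      2 * (J * r) ≤ 2 * ∑ a, w a + J * (J + 1) * l := by
  obtain ⟨b, w, h1, h2, h3, h4⟩ := fa_aux J W hW
  have hc : b.card = r := by
    rw [← finrank_span_finset_eq_card h1, h2, h0, finrank_top, finrank_fin_fun]
  let e := (Finset.equivFinOfCardEq hc).symm
  refine ⟨Matrix.of fun a => (e a).1, fun a => w (e a), ?_, fun a => h3 _ (e a).2, ?_⟩
  · exact ((Matrix.isUnit_iff_isUnit_det _).1 (Matrix.linearIndependent_rows_iff_isUnit.1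
      (h1.comp e e.injective))).ne_zero
  · rw [e.sum_comp fun x => w x, Finset.sum_coe_sort b w]
    have h5 : ∑ _n ∈ Finset.range J, r ≤
        ∑ n ∈ Finset.range J, (finrank F (W (n + 1)) + (n + 1) * l) :=
      Finset.sum_le_sum fun n _ => h _
    have h6 := Finset.sum_range_id_mul_two (J + 1)
    rw [Finset.sum_range_succ', add_zero, Nat.add_sub_cancel, mul_comm (J + 1)] at h6
    rw [Finset.sum_add_distrib, ← Finset.sum_mul, Finset.sum_const, Finset.card_range,
      smul_eq_mul] at h5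
    rw [← h6]
    nlinarith

end Pool.Agent.Lib.MP_651af7_nt.Fc
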