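import Mathlib

/-! Common poles; independence over an algebraically closed subfield. -/

namespace Pool.Agent.Lib.MP_651af7_nt.Fc

open Polynomial

variable {K0 K : Type} [Field K0] [Field K] [Algebra K0 K]

/-- No common pole. -/
def NoP (K0 : Type) [Field K0] [Algebra K0 K] (a b : K) : Prop :=
  ∃ A ∈ Algebra.adjoin K0 {a⁻¹, b⁻¹}, ∃ B ∈ Algebra.adjoin K0 {a⁻¹, b⁻¹}, a⁻¹ * A + b⁻¹ * B = 1

theorem nop {a b : K} (ha : a ≠ 0) (hb : b ≠ 0)
    (h : ∀ O : ValuationSubring K, (∀ c : K0, algebraMap K0 K c ∈ O) → a ∈ O ∨ b ∈ O) :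
    NoP K0 a b := by
  let R := Algebra.adjoin K0 {a⁻¹, b⁻¹}
  let x : R.toSubring := ⟨a⁻¹, Algebra.subset_adjoin (.inl rfl)⟩
  let y : R.toSubring := ⟨b⁻¹, Algebra.subset_adjoin (.inr rfl)⟩
  by_cases e : Ideal.span {x, y} = ⊤
  · obtain ⟨A, B, e⟩ := Ideal.mem_span_pair.1 ((Ideal.eq_top_iff_one _).1 e)
    exact ⟨A, A.2, B, B.2, by rw [mul_comm, mul_comm b⁻¹]; exact congrArg Subtype.val e⟩
  obtain ⟨O, h1, h2⟩ := Ideal.image_subset_nonunits_valuationSubring _ e
  exact (h O fun c => h1 (R.algebraMap_mem c)).elim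
    (absurd · ((O.inv_mem_nonunits_iff.1 (h2 ⟨x, Ideal.subset_span (.inl rfl), rfl⟩)).resolve_left ha))
    (absurd · ((O.inv_mem_nonunits_iff.1 (h2 ⟨y, Ideal.subset_span (.inr rfl), rfl⟩)).resolve_left hb))

/-- Independence over an algebraically closed subfield survives algebraic extension. -/
theorem ind {F : Type} [Field F] [Algebra K0 F] [CharZero K0] (φ : K →ₐ[K0] F)
    (hcl : ∀ z : K, IsAlgebraic K0 z → z ∈ Set.range (algebraMap K0 K)) {ι : Type} [Fintype ι]
    {T : ι → K} (hT : LinearIndependent K0 T) {w : ι → F} (hw : ∀ l, IsAlgebraic K0 (w l))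
    (h : ∑ l, w l * φ (T l) = 0) : w = 0 := by
  let _ := φ.toRingHom.toAlgebra
  have : IsScalarTower K0 K F := IsScalarTower.of_algHom φ
  let E := IntermediateField.adjoin K0 (Set.range w)
  have : FiniteDimensional K0 E := IntermediateField.finiteDimensional_adjoin (by
    rintro _ ⟨l, rfl⟩; exact (hw l).isIntegral)
  obtain ⟨α, hα⟩ := Field.exists_primitive_element K0 E
  have hi : IsIntegral K0 (α : F) := (IsIntegral.of_finite K0 α).map E.val
  have h1 : minpoly K (α : F) = (minpoly K0 (α : F)).map (algebraMap K0 K) := by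
    obtain ⟨q, hq, -, hm⟩ := lifts_and_degree_eq_and_monic (f := algebraMap K0 K)
      ((lifts_iff_coeff_lifts _).2 fun n => hcl _ (isIntegral_coeff_of_dvd _ _ (minpoly.monic hi)
        (minpoly.monic hi.tower_top) (minpoly.dvd_map_of_isScalarTower K0 K _) n).isAlgebraic)
      (minpoly.monic (A := K) hi.tower_top)
    refine eq_of_monic_of_associated (minpoly.monic hi.tower_top) ((minpoly.monic hi).map _)
      (associated_of_dvd_dvd (minpoly.dvd_map_of_isScalarTower K0 K _) ?_)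
    rw [← hq]
    exact Polynomial.map_dvd _ (minpoly.dvd _ _ (by rw [← aeval_map_algebraMap K, hq, minpoly.aeval]))
  have h2 : ∀ l, ∃ g : K0[X], g.degree < (minpoly K0 (α : F)).degree ∧ aeval (α : F) g = w l := by
    intro l
    have : (⟨w l, IntermediateField.subset_adjoin _ _ ⟨l, rfl⟩⟩ : E) ∈ Algebra.adjoin K0 {α} := by
      rw [← IntermediateField.adjoin_simple_toSubalgebra_of_isAlgebraic
        (IsIntegral.of_finite K0 α).isAlgebraic, hα]
      trivial
    rw [Algebra.adjoin_singleton_eq_range_aeval] at this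
    obtain ⟨g, hg⟩ := this
    refine ⟨_, degree_modByMonic_lt g (minpoly.monic hi), ?_⟩
    rw [aeval_modByMonic_eq_self_of_root (minpoly.aeval _ _)]
    exact (aeval_algHom_apply E.val α g).trans (congrArg Subtype.val hg)
  choose g g1 g2 using h2
  have h3 : ∑ l, C (T l) * (g l).map (algebraMap K0 K) = 0 := by
    by_contra h0
    refine (minpoly.degree_le_of_ne_zero K (α : F) h0 ?_).not_gt ?_
    · rw [← h, map_sum]
      exact Finset.sum_congr rfl fun l _ => by
        rw [map_mul, aeval_C, aeval_map_algebraMap, g2, mul_comm]; rfl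
    · rw [h1, degree_map]
      refine (degree_sum_le _ _).trans_lt ((Finset.sup_lt_iff (bot_lt_iff_ne_bot.2
        (degree_eq_bot.not.2 (minpoly.ne_zero hi)))).2 fun l _ => ?_)
      rw [← smul_eq_C_mul]
      exact ((degree_smul_le _ _).trans degree_map_le).trans_lt (g1 l)
  funext l
  rw [← g2, show g l = 0 from Polynomial.ext fun n => Fintype.linearIndependent_iff.1 hT
    (fun l => (g l).coeff n) (by
      simpa [Algebra.smul_def, mul_comm] using congrArg (coeff · n) h3) l, map_zero, Pi.zero_apply]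

theorem NoP.poly {a b : K} (h : NoP K0 a b) :
    ∃ P : K0[X][X], (P.coeff 0).coeff 0 ≠ 0 ∧ P.aevalAeval a⁻¹ b⁻¹ = 0 := by
  have k : Algebra.adjoin K0 {a⁻¹, b⁻¹} ≤ (aevalAeval (R := K0) a⁻¹ b⁻¹).range :=
    Algebra.adjoin_le (by
      rintro _ (rfl | rfl)
      exacts [⟨C X, aevalAeval_X _ _⟩, ⟨X, aevalAeval_Y _ _⟩])
  obtain ⟨_, hA, _, hB, e⟩ := h
  obtain ⟨A, rfl⟩ := k hA
  obtain ⟨B, rfl⟩ := k hB
  refine ⟨1 - (C X * A + X * B), by simp, ?_⟩
  rw [map_sub, map_one, map_add, map_mul, map_mul, aevalAeval_X, aevalAeval_Y]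
  exact sub_eq_zero.2 e.symm

end Pool.Agent.Lib.MP_651af7_nt.Fc
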