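import Pool.Agent.Lib.MP_651af7_nt.Fc.FA
import Pool.Agent.Lib.MP_651af7_nt.Fc.FI

/-! The filtration at one place of the generic fibre, and compactness. -/

namespace Pool.Agent.Lib.MP_651af7_nt.Fc

open Module Submodule

variable {K0 K R : Type} [Field K0] [Field K] [Algebra K0 K] [CommRing R] [Algebra R K]

theorem one_mem {Z : Set K} (h : ∀ O : ValuationSubring K, (∀ c : R, algebraMap R K c ∈ O) →
    ∃ z ∈ Z, z ∉ O.nonunits) : (1 : K) ∈ NonUnitalAlgebra.adjoin R Z := by
  let A := Algebra.adjoin R Z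
  have k : ∀ r ∈ A, ∀ x ∈ NonUnitalAlgebra.adjoin R Z, r * x ∈ NonUnitalAlgebra.adjoin R Z := by
    intro r hr
    induction hr using Algebra.adjoin_induction with
    | mem z hz => exact fun x hx => mul_mem (NonUnitalAlgebra.subset_adjoin R hz) hx
    | algebraMap c => exact fun x hx => Algebra.smul_def c x ▸ SMulMemClass.smul_mem c hx
    | add a b _ _ ha hb => exact fun x hx => add_mul a b x ▸ add_mem (ha x hx) (hb x hx)
    | mul a b _ _ ha hb => exact fun x hx => mul_assoc a b x ▸ ha _ (hb x hx)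
  let I : Ideal A.toSubring :=
    { carrier := {x | x.1 ∈ NonUnitalAlgebra.adjoin R Z}
      add_mem' := fun a b => (NonUnitalAlgebra.adjoin R Z).add_mem a b
      zero_mem' := zero_mem (NonUnitalAlgebra.adjoin R Z)
      smul_mem' := fun r x hx => k r r.2 x hx }
  by_contra e
  obtain ⟨O, h1, h2⟩ := Ideal.image_subset_nonunits_valuationSubring I
    ((Ideal.ne_top_iff_one I).2 e)
  obtain ⟨z, hz, h3⟩ := h O fun c => h1 (A.algebraMap_mem c)
  exact h3 (h2 ⟨⟨z, Algebra.subset_adjoin hz⟩, NonUnitalAlgebra.subset_adjoin R hz, rfl⟩)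

theorem cpt {τ : Type} [Finite τ] (u : K) (z : ValuationSubring K → τ → K) (hz : ∀ O l, z O l ≠ 0)
    (h : ∀ O : ValuationSubring K, (∀ c : R, algebraMap R K c ∈ O) → u ∈ O.nonunits →
      ∀ l, z O l ∈ O) : ∃ Λ : Finset (ValuationSubring K), ∀ l : Λ → τ,
      (1 : K) ∈ NonUnitalAlgebra.adjoin R (insert u (Set.range fun O : Λ => (z O (l O))⁻¹)) := by
  classical
  by_contra hc
  push Not at hc
  choose g hg using hc
  obtain ⟨χ, hχ⟩ := Finset.rado_selection_subtype (β := fun _ => τ) g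
  have k : ∀ x ∈ NonUnitalAlgebra.adjoin R (insert u (Set.range fun O => (z O (χ O))⁻¹)),
      ∃ s : Finset (ValuationSubring K), ∀ t : Set K, u ∈ t → (∀ O ∈ s, (z O (χ O))⁻¹ ∈ t) →
        x ∈ NonUnitalAlgebra.adjoin R t := by
    intro x hx
    induction hx using NonUnitalAlgebra.adjoin_induction with
    | mem x hx =>
      obtain rfl | ⟨O, rfl⟩ := hx
      · exact ⟨∅, fun t h1 _ => NonUnitalAlgebra.subset_adjoin R h1⟩
      · exact ⟨{O}, fun t _ h2 => NonUnitalAlgebra.subset_adjoin R (h2 O (by simp))⟩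
    | zero => exact ⟨∅, fun _ _ _ => zero_mem _⟩
    | add x y _ _ hx hy =>
      obtain ⟨s, hs⟩ := hx
      obtain ⟨s', hs'⟩ := hy
      exact ⟨s ∪ s', fun t h1 h2 => add_mem (hs t h1 fun O h => h2 O (by simp [h]))
        (hs' t h1 fun O h => h2 O (by simp [h]))⟩
    | mul x y _ _ hx hy =>
      obtain ⟨s, hs⟩ := hx
      obtain ⟨s', hs'⟩ := hy
      exact ⟨s ∪ s', fun t h1 h2 => mul_mem (hs t h1 fun O h => h2 O (by simp [h]))
        (hs' t h1 fun O h => h2 O (by simp [h]))⟩
    | smul r x _ hx => exact hx.imp fun s hs t h1 h2 => SMulMemClass.smul_mem r (hs t h1 h2)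
  obtain ⟨s, hs⟩ := k 1 (one_mem fun O hO => by
    by_cases e : u ∈ O.nonunits
    · exact ⟨_, .inr ⟨O, rfl⟩, fun e' =>
        (O.inv_mem_nonunits_iff.1 e').elim (hz _ _) (absurd (h O hO e _))⟩
    · exact ⟨u, .inl rfl, e⟩)
  obtain ⟨t, hst, ht⟩ := hχ s
  exact hg t (hs _ (.inl rfl) fun O hO => .inr ⟨⟨O, hst hO⟩, by rw [ht ⟨O, hO⟩]⟩)

theorem fg_num {r w J s : ℕ} (h1 : J * w ≤ r) (h2 : r < J * w + w)
    (h : 2 * (J * r) ≤ 2 * s + J * (J + 1) * w) : r * r ≤ 2 * w * s + r * w := by
  obtain ⟨ρ, rfl⟩ := Nat.exists_eq_add_of_le h1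
  nlinarith [Nat.mul_le_mul_left w h, Nat.mul_le_mul_left ρ (show ρ ≤ w by omega)]

/-- The dimension of the span of the monomials of degree `d`. -/
theorem fg_dim {ι : Type} [Fintype ι] (f : ι → K) (a : ι) (ht : Transcendental K0 (f a))
    (htop : IntermediateField.adjoin K0 (Set.range f) = ⊤) {b : ι} (hb : f b = 1) :
    ∃ c : ℕ, ∀ (d : ℕ) (V : Submodule K0 K), FiniteDimensional K0 V →
      (∀ α : ι → ℕ, ∑ i, α i = d → ∏ i, f i ^ α i ∈ V) →
      d * finrank (IntermediateField.adjoin K0 {f a}) K ≤ finrank K0 V + c := by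
  classical
  set F := IntermediateField.adjoin K0 {f a}
  rcases Nat.eq_zero_or_pos (finrank F K) with h0 | h0
  · exact ⟨0, fun d V _ _ => by simp [h0]⟩
  have := Module.finite_of_finrank_pos h0
  have e : span F (Submonoid.closure (Set.range f) : Set K) = ⊤ := by
    rw [← Algebra.adjoin_eq_span, ← IntermediateField.adjoin_toSubalgebra,
      IntermediateField.adjoin_eq_top_of_adjoin_eq_top K0 htop]
    rfl
  obtain ⟨p, p1, -, p2⟩ := exists_fun_fin_finrank_span_eq F (Submonoid.closure (Set.range f) : Set K)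
  choose β hβ using fun m => Submonoid.mem_closure_range_iff_of_fintype.1 (p1 m)
  obtain ⟨c, hc⟩ := (Set.finite_range fun m => ∑ i, β m i).bddAbove
  refine ⟨c * finrank F K, fun d V _ hV => ?_⟩
  have li : LinearIndependent K0 fun n : Fin (d - c) =>
      (⟨f a, IntermediateField.mem_adjoin_simple_self K0 _⟩ : F) ^ (n : ℕ) := by
    refine LinearIndependent.of_comp F.val.toLinearMap ?_
    have := ((Polynomial.basisMonomials K0).linearIndependent.map'
      (Polynomial.aeval (f a)).toLinearMap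
      (LinearMap.ker_eq_bot.2 (transcendental_iff_injective.1 ht))).comp _
      (Fin.val_injective (n := d - c))
    simpa [Function.comp_def] using this
  have hm : ∀ q : Fin (d - c) × _, f a ^ q.1.1 * p q.2 ∈ V := fun q => by
    have h1 : ∑ i, β q.2 i ≤ c := hc ⟨q.2, rfl⟩
    have h2 := q.1.2
    have := hV (β q.2 + Pi.single a q.1.1 + Pi.single b (d - q.1 - ∑ i, β q.2 i)) (by
      simp only [Pi.add_apply, Finset.sum_add_distrib, Finset.sum_pi_single', Finset.mem_univ,
        if_true]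
      omega)
    simp only [Pi.add_apply, pow_add, Finset.prod_mul_distrib, Pi.single_apply, pow_ite] at this
    simpa [hb, hβ, mul_comm] using this
  have h2 := (LinearIndependent.of_comp V.subtype (v := fun q => ⟨_, hm q⟩) (by
    simpa [Algebra.smul_def, Function.comp_def] using linearIndependent_smul li p2)
    ).fintype_card_le_finrank
  rw [Fintype.card_prod, Fintype.card_fin, Fintype.card_fin, e, finrank_top] at h2
  refine le_trans ?_ (Nat.add_le_add_right h2 _)
  rw [← add_mul]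
  exact Nat.mul_le_mul_right _ (by omega)

theorem ff2 {ι : Type} [Fintype ι] (f : ι → K) (a : ι) (ht : Transcendental K0 (f a))
    (htop : IntermediateField.adjoin K0 (Set.range f) = ⊤) (h1 : ∃ b, f b = 1) (w : ℕ) :
    ∃ c : ℕ, ∀ d : ℕ, ∃ (r : ℕ) (α : Fin r → ι → ℕ), (∀ m, ∑ i, α m i = d) ∧
      LinearIndependent K0 (fun m => ∏ i, f i ^ α m i) ∧
      (∀ i, f i ^ d ∈ Submodule.span K0 (Set.range fun m => ∏ i, f i ^ α m i)) ∧
      ∀ (O : ValuationSubring K) (e : ι), (∀ z : K0, algebraMap K0 K z ∈ O) → f e ∉ O →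
        (∀ i, f i / f e ∈ O) →
        (∃ b : Fin w → K, ∀ z ∈ O, ∃ c : Fin w → K0, (z - ∑ i, c i • b i) * f e ∈ O) →
        ∃ (G : Matrix (Fin r) (Fin r) K0) (j : Fin r → ℕ), G.det ≠ 0 ∧
          (∀ l, (∑ m, G l m • ∏ i, f i ^ α m i) * f e ^ j l / f e ^ d ∈ O) ∧
          r * (d * finrank (IntermediateField.adjoin K0 {f a}) K) ≤ 2 * w * ∑ l, j l + r * c := by
  classical
  obtain ⟨b₁, hb⟩ := h1
  obtain ⟨c, hc⟩ := fg_dim f a ht htop hb
  refine ⟨c + w, fun d => ?_⟩
  let s : Set K := (fun α : ι → ℕ => ∏ i, f i ^ α i) ''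
    (Finset.piAntidiag Finset.univ d : Finset (ι → ℕ))
  have : FiniteDimensional K0 (span K0 s) :=
    FiniteDimensional.span_of_finite _ ((Finset.finite_toSet _).image _)
  have hs : ∀ α : ι → ℕ, ∑ i, α i = d → ∏ i, f i ^ α i ∈ span K0 s := fun α h =>
    subset_span ⟨α, by simpa using h, rfl⟩
  obtain ⟨T, f1, f2, f3⟩ := exists_fun_fin_finrank_span_eq K0 s
  choose α a1 a2 using f1
  obtain rfl : (fun m => ∏ i, f i ^ α m i) = T := funext a2
  have a3 : ∀ m, ∑ i, α m i = d := fun m => by simpa using a1 m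
  have h2 := hc d _ this hs
  refine ⟨_, α, a3, f3, fun i => ?_, fun O e hO ha hi ⟨b, hb⟩ => ?_⟩
  · rw [f2]
    simpa [Pi.single_apply, pow_ite] using hs (Pi.single i d) (by simp)
  generalize finrank K0 (span K0 s) = r at *
  have a0 : f e ≠ 0 := fun h => ha (h ▸ O.zero_mem)
  have hm : ∀ (c : K0), ∀ z ∈ O, c • z ∈ O := fun c z hz =>
    Algebra.smul_def c z ▸ O.mul_mem _ _ (hO c) hz
  let W : ℕ → Submodule K0 K := fun j =>
    { carrier := {z | z * f e ^ j ∈ O}
      add_mem' := fun h h' => by simpa only [Set.mem_ofPred_eq, add_mul] using add_mem h h'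
      zero_mem' := by simp
      smul_mem' := fun c z h => by simpa only [Set.mem_ofPred_eq, smul_mul_assoc] using hm c _ h }
  let L := LinearMap.mulRight K0 (f e ^ d)⁻¹ ∘ₗ
    Fintype.linearCombination K0 fun m => ∏ i, f i ^ α m i
  have hL : ∀ x, L x ∈ O := fun x => by
    simp only [L, LinearMap.comp_apply, Fintype.linearCombination_apply, map_sum, map_smul,
      LinearMap.mulRight_apply]
    refine sum_mem fun m _ => hm _ _ ?_
    rw [← a3 m, ← Finset.prod_pow_eq_pow_sum, ← div_eq_mul_inv, ← Finset.prod_div_distrib]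
    exact prod_mem fun i _ => div_pow (f i) _ _ ▸ pow_mem (hi i) _
  let T : ℕ → Finset K := fun j =>
    (Finset.range j ×ˢ Finset.univ).image fun p : ℕ × Fin w => b p.2 / f e ^ p.1
  have hT : ∀ j, ∀ z ∈ O, z ∈ span K0 (T j : Set K) ⊔ W j := by
    intro j z hz
    induction j with
    | zero => exact mem_sup_right (show z * f e ^ 0 ∈ O by simpa using hz)
    | succ j ih =>
      obtain ⟨y, hy, z', hz', rfl⟩ := mem_sup.1 ih
      obtain ⟨c, hc⟩ := hb _ hz'
      refine add_mem (mem_sup_left (span_mono (Finset.coe_subset.2 (Finset.image_subset_image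
        (Finset.product_subset_product_left (by simp)))) hy)) (mem_sup.2
        ⟨∑ i, c i • (b i / f e ^ j), sum_mem fun i _ => smul_mem _ _ (subset_span
          (Finset.mem_coe.2 (Finset.mem_image_of_mem _ (a := (j, i)) (by simp)))), _, ?_,
          add_sub_cancel _ _⟩)
      change _ * f e ^ (j + 1) ∈ O
      simp only [div_eq_mul_inv, ← smul_mul_assoc, ← Finset.sum_mul]
      rwa [pow_succ, ← mul_assoc, sub_mul, inv_mul_cancel_right₀ (pow_ne_zero j a0)]
  have w0 : 0 < w := Nat.pos_of_ne_zero fun h => by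
    subst h
    obtain ⟨c, hc⟩ := hb 1 O.one_mem
    exact ha (by simpa using hc)
  obtain ⟨G, j, g1, g2, g3⟩ := fa_main (l := w) (fun j => (W j).comap L)
    (antitone_nat_of_succ_le fun j => comap_mono fun z (hz : z * f e ^ (j + 1) ∈ O) => by
      have := O.mul_mem _ _ hz ((O.mem_or_inv_mem _).resolve_left ha)
      rwa [pow_succ, ← mul_assoc, mul_inv_cancel_right₀ a0] at this)
    (eq_top_iff.2 fun x _ => show L x * f e ^ 0 ∈ O by simpa using hL x)
    (fun j => by
      have h3 := fa_le L _ _ fun x => hT j _ (hL x)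
      have h4 := (finrank_span_finset_le_card (R := K0) (T j)).trans Finset.card_image_le
      rw [finrank_fin_fun] at h3
      rw [Set.finrank, Finset.card_product, Finset.card_range, Finset.card_fin] at h4
      omega) (r / w)
  refine ⟨G, j, g1, fun l => ?_, ?_⟩
  · rw [div_eq_mul_inv, mul_right_comm, ← Fintype.linearCombination_apply]
    exact g2 l
  · have := fg_num (Nat.div_mul_le_self r w) (Nat.lt_div_mul_add w0) g3
    nlinarith [Nat.mul_le_mul_left r h2]

end Pool.Agent.Lib.MP_651af7_nt.Fc
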