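import Pool.Agent.Lib.MP_651af7_nt.Fc.GPa

/-! A free submodule of full rank over a finite projection. -/

namespace Pool.Agent.Lib.MP_651af7_nt.Fc

open Module Submodule Finset

variable {F K κ : Type} [Field F] [Field K] [Algebra F K] [Fintype κ]

theorem gp_free (f : κ → K) (htop : IntermediateField.adjoin F (Set.range f) = ⊤) {i₀ : κ}
    (h1 : f i₀ = 1) {n : ℕ} (hn : Algebra.trdeg F K = n) (x : Fin (n + 1) → K) (h0 : x 0 ≠ 0)
    {c : ℕ} (hc : ∀ t, span F (Set.range f) ^ (c + t) =
      span F (Set.range f) ^ c * span F (Set.range x) ^ t) :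
    ∃ (Δ s : ℕ) (p : Fin Δ → K), (∀ m, p m ∈ span F (Set.range f) ^ c) ∧ ∀ t,
      LinearIndependent F (fun q : piAntidiag (univ : Finset (Fin (n + 1))) t × Fin Δ =>
        (∏ i, x i ^ q.1.1 i) * p q.2) ∧ finrank F (span F (Set.range f) ^ (c + t) :) ≤
          (piAntidiag (univ : Finset (Fin (n + 1))) (t + s)).card * Δ := by
  classical
  set U := span F (Set.range f) with hU
  set X := span F (Set.range x) with hX
  let z : Fin n → K := fun i => x i.succ / x 0
  let B := Algebra.adjoin F (Set.range z)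
  have hx : ∀ i, x i ∈ X := fun i => subset_span ⟨i, rfl⟩
  have hf : ∀ i, f i ∈ U := fun i => subset_span ⟨i, rfl⟩
  have F1 : ∀ t, ∀ y ∈ X ^ t, y / x 0 ^ t ∈ B := fun t y hy =>
    gp_div B.toSubring B.algebraMap_mem (fun i => by
      refine Fin.cases ?_ (fun i => Algebra.subset_adjoin ⟨i, rfl⟩) i
      rw [div_self h0]
      exact B.one_mem) hy
  have mono : ∀ {b t} j, b * x 0 ^ t ∈ X ^ t → b * x 0 ^ (j + t) ∈ X ^ (j + t) := fun j h => by
    rw [pow_add, pow_add, mul_left_comm]
    exact mul_mem_mul (pow_mem_pow X (hx 0) j) h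
  have F2 : ∀ b ∈ B, ∃ t, b * x 0 ^ t ∈ X ^ t := fun b hb => by
    induction hb using Algebra.adjoin_induction with
    | mem y hy =>
      obtain ⟨i, rfl⟩ := hy
      exact ⟨1, by simpa [z, h0] using hx i.succ⟩
    | algebraMap r => exact ⟨0, by simp⟩
    | add a b _ _ ha hb =>
      obtain ⟨M, ha⟩ := ha
      obtain ⟨N, hb⟩ := hb
      exact ⟨N + M, add_mul a b _ ▸ add_mem (mono N ha) (add_comm M N ▸ mono M hb)⟩
    | mul a b _ _ ha hb =>
      obtain ⟨M, ha⟩ := ha
      obtain ⟨N, hb⟩ := hb
      refine ⟨M + N, ?_⟩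
      rw [pow_add, pow_add, mul_mul_mul_comm]
      exact mul_mem_mul ha hb
  let v : piAntidiag (univ : Finset κ) c → K := fun γ => (∏ i, f i ^ γ.1 i) / x 0 ^ c
  have F3 : ∀ t, ∀ w ∈ U ^ (c + t), w / x 0 ^ (c + t) ∈ span B (Set.range v) := fun t w hw => by
    rw [hc] at hw
    refine Submodule.mul_induction_on hw (fun u hu y hy => ?_)
      fun a b ha hb => add_div a b _ ▸ add_mem ha hb
    rw [hU, gp_pow] at hu
    obtain ⟨a, rfl⟩ := (mem_span_range_iff_exists_fun F).1 hu
    rw [pow_add, mul_div_mul_comm, mul_comm, sum_div]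
    refine smul_mem _ (⟨_, F1 t y hy⟩ : B) (sum_mem fun γ _ => ?_)
    rw [smul_div_assoc]
    exact smul_of_tower_mem _ _ (subset_span ⟨γ, rfl⟩)
  have hv : ∀ γ : piAntidiag (univ : Finset κ) c, ∏ i, f i ^ γ.1 i ∈ U ^ c := fun γ => by
    simpa only [gp_deg] using gp_mon hf γ.1
  have hi : ∀ k, IsAlgebraic B (f k / x 0) := fun k => by
    refine (isIntegral_of_smul_mem_submodule (span B (Set.range v)) (fun e => ?_)
      (fg_span (Set.finite_range v)) _ fun y hy => ?_).isAlgebraic
    · simpa [e, h1, h0] using F3 0 _ (pow_mem_pow U (hf i₀) _)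
    · refine (map_le_iff_le_comap.2 (span_le.2 ?_) : (span B (Set.range v)).map
        (LinearMap.mulLeft B (f k / x 0)) ≤ _) ⟨y, hy, rfl⟩
      rintro _ ⟨γ, rfl⟩
      have := F3 1 _ (pow_succ U c ▸ mul_mem_mul (hv γ) (hf k))
      rwa [pow_succ, mul_div_mul_comm, mul_comm] at this
  have : Algebra.IsAlgebraic B K := ⟨fun y => by
    have hy : y ∈ IntermediateField.adjoin F (Set.range f) := htop ▸ trivial
    induction hy using IntermediateField.adjoin_induction with
    | mem y hy =>
      obtain ⟨k, rfl⟩ := hy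
      simpa [h0, h1] using (hi k).mul (hi i₀).inv
    | algebraMap r => exact isAlgebraic_algebraMap (algebraMap F B r)
    | add a b _ _ ha hb => exact ha.add hb
    | inv a _ ha => exact ha.inv
    | mul a b _ _ ha hb => exact ha.mul hb⟩
  have hz := (Algebra.IsAlgebraic.isTranscendenceBasis_of_le_trdeg_of_finite F z
    (by simp [hn])).1
  obtain ⟨I, hI, hm⟩ := exists_maximal_linearIndepOn B v
  let e := (Finite.equivFin I).symm
  have he : Set.range (fun m => v (e m)) = v '' I := by
    rw [Set.image_eq_range]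
    exact e.surjective.range_comp fun m : I => v m
  choose a a0 ha using fun γ => show ∃ a : B, a ≠ 0 ∧ a • v γ ∈ span B (v '' I) from
    if h : γ ∈ I then ⟨1, one_ne_zero, smul_mem _ _ (subset_span ⟨γ, h, rfl⟩)⟩ else hm γ h
  choose b hb using fun γ => show ∃ b : _ → B, ∑ m, b m • v (e m) = (∏ γ, a γ) • v γ from by
    rw [← mem_span_range_iff_exists_fun, he, ← prod_erase_mul _ _ (mem_univ γ), mul_smul]
    exact smul_mem _ _ (ha γ)
  choose s hs using fun q : _ × _ => F2 _ (b q.1 q.2).2
  refine ⟨_, ∑ q, s q, fun m => ∏ i, f i ^ (e m).1.1 i, fun m => hv _, fun t => ⟨?_, ?_⟩⟩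
  · have h2 : LinearIndependent F fun β : piAntidiag (univ : Finset (Fin (n + 1))) t =>
        ∏ i, (⟨z i, Algebra.subset_adjoin ⟨i, rfl⟩⟩ : B) ^ β.1 i.succ := by
      refine LinearIndependent.of_comp B.val.toLinearMap ?_
      have := ((MvPolynomial.basisMonomials _ F).linearIndependent.map'
        (MvPolynomial.aeval z).toLinearMap (LinearMap.ker_eq_bot.2 hz)).comp
        (fun β : piAntidiag (univ : Finset (Fin (n + 1))) t =>
          Finsupp.equivFunOnFinite.symm (Fin.tail β.1)) fun β β' h => by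
          have h := Finsupp.equivFunOnFinite.symm.injective h
          have h3 := (gp_deg β).trans (gp_deg β').symm
          rw [Fin.sum_univ_succ, Fin.sum_univ_succ, show ∑ i : Fin n, β.1 i.succ = ∑ i : Fin n,
            β'.1 i.succ from sum_congr rfl fun i _ => congrFun h i, add_left_inj] at h3
          exact Subtype.ext (funext (Fin.cases h3 (congrFun h)))
      simpa [Function.comp_def, MvPolynomial.aeval_monomial, Finsupp.prod_fintype, Fin.tail]
        using this
    have := (linearIndependent_smul h2 (hI.comp e e.injective)).map'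
      (LinearMap.mulLeft F (x 0 ^ (c + t)))
      (LinearMap.ker_eq_bot.2 (mul_right_injective₀ (pow_ne_zero _ h0)))
    refine (congrArg (fun w : _ → K => LinearIndependent F w) (funext fun q => ?_)).mpr this
    have h3 := gp_deg q.1
    rw [Fin.sum_univ_succ] at h3
    simp only [Function.comp_def, LinearMap.mulLeft_apply, Algebra.smul_def, map_prod, map_pow,
      Subalgebra.algebraMap_apply, z, v, div_pow, prod_div_distrib, prod_pow_eq_pow_sum]
    rw [Fin.prod_univ_succ, pow_add, ← congrArg (x 0 ^ ·) h3, pow_add]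
    field_simp
  · let A : K := (∏ γ, a γ : B) * x 0 ^ ∑ q, s q
    have A0 : A ≠ 0 := mul_ne_zero (by simpa [prod_eq_zero_iff] using a0) (pow_ne_zero _ h0)
    let P := span F (Set.range fun m => ∏ i, f i ^ (e m).1.1 i)
    have h2 : (U ^ c).map (LinearMap.mulLeft F A) ≤ X ^ (∑ q, s q) * P := by
      rw [hU, gp_pow, map_le_iff_le_comap, span_le]
      rintro _ ⟨γ, rfl⟩
      have h3 : A * ∏ i, f i ^ γ.1 i =
          ∑ m, (b γ m * x 0 ^ ∑ q, s q) * ∏ i, f i ^ (e m).1.1 i := by
        have := congrArg (· * (x 0 ^ c * x 0 ^ ∑ q, s q)) (hb γ)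
        simp only [sum_mul, v, Algebra.smul_def, Subalgebra.algebraMap_apply] at this
        convert this.symm using 1
        · simp only [A]
          field_simp
        · exact sum_congr rfl fun m _ => by field_simp
      rw [SetLike.mem_coe, mem_comap, LinearMap.mulLeft_apply, h3]
      refine sum_mem fun m _ => mul_mem_mul ?_ (subset_span ⟨m, rfl⟩)
      rw [← sum_erase_add _ _ (mem_univ (γ, m))]
      exact mono _ (hs (γ, m))
    have h4 : (U ^ (c + t)).map (LinearMap.mulLeft F A) ≤ span F (Set.range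
        fun q : piAntidiag (univ : Finset (Fin (n + 1))) (t + ∑ q, s q) × _ =>
          (∏ i, x i ^ q.1.1 i) * ∏ i, f i ^ (e q.2).1.1 i) := by
      refine le_trans (b := X ^ (t + ∑ q, s q) * P) ?_ ?_
      · rintro _ ⟨w, hw, rfl⟩
        rw [hc] at hw
        refine Submodule.mul_induction_on hw (fun u hu y hy => ?_)
          fun a b ha hb => map_add (LinearMap.mulLeft F A) a b ▸ add_mem ha hb
        rw [LinearMap.mulLeft_apply, ← mul_assoc, mul_comm _ y, pow_add, mul_assoc (X ^ t)]
        exact mul_mem_mul hy (h2 ⟨u, hu, rfl⟩)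
      · rw [hX, gp_pow, span_mul_span]
        refine span_mono ?_
        rintro _ ⟨_, ⟨β, rfl⟩, _, ⟨m, rfl⟩, rfl⟩
        exact ⟨(β, m), rfl⟩
    have := FiniteDimensional.span_of_finite F (Set.finite_range
      fun q : piAntidiag (univ : Finset (Fin (n + 1))) (t + ∑ q, s q) × _ =>
        (∏ i, x i ^ q.1.1 i) * ∏ i, f i ^ (e q.2).1.1 i)
    rw [(equivMapOfInjective (LinearMap.mulLeft F A) (mul_right_injective₀ A0) _).finrank_eq]
    refine (finrank_mono h4).trans ((finrank_range_le_card _).trans ?_)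
    rw [Fintype.card_prod, Fintype.card_coe, Fintype.card_fin]

end Pool.Agent.Lib.MP_651af7_nt.Fc
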