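import Mathlib

/-! Counting monomials. -/

namespace Pool.Agent.Lib.MP_651af7_nt.Fc

open Finset Filter

theorem gp_card (n t : ℕ) : (Finset.piAntidiag (Finset.univ : Finset (Fin (n + 1))) t).card =
    (t + n).choose n := by
  have h := Finset.map_sym_eq_piAntidiag (univ : Finset (Fin (n + 1))) t
  rw [← h, card_map, Finset.sym_univ, card_univ, Sym.card_sym_eq_choose, Fintype.card_fin,
    show n + 1 + t - 1 = t + n by omega, Nat.choose_symm_add]

theorem gp_sum (n t : ℕ) : ∃ E : ℕ, (n + 1) * E = t * (t + n).choose n ∧ ∀ i : Fin (n + 1),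
    ∑ β ∈ Finset.piAntidiag (Finset.univ : Finset (Fin (n + 1))) t, β i = E := by
  have h : ∀ i : Fin (n + 1), ∑ β ∈ piAntidiag (univ : Finset (Fin (n + 1))) t, β i =
      ∑ β ∈ piAntidiag (univ : Finset (Fin (n + 1))) t, β 0 := fun i => by
    have k : ∀ β ∈ piAntidiag (univ : Finset (Fin (n + 1))) t,
        β ∘ Equiv.swap i 0 ∈ piAntidiag (univ : Finset (Fin (n + 1))) t := fun β hβ => by
      rw [mem_piAntidiag] at hβ ⊢
      exact ⟨(Equiv.sum_comp (Equiv.swap i 0) β).trans hβ.1, fun _ _ => mem_univ _⟩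
    refine sum_nbij' (· ∘ Equiv.swap i 0) (· ∘ Equiv.swap i 0) k k (fun β _ => ?_) (fun β _ => ?_)
      fun β _ => ?_
    · ext j; simp
    · ext j; simp
    · simp
  refine ⟨_, ?_, h⟩
  rw [← gp_card, mul_comm t, ← smul_eq_mul (card _) t, ← sum_const,
    ← sum_congr rfl fun β hβ => (mem_piAntidiag.1 hβ).1, sum_comm, sum_congr rfl fun i _ => h i,
    sum_const, card_univ, Fintype.card_fin, smul_eq_mul]

theorem gp_step (n : ℕ) {η : ℝ} (hη : 1 < η) (s : ℕ) :
    ∀ᶠ t : ℕ in atTop, ((t + s + n).choose n : ℝ) ≤ η * (t + n).choose n := by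
  induction s generalizing η with
  | zero => exact .of_forall fun t => le_mul_of_one_le_left (by positivity) hη.le
  | succ s ih =>
    have h1 : 1 < √η := Real.lt_sqrt_of_sq_lt (by simpa using hη)
    obtain ⟨N, hN⟩ := exists_nat_ge (n / (√η - 1))
    rw [div_le_iff₀ (by linarith)] at hN
    filter_upwards [ih h1, eventually_ge_atTop N] with t h2 h3
    have h4 : ((t + (s + 1) + n).choose n : ℝ) * (t + s + 1) =
        (t + s + n).choose n * (t + s + n + 1) := by
      have := Nat.choose_mul_succ_eq (t + s + n) n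
      rw [show t + s + n + 1 - n = t + s + 1 by omega,
        show t + s + n + 1 = t + (s + 1) + n by omega] at this
      have h5 := congrArg (Nat.cast : ℕ → ℝ) this
      push_cast at h5
      linarith
    have h5 : (N : ℝ) ≤ t := Nat.cast_le.2 h3
    have h6 : (t : ℝ) + s + n + 1 ≤ √η * (t + s + 1) := by
      nlinarith [s.cast_nonneg (α := ℝ)]
    have h7 := Real.mul_self_sqrt (zero_le_one.trans hη.le)
    refine le_of_mul_le_mul_right ?_ (by positivity : (0 : ℝ) < t + s + 1)
    rw [h4]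
    calc _ ≤ (√η * (t + n).choose n) * (√η * (t + s + 1)) :=
          mul_le_mul h2 h6 (by positivity) (by positivity)
      _ = (√η * √η) * (t + n).choose n * (t + s + 1) := by ring
      _ = _ := by rw [h7]

theorem gp_num {A B : ℕ} (h : A < B) (n c s : ℕ) : ∀ᶠ t in Filter.atTop,
    A * (t + c) * (t + s + n).choose n ≤ B * t * (t + n).choose n := by
  have hA : (0 : ℝ) < 2 * A + 1 := by positivity
  have h1 : (1 : ℝ) < (2 * A + 2) / (2 * A + 1) := (one_lt_div hA).2 (by linarith)
  filter_upwards [gp_step n h1 s, eventually_ge_atTop (2 * A * c)] with t h2 h3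
  have h4 : (2 : ℝ) * A * c ≤ t := by exact_mod_cast h3
  have h5 : (A : ℝ) + 1 ≤ B := by exact_mod_cast h
  have h6 : (A : ℝ) * (t + c) * ((2 * A + 2) / (2 * A + 1)) ≤ B * t := by
    rw [← mul_div_assoc, div_le_iff₀ hA]
    calc _ = ((A : ℝ) + 1) * (2 * A * t + 2 * A * c) := by ring
      _ ≤ (B : ℝ) * (2 * A * t + t) := by gcongr
      _ = _ := by ring
  have h7 : (A : ℝ) * (t + c) * (t + s + n).choose n ≤ B * t * (t + n).choose n :=
    calc _ ≤ (A : ℝ) * (t + c) * ((2 * A + 2) / (2 * A + 1) * (t + n).choose n) := by gcongr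
      _ = (A : ℝ) * (t + c) * ((2 * A + 2) / (2 * A + 1)) * (t + n).choose n := by ring
      _ ≤ _ := by gcongr
  exact_mod_cast h7

end Pool.Agent.Lib.MP_651af7_nt.Fc
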