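import Pool.Agent.Lib.MP_651af7_nt.Fc.Defs
import Pool.Agent.Lib.MP_651af7_nt.Fc.GPb
import Pool.Agent.Lib.MP_651af7_nt.Fc.GPn

/-! Hyperplane sections in general position. -/

namespace Pool.Agent.Lib.MP_651af7_nt.Fc

open Module

variable {F K κ : Type} [Field F] [Field K] [Algebra F K] [Fintype κ]

open Submodule Finset in
theorem nev_gp (f : κ → K) (htop : IntermediateField.adjoin F (Set.range f) = ⊤) (h1 : ∃ i, f i = 1)
    {n q : ℕ} (hn : Algebra.trdeg F K = n) (hq : n < q) (g : Fin q → K)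
    (hg : ∀ j, g j ∈ Submodule.span F (Set.range f)) (hp : ∏ j, g j = 1)
    (hG : ∀ O e, Pole F f O e → {j | g j / f e ∈ O.nonunits}.ncard ≤ n) {a b : ℕ}
    (hab : (n + 1) * a < q * b) : Nev F f a b := by
  classical
  obtain ⟨i₀, h1⟩ := h1
  have : Nonempty κ := ⟨i₀⟩
  have g0 : ∀ j, g j ≠ 0 := fun j => prod_ne_zero_iff.1 (hp ▸ one_ne_zero) j (mem_univ j)
  have hO : ∀ (O : ValuationSubring K) e, (∀ c : F, algebraMap F K c ∈ O) → (∀ i, f i / f e ∈ O) →
      ∀ t, ∀ y ∈ span F (Set.range f) ^ t, y / f e ^ t ∈ O := fun O e h h' t y hy =>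
    gp_div O.toSubring h h' hy
  have hu : ∀ (O : ValuationSubring K) e j, g j / f e ∉ O.nonunits → f e / g j ∈ O :=
    fun O e j h => by
      by_contra h'
      exact h (O.mem_nonunits_iff_or.2 (.inr (by rwa [inv_div])))
  choose c hc using fun I : Fin (n + 1) ↪ Fin q => gp_red f (fun i => g (I i)) (fun i => g0 _)
    (fun i => hg _) fun O e h e0 hi => by
      by_cases he : f e ∈ O
      · refine ⟨0, ?_⟩
        rw [div_eq_mul_inv,
          ← eq_inv_of_mul_eq_one_left ((prod_erase_mul _ _ (mem_univ _)).trans hp)]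
        refine mul_mem he (prod_mem fun j _ => ?_)
        simpa [e0] using mul_mem (hO O e h hi 1 _ (by simpa using hg j)) he
      · by_contra h2
        have := (Set.ncard_le_ncard (s := Set.range I) (by
          rintro _ ⟨i, rfl⟩
          by_contra h3
          exact h2 ⟨i, hu O e _ h3⟩)).trans (hG O e ⟨h, he, hi⟩)
        simp [Set.ncard_range_of_injective I.injective] at this
  choose Δ s p hp1 hp2 using fun I : Fin (n + 1) ↪ Fin q =>
    gp_free f htop h1 hn (fun i => g (I i)) (g0 _) (hc I)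
  obtain ⟨d, d0, hd⟩ := ((Filter.eventually_gt_atTop 0).and (Filter.eventually_all.2
    fun I : Fin (n + 1) ↪ Fin q => show ∀ᶠ d in Filter.atTop, ∃ t, d = c I + t ∧
      (n + 1) * a * (t + c I) * (t + s I + n).choose n ≤ q * b * t * (t + n).choose n from by
      obtain ⟨T, hT⟩ := Filter.eventually_atTop.1 (gp_num hab n (c I) (s I))
      exact Filter.eventually_atTop.2 ⟨c I + T, fun d h =>
        ⟨d - c I, by omega, hT _ (by omega)⟩⟩)).exists
  have := FiniteDimensional.span_of_finite F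
    (Set.finite_range fun α : piAntidiag (univ : Finset κ) d => ∏ i, f i ^ α.1 i)
  obtain ⟨T, f1, f2, f3⟩ := exists_fun_fin_finrank_span_eq F
    (Set.range fun α : piAntidiag (univ : Finset κ) d => ∏ i, f i ^ α.1 i)
  choose α hα using f1
  obtain rfl := funext hα
  replace f2 := f2.trans (gp_pow f d).symm
  have h2 := congrArg (fun V : Submodule F K => finrank F V) (gp_pow f d)
  beta_reduce at f2 f3 h2
  generalize finrank F (span F (Set.range fun α : piAntidiag (univ : Finset κ) d =>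
    ∏ i, f i ^ α.1 i)) = r at *
  refine ⟨d, r, fun m => (α m).1, d0, Nat.pos_of_ne_zero fun h => ?_, fun m => gp_deg _, f3,
    fun O e h => ?_⟩
  · subst h
    simpa [← f2, h1] using pow_mem_pow _ (subset_span ⟨i₀, rfl⟩ : f i₀ ∈ span F (Set.range f)) d
  obtain ⟨J, j1, -, j2⟩ := exists_subsuperset_card_eq (n := n + 1)
    (subset_univ (univ.filter fun j => g j / f e ∈ O.nonunits))
    (by simpa [← Set.ncard_coe_finset] using (hG O e h).trans n.le_succ) (by simpa using hq)
  obtain ⟨hF, he, hi⟩ := h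
  have e0 : f e ≠ 0 := fun h => he (h ▸ O.zero_mem)
  let I := (J.orderEmbOfFin j2).toEmbedding
  obtain ⟨t, rfl, ht⟩ := hd I
  obtain ⟨G, G0, y, hy, hG⟩ := gp_ext _ (hp2 I t).1 (fun q => by
    rw [f2, hc, mul_comm (∏ i, _), gp_pow fun i => g (I i)]
    exact mul_mem_mul (hp1 I _) (subset_span ⟨q.1, rfl⟩))
    O (f e ^ (c I + t)) (f2 ▸ hO O e hF hi _)
  obtain ⟨E, E1, E2⟩ := gp_sum n t
  have h3 : ∏ i, g (I i) / f e = (f e)⁻¹ ^ q * ∏ j ∈ Jᶜ, f e / g j := by
    have h4 := prod_mul_prod_compl J fun j => g j / f e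
    rw [prod_div_distrib (s := univ), hp, prod_const, card_fin, one_div, ← inv_pow] at h4
    rw [← h4, mul_assoc, ← prod_mul_distrib, prod_eq_one (s := Jᶜ) fun j _ => by
      rw [div_mul_div_cancel₀ e0, div_self (g0 j)], mul_one, ← J.map_orderEmbOfFin_univ j2,
      prod_map]
  have h5 : ∏ q : piAntidiag (univ : Finset (Fin (n + 1))) t × Fin (Δ I),
      (∏ i, g (I i) ^ q.1.1 i) * p I q.2 / f e ^ (c I + t) = (∏ i, g (I i) / f e) ^ (E * Δ I) *
        ∏ q : piAntidiag (univ : Finset (Fin (n + 1))) t × Fin (Δ I), p I q.2 / f e ^ c I := by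
    have h6 : ∀ β : piAntidiag (univ : Finset (Fin (n + 1))) t,
        (∏ i, g (I i) ^ β.1 i) / f e ^ t = ∏ i, (g (I i) / f e) ^ β.1 i := fun β => by
      simp only [div_pow, prod_div_distrib, prod_pow_eq_pow_sum, gp_deg]
    simp only [add_comm (c I), pow_add, mul_div_mul_comm, prod_mul_distrib, h6]
    rw [Fintype.prod_prod_type, pow_mul, ← prod_pow, ← prod_congr rfl fun i _ =>
      congrArg ((g (I i) / f e) ^ ·) (E2 i)]
    simp only [prod_const, card_fin, prod_pow, ← prod_pow_eq_pow_sum]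
    rw [prod_coe_sort _ fun β : _ → ℕ => ∏ i, (g (I i) / f e) ^ β i, prod_comm]
  have h7 := (hp2 I t).2
  rw [h2, gp_card] at h7
  obtain ⟨k, hk⟩ := Nat.exists_eq_add_of_le (show a * r * (c I + t) ≤ q * (E * Δ I) * b from
    Nat.le_of_mul_le_mul_left (c := n + 1) (by
      calc _ = (n + 1) * a * (t + c I) * r := by ring
        _ ≤ (n + 1) * a * (t + c I) * (t + s I + n).choose n * Δ I := by
          rw [mul_assoc _ _ (Δ I)]
          exact Nat.mul_le_mul_left _ h7
        _ ≤ q * b * (t * (t + n).choose n) * Δ I := mul_assoc _ t _ ▸ Nat.mul_le_mul_right _ ht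
        _ = _ := by rw [← E1]; ring) n.succ_pos)
  refine ⟨G, G0, ?_⟩
  rw [hG, h5, h3, mul_pow ((f e)⁻¹ ^ q), mul_assoc ((_ ^ q) ^ _), mul_assoc ((_ ^ q) ^ _),
    mul_pow ((_ ^ q) ^ _), ← pow_mul _ q, ← pow_mul _ _ b, hk, pow_add (f e)⁻¹, mul_right_comm,
    mul_right_comm _ (_ ^ k), ← mul_pow, inv_mul_cancel₀ e0, one_pow, one_mul]
  exact mul_mem (pow_mem ((O.mem_or_inv_mem _).resolve_left he) _) (pow_mem (mul_mem (mul_mem
    (pow_mem (prod_mem fun j hj => hu O e j fun h => mem_compl.1 hj (j1 (by simpa using h))) _)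
    (prod_mem fun q _ => hO O e hF hi _ _ (hp1 I _))) hy) _)

end Pool.Agent.Lib.MP_651af7_nt.Fc
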