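import Pool.Agent.Lib.MP_651af7_nt.Fc.FG

/-! Powers of a finite dimensional space of functions and finite projections. -/

namespace Pool.Agent.Lib.MP_651af7_nt.Fc

open Module Submodule Finset

variable {F K κ ι : Type} [Field F] [Field K] [Algebra F K] [Fintype κ] [Fintype ι]

theorem gp_mon {U : Submodule F K} {x : ι → K} (h : ∀ i, x i ∈ U) (α : ι → ℕ) :
    ∏ i, x i ^ α i ∈ U ^ ∑ i, α i := by
  simpa using SetLike.prod_pow_mem_graded (fun i : ℕ => U ^ i) (F := univ) (fun _ => 1) x α
    fun i _ => by simpa using h i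

theorem gp_add [DecidableEq ι] (x : ι → K) (α : ι → ℕ) (i : ι) (j : ℕ) :
    ∏ k, x k ^ (Pi.single i j + α : ι → ℕ) k = x i ^ j * ∏ k, x k ^ α k := by
  simp only [Pi.add_apply, pow_add, prod_mul_distrib, Pi.single_apply, pow_ite]
  simp

theorem gp_deg [DecidableEq ι] {d : ℕ} (α : piAntidiag (univ : Finset ι) d) : ∑ i, α.1 i = d :=
  (mem_piAntidiag.1 α.2).1

theorem gp_pow [DecidableEq ι] (x : ι → K) (d : ℕ) : span F (Set.range x) ^ d =
    span F (Set.range fun α : piAntidiag (univ : Finset ι) d => ∏ i, x i ^ α.1 i) := by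
  refine le_antisymm ?_ (span_le.2 ?_)
  · induction d with
    | zero => exact one_le.2 (subset_span ⟨⟨0, by simp⟩, by simp⟩)
    | succ d ih =>
      rw [pow_succ]
      refine (mul_le_mul_left ih _).trans ?_
      rw [span_mul_span]
      refine span_mono ?_
      rintro _ ⟨_, ⟨α, rfl⟩, _, ⟨i, rfl⟩, rfl⟩
      exact ⟨⟨Pi.single i 1 + α.1, by simp [sum_add_distrib, gp_deg, add_comm]⟩,
        by simp only [gp_add, pow_one, mul_comm]⟩
  · rintro _ ⟨α, rfl⟩
    have := gp_mon (U := span F (Set.range x)) (fun i => subset_span ⟨i, rfl⟩) α.1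
    rwa [gp_deg] at this

theorem gp_div (S : Subring K) (hS : ∀ c : F, algebraMap F K c ∈ S) {x : ι → K} {φ : K}
    (h : ∀ i, x i / φ ∈ S) {t : ℕ} {y : K} (hy : y ∈ span F (Set.range x) ^ t) :
    y / φ ^ t ∈ S := by
  classical
  rw [gp_pow] at hy
  obtain ⟨c, rfl⟩ := (mem_span_range_iff_exists_fun F).1 hy
  rw [sum_div]
  refine sum_mem fun α _ => ?_
  rw [Algebra.smul_def, mul_div_assoc, ← congrArg (φ ^ ·) (gp_deg α),
    ← prod_pow_eq_pow_sum, ← prod_div_distrib]
  exact mul_mem (hS _) (prod_mem fun i _ => div_pow (x i) _ _ ▸ pow_mem (h i) _)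

omit [Fintype ι] in
/-- Forms without common zero generate the section module from some degree on. -/
theorem gp_red (f : κ → K) [Nonempty κ] (x : ι → K) (hx : ∀ i, x i ≠ 0)
    (hU : ∀ i, x i ∈ span F (Set.range f))
    (H : ∀ (O : ValuationSubring K) e, (∀ c : F, algebraMap F K c ∈ O) → f e ≠ 0 →
      (∀ i, f i / f e ∈ O) → ∃ i, f e / x i ∈ O) :
    ∃ c, ∀ t, span F (Set.range f) ^ (c + t) =
      span F (Set.range f) ^ c * span F (Set.range x) ^ t := by
  classical
  set U := span F (Set.range f) with hU'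
  set X := span F (Set.range x)
  have hX : X ≤ U := span_le.2 (Set.range_subset_iff.2 hU)
  have hf : ∀ k, f k ∈ U := fun k => subset_span ⟨k, rfl⟩
  have h1 : ∀ k, ∃ M, f k ^ (M + 1) ∈ U ^ M * X := fun k => by
    by_cases h0 : f k = 0
    · exact ⟨0, by simp [h0]⟩
    have mono : ∀ {t M} j, t * f k ^ (M + 1) ∈ U ^ M * X →
        t * f k ^ (j + M + 1) ∈ U ^ (j + M) * X := fun j h => by
      rw [add_assoc, pow_add (f k), mul_left_comm, pow_add U, mul_assoc (U ^ j)]
      exact mul_mem_mul (pow_mem_pow U (hf k) j) h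
    have key : ∀ t ∈ NonUnitalAlgebra.adjoin F (Set.range fun i => x i / f k),
        ∃ M, t * f k ^ (M + 1) ∈ U ^ M * X := fun t ht => by
      induction ht using NonUnitalAlgebra.adjoin_induction with
      | mem t ht =>
        obtain ⟨i, rfl⟩ := ht
        exact ⟨0, by simpa [h0] using (subset_span ⟨i, rfl⟩ : x i ∈ X)⟩
      | zero => exact ⟨0, by simp⟩
      | add a b _ _ ha hb =>
        obtain ⟨M, ha⟩ := ha
        obtain ⟨N, hb⟩ := hb
        exact ⟨N + M, add_mul a b _ ▸ add_mem (mono N ha) (add_comm M N ▸ mono M hb)⟩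
      | mul a b _ _ ha hb =>
        obtain ⟨M, ha⟩ := ha
        obtain ⟨N, hb⟩ := hb
        refine ⟨M + 1 + N, ?_⟩
        rw [add_assoc (M + 1), pow_add (f k), mul_mul_mul_comm, pow_add U, mul_assoc (U ^ _),
          pow_succ U]
        exact mul_mem_mul (mul_le_mul_right hX _ ha) hb
      | smul c a _ ha => exact ha.imp fun M h => smul_mul_assoc c a _ ▸ smul_mem _ c h
    simpa using key 1 (one_mem fun O hO => by
      obtain ⟨e, he⟩ := Finite.exists_max fun i => O.valuation (f i)
      have e0 : f e ≠ 0 := fun h => h0 (by simpa [h] using he k)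
      have hi : ∀ i, f i / f e ∈ O := fun i => (O.valuation_le_one_iff _).1 (by
        rw [map_div₀]
        exact div_le_one_of_le₀ (he i) zero_le)
      obtain ⟨i, h⟩ := H O e hO e0 hi
      refine ⟨_, ⟨i, rfl⟩, fun h' => (O.mem_nonunits_iff_or.1 h').elim
        (div_ne_zero (hx i) h0) fun h2 => h2 ?_⟩
      rw [inv_div, ← div_mul_div_cancel₀ e0]
      exact mul_mem (hi k) h)
  choose M hM using h1
  have h2 : U ^ (∑ k, M k + 1) ≤ U ^ (∑ k, M k) * X := by
    rw [hU', gp_pow, span_le]
    rintro _ ⟨⟨α, hα⟩, rfl⟩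
    have hα : ∑ k, α k = ∑ k, M k + 1 := by simpa using hα
    obtain ⟨k, -, hk⟩ := exists_lt_of_sum_lt (s := univ) (f := M) (g := α) (by omega)
    obtain ⟨β, rfl⟩ := exists_add_of_le (show Pi.single k (M k + 1) ≤ α from
      update_le_iff.2 ⟨hk, fun _ _ => Nat.zero_le _⟩)
    have h3 : ∑ k, M k = ∑ k, β k + M k := by
      simp [sum_add_distrib] at hα
      omega
    have := mul_mem_mul (gp_mon hf β) (hM k)
    rwa [← mul_assoc, ← pow_add U, ← h3, mul_comm _ (f k ^ _), ← gp_add] at this
  refine ⟨∑ k, M k, fun t => ?_⟩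
  induction t with
  | zero => simp
  | succ t ih =>
    rw [← add_assoc, pow_succ U, ih, mul_right_comm, ← pow_succ U, pow_succ' X, ← mul_assoc,
      h2.antisymm ((mul_le_mul_right hX _).trans (pow_succ U _).ge)]

theorem gp_ext {r : ℕ} {σ : Type} [Fintype σ] (T : Fin r → K) {w : σ → K}
    (hw : LinearIndependent F w) (h : ∀ q, w q ∈ span F (Set.range T)) (O : ValuationSubring K)
    (φ : K) (hO : ∀ y ∈ span F (Set.range T), y / φ ∈ O) :
    ∃ G : Matrix (Fin r) (Fin r) F, G.det ≠ 0 ∧
      ∃ y ∈ O, ∏ l, (∑ m, G l m • T m) / φ = (∏ q, w q / φ) * y := by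
  classical
  choose c hc using fun q => (mem_span_range_iff_exists_fun F).1 (h q)
  have h1 : LinearIndependent F c := LinearIndependent.of_comp (Fintype.linearCombination F T)
    (by simpa [Function.comp_def, Fintype.linearCombination_apply, hc] using hw)
  have h2 := h1.linearIndepOn_id
  have h3 := h2.linearIndepOn_extend (Set.subset_univ _)
  obtain ⟨b, hb⟩ := (LinearIndependent.set_finite_of_isNoetherian h3).exists_finset_coe
  have h4 := h2.subset_extend (Set.subset_univ _)
  have h5 := h2.span_extend_eq_span (Set.subset_univ _)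
  rw [← hb] at h3 h4 h5
  have hr : b.card = r := by
    rw [← finrank_span_finset_eq_card h3, h5, span_univ, finrank_top, finrank_fin_fun]
  let e := (equivFinOfCardEq hr).symm
  refine ⟨Matrix.of fun a => (e a).1, ((Matrix.isUnit_iff_isUnit_det _).1
    (Matrix.linearIndependent_rows_iff_isUnit.1 (h3.comp e e.injective))).ne_zero,
    ∏ x ∈ b \ univ.image c, (∑ m, x m • T m) / φ, prod_mem fun x _ =>
      hO _ (sum_mem fun m _ => smul_mem _ _ (subset_span ⟨m, rfl⟩)), ?_⟩
  simp only [Matrix.of_apply]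
  rw [e.prod_comp fun x => (∑ m, x.1 m • T m) / φ,
    prod_coe_sort b fun x => (∑ m, x m • T m) / φ, ← prod_sdiff (s₁ := univ.image c)
      (coe_subset.1 (by simpa using h4)), prod_image h1.injective.injOn, mul_comm]
  simp only [hc]

end Pool.Agent.Lib.MP_651af7_nt.Fc
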