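import Pool.Agent.Lib.MP_651af7_nt.Fc.Ev
import Pool.Agent.Lib.MP_651af7_nt.Fc.RDefs

/-! The local inequality. -/

namespace Pool.Agent.Lib.MP_651af7_nt.Fc

open MvPolynomial Finset Height NumberField Filter Real Module
open IntermediateField (adjoin)
open Rt (Pl av mu)
open Es (vol)
open Ex (lx)

variable {k K ι β : Type} [Field k] [NumberField k] [Field K] [Algebra k K] [Fintype ι]
  {𝓕 : Filter β} {v : β → K → k} {J : Ideal (MvPolynomial ι k)}
  {y : ι → K} {c c' : β → AbsoluteValue k ℝ → Prop} {g g' : β → AbsoluteValue k ℝ → ℝ} {a : K}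

theorem Sm.le (ha : Sm 𝓕 v y c g a) (h : ∀ p w, c' p w → c p w ∧ g p w ≤ g' p w) :
    Sm 𝓕 v y c' g' a :=
  Ev.mono ha (.of_forall fun p w _ _ h1 hc => (h1 (h p w hc).1).trans
    (mul_le_mul_of_nonneg_left (h p w hc).2 (exp_pos _).le))

theorem pick (h : Sp 𝓕 v) {R : Type} [CommRing R] [Algebra R K]
    (hR : ∀ a : R, Sm 𝓕 v y c 1 (algebraMap R K a)) {Λ : Type} [Finite Λ] (z : Λ → K)
    (H : (1 : K) ∈ NonUnitalAlgebra.adjoin R (insert 0 (Set.range fun O => (z O)⁻¹))) :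
    Ev 𝓕 (fun p => logHeight fun i => v p (y i)) fun p w E =>
      c p w → ∃ O, w (v p (z O)) ≤ exp E := by
  let Z : Option Λ → K := fun o => o.elim 0 fun O => (z O)⁻¹
  have h1 : Sm 𝓕 v y (fun p w => c p w ∧ ∀ o, w (v p (Z o)) ≤ 1)
      (fun p w => ⨆ o, w (v p (Z o))) 1 := by
    generalize (1 : K) = a at H ⊢
    induction H using NonUnitalAlgebra.adjoin_induction with
    | mem x hx =>
      obtain ⟨o, rfl⟩ : x ∈ Set.range Z := by rwa [Option.range_eq]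
      exact sm_of_le (.of_forall fun p w _ => Finite.le_ciSup (fun o => w (v p (Z o))) o)
    | zero => exact sm_of_le (h.zero.mono fun p hp w _ => by
        rw [hp, map_zero]
        exact iSup_nonneg fun _ => w.nonneg _)
    | add x y _ _ hx hy => exact hx.add h hy
    | mul x y _ _ hx hy => exact (hx.mul h hy).le fun p w hc => ⟨hc, mul_le_of_le_one_left
        (iSup_nonneg fun _ => w.nonneg _) (ciSup_le hc.2)⟩
    | smul r x _ hx =>
      rw [Algebra.smul_def]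
      exact ((hR r).le fun p w hc => ⟨hc.1, le_rfl⟩).mul h hx |>.le fun p w hc =>
        ⟨hc, (one_mul _).le⟩
  refine Ev.mono h1 ?_
  filter_upwards [h.one, h.zero, eventually_all.2 fun O => h.inv (z O)]
    with p e1 e2 e3 w E hE h2 hc
  by_contra h3
  push Not at h3
  have h4 : ∀ o, w (v p (Z o)) < (exp E)⁻¹ := by
    rintro (_ | O)
    · exact e2 ▸ (map_zero w).trans_lt (inv_pos.2 (exp_pos E))
    · exact e3 O ▸ (map_inv₀ w _).trans_lt (inv_strictAnti₀ (exp_pos E) (h3 O))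
  have h5 := h2 ⟨hc, fun o => (h4 o).le.trans (inv_le_one_of_one_le₀ (one_le_exp hE))⟩
  obtain ⟨o, ho⟩ := exists_eq_ciSup_of_finite (f := fun o => w (v p (Z o)))
  rw [e1, map_one, ← ho, ← inv_mul_le_iff₀ (exp_pos E), mul_one] at h5
  exact (h4 o).not_ge h5

theorem sm_div (h : Sp 𝓕 v) {a b : K} (hc : ∀ p w, c p w → w (v p a) ≤ w (v p b)) :
    Sm 𝓕 v y c 1 (a / b) := by
  refine sm_of_le ?_
  filter_upwards [h.mul a b⁻¹, h.inv b] with p e1 e2 w h1
  rw [div_eq_mul_inv, e1, e2, map_mul, map_inv₀]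
  exact mul_inv_le_one_of_le₀ (hc p w h1) (w.nonneg _)

theorem Dat.loc (D : Dat J y) (h : Sp 𝓕 v) {κ : Type} [Fintype κ] {f : κ → K} (hf : f ≠ 0)
    {q s : ℕ} {u : Fin q → Fin s → K} (hu : ∀ j, u j ≠ 0) {r d b : ℕ} {δ A : Fin q → ℕ}
    {T : Fin r → K} (hT : LinearIndependent (adjoin k (Set.range y)) T)
    (hO : ∀ (O : ValuationSubring K) (e : κ) (c : Fin q → Fin s),
      (∀ z : adjoin k (Set.range y), (z : K) ∈ O) → Max O f e → (∀ j, Max O (u j) (c j)) →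
      ∃ G : Matrix (Fin r) (Fin r) (adjoin k (Set.range y)), G.det ≠ 0 ∧
        (∏ l, (∑ m, G l m • T m) / f e ^ d) ^ b * ∏ j, (f e ^ δ j / u j (c j)) ^ A j ∈ O) :
    ∃ (τ : Type) (_ : Fintype τ) (G : τ → Matrix (Fin r) (Fin r) (adjoin k (Set.range y))),
      (∀ t, (G t).det ≠ 0) ∧ Ev 𝓕 (fun p => logHeight fun i => v p (y i)) fun p w E => ∃ t,
        ∑ j, A j * log ((⨆ i, w (v p (f i))) ^ δ j / ⨆ l, w (v p (u j l))) ≤
          b * ∑ l, lx w (fun m => v p (T m)) (v p (∑ m, G t l m • T m)) +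
            b * r * (d * log (⨆ i, w (v p (f i))) - log (⨆ m, w (v p (T m)))) + E := by
  classical
  let I := {x : κ × (Fin q → Fin s) // f x.1 ≠ 0 ∧ ∀ j, u j (x.2 j) ≠ 0}
  let R : I → Subalgebra (adjoin k (Set.range y)) K := fun x => Algebra.adjoin _
    ((Set.range fun i => f i / f x.1.1) ∪
      Set.range fun l : Fin q × Fin s => u l.1 l.2 / u l.1 (x.1.2 l.1))
  let z : I → Matrix (Fin r) (Fin r) (adjoin k (Set.range y)) → K := fun x G =>
    (∏ l, (∑ m, G l m • T m) / f x.1.1 ^ d) ^ b * ∏ j, (f x.1.1 ^ δ j / u j (x.1.2 j)) ^ A j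
  have h2 : ∀ (x : I) (O : ValuationSubring K), ∃ G, G.det ≠ 0 ∧
      ((∀ a : R x, (a : K) ∈ O) → z x G ∈ O) := fun x O => by
    by_cases hP : ∀ a : R x, (a : K) ∈ O
    · exact (hO O x.1.1 x.1.2 (fun a => hP (algebraMap _ (R x) a))
        ⟨x.2.1, fun i => hP ⟨_, Algebra.subset_adjoin (.inl ⟨i, rfl⟩)⟩⟩ fun j =>
        ⟨x.2.2 j, fun l => hP ⟨_, Algebra.subset_adjoin (.inr ⟨(j, l), rfl⟩)⟩⟩).imp
          fun G H => ⟨H.1, fun _ => H.2⟩
    · exact ⟨1, by simp, fun h => (hP h).elim⟩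
  choose G g1 g2 using h2
  have s0 : ∀ x O l, ∑ m, G x O l m • T m ≠ 0 := fun x O l e' => g1 x O
    (Matrix.det_eq_zero_of_row_eq_zero l (Fintype.linearIndependent_iff.1 hT _ e'))
  have h3 : ∀ x : I, ∃ Λ : Finset (ValuationSubring K), Ev 𝓕
      (fun p => logHeight fun i => v p (y i)) fun p w E =>
        ((∀ i, w (v p (f i)) ≤ w (v p (f x.1.1))) ∧
          ∀ j l, w (v p (u j l)) ≤ w (v p (u j (x.1.2 j)))) →
        ∃ O : Λ, w (v p (z x (G x O))) ≤ exp E := fun x => by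
    obtain ⟨Λ, hΛ⟩ := cpt (R := R x) 0 (fun O (_ : Unit) => z x (G x O))
      (fun O _ => mul_ne_zero (pow_ne_zero _ (prod_ne_zero_iff.2 fun l _ =>
        div_ne_zero (s0 _ _ _) (pow_ne_zero _ x.2.1))) (prod_ne_zero_iff.2 fun j _ =>
          pow_ne_zero _ (div_ne_zero (pow_ne_zero _ x.2.1) (x.2.2 j)))) fun O o1 _ _ => g2 x O o1
    refine ⟨Λ, pick h (R := R x) (fun a => D.sm_adjoin h ?_ a.2) _ (hΛ fun _ => ())⟩
    rintro _ (⟨i, rfl⟩ | ⟨l, rfl⟩)
    · exact sm_div h fun p w hc => hc.1 i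
    · exact sm_div h fun p w hc => hc.2 _ _
  choose Λ h3 using h3
  refine ⟨Σ x, Λ x, inferInstance, fun t => G t.1 t.2, fun t => g1 _ _, ?_⟩
  refine (ev_all (fun _ => logHeight_nonneg _) h3).mono ?_
  have h4 : ∀ t : Σ x, Λ x, ∀ᶠ p in 𝓕, (∀ l, v p (∑ m, G t.1 t.2 l m • T m) ≠ 0) ∧
      v p (z t.1 (G t.1 t.2)) = (∏ l, v p (∑ m, G t.1 t.2 l m • T m) / v p (f t.1.1.1) ^ d) ^ b *
        ∏ j, (v p (f t.1.1.1) ^ δ j / v p (u j (t.1.1.2 j))) ^ A j := by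
    intro ⟨x, O⟩
    filter_upwards [eventually_all.2 fun l => h.ne (s0 x O l), h.inv (f x.1.1),
      eventually_all.2 fun j => h.inv (u j (x.1.2 j)),
      h.aeval (Sum.elim (Sum.elim (fun l => ∑ m, G x O l m • T m) fun j => (u j (x.1.2 j))⁻¹)
        ![f x.1.1, (f x.1.1)⁻¹]) ((∏ l, X (.inl (.inl l)) * X (.inr 1) ^ d) ^ b *
          ∏ j, (X (.inr 0) ^ δ j * X (.inl (.inr j))) ^ A j)] with p e1 e2 e3 e4
    exact ⟨e1, by simpa [e2, e3, z, div_eq_mul_inv] using e4⟩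
  obtain ⟨o, ho⟩ := Function.ne_iff.1 hf
  choose o' ho' using fun j => Function.ne_iff.1 (hu j)
  filter_upwards [h.zero, h.ne ho, eventually_all.2 fun j => h.ne (ho' j), eventually_all.2 h4,
    eventually_all.2 fun l => h.ne (hT.ne_zero l)] with p e0 e1 e2 e3 e4 w E _ h5
  have key : ∀ {σ : Type} [Finite σ] (g : σ → K) (o : σ), v p (g o) ≠ 0 → ∃ e, g e ≠ 0 ∧
      0 < w (v p (g e)) ∧ ⨆ i, w (v p (g i)) = w (v p (g e)) ∧
      ∀ i, w (v p (g i)) ≤ w (v p (g e)) := fun {σ} _ g o h0 => by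
    have : Nonempty σ := ⟨o⟩
    obtain ⟨e, he⟩ := exists_eq_ciSup_of_finite (f := fun i => w (v p (g i)))
    have h7 : ∀ i, w (v p (g i)) ≤ w (v p (g e)) := fun i =>
      he ▸ Finite.le_ciSup (fun i => w (v p (g i))) i
    have h8 := (w.pos h0).trans_le (h7 o)
    exact ⟨e, fun e' => by simp [e', e0] at h8, h8, he.symm, h7⟩
  obtain ⟨e, a1, a2, a3, a4⟩ := key f o e1
  choose c c1 c2 c3 c4 using fun j => key (u j) (o' j) (e2 j)
  obtain ⟨O, b1⟩ := h5 ⟨(e, c), a1, c1⟩ ⟨a4, c4⟩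
  refine ⟨⟨_, O⟩, ?_⟩
  have b3 := fun l => w.pos ((e3 ⟨_, O⟩).1 l)
  have b4 := fun l => div_pos (b3 l) (pow_pos a2 d)
  have b5 := fun j => div_pos (pow_pos a2 (δ j)) (c2 j)
  have b6 := pow_pos (prod_pos fun l (_ : l ∈ univ) => b4 l) b
  have b7 := prod_pos fun j (_ : j ∈ univ) => pow_pos (b5 j) (A j)
  have b8 : ∀ l, lx w (fun m => v p (T m)) (v p (∑ m, G _ O l m • T m)) =
      log (⨆ m, w (v p (T m))) - log (w (v p (∑ m, G _ O l m • T m))) := fun l => log_div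
    ((w.pos (e4 l)).trans_le (Finite.le_ciSup (fun m => w (v p (T m))) l)).ne' (b3 l).ne'
  simp only [(e3 ⟨_, O⟩).2, map_div₀, map_mul, map_pow, map_prod] at b1
  have b9 := log_le_log (mul_pos b6 b7) b1
  rw [log_mul b6.ne' b7.ne', log_pow, log_exp, log_prod fun l _ => (b4 l).ne',
    log_prod fun j _ => (pow_pos (b5 j) _).ne'] at b9
  simp only [log_div (b3 _).ne' (pow_pos a2 _).ne', log_pow] at b9
  simp only [a3, c3, b8]
  simp only [sum_sub_distrib, sum_const, card_univ, Fintype.card_fin, nsmul_eq_mul] at b9 ⊢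
  linarith

end Pool.Agent.Lib.MP_651af7_nt.Fc
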