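import Pool.Agent.Lib.MP_651af7_nt.Fc.Eng
import Pool.Agent.Lib.MP_651af7_nt.Db.Main

/-! The inequality over a general abelian variety. -/

namespace Pool.Agent.Lib.MP_651af7_nt.Fc

open MvPolynomial Finset Height NumberField Matrix Filter Av As Bx Ds Db Module
open Rt (Pl av mu)
open Es (vol)
open Ex (lx)

variable {k ι β : Type} [Field k] [Fintype ι]

/-- The points `x b` lie on the variety of `I` and leave every hypersurface section. -/
structure Gn (𝓕 : Filter β) (I : Ideal (MvPolynomial ι k)) (x : β → ι → k) : Prop where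
  ne : ∀ᶠ b in 𝓕, x b ≠ 0
  zero : ∀ᶠ b in 𝓕, ∀ P ∈ I, eval (x b) P = 0
  gen : ∀ (P : MvPolynomial ι k) (d : ℕ), P.IsHomogeneous d → P ∉ I → ∀ᶠ b in 𝓕, eval (x b) P ≠ 0

variable [NumberField k]

/-- The inequality along `𝓕`. -/
def SB {r : ℕ} (𝓕 : Filter β) (x : β → ι → k) (t : β → Fin r → k) : Prop :=
  ∀ (T : Type) [Fintype T] (e : ℕ) (G : T → Matrix (Fin r) (Fin r) (MvPolynomial ι k)),
    (∀ τ i j, (G τ i j).IsHomogeneous e) → ∀ ε : ℝ, 0 < ε →
    ∃ W ∈ 𝓕, ∀ S : Finset (FinitePlace k), ∃ C : ℝ, ∀ b ∈ W, ∀ c : Pl S → T,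
      (∀ p, ((G (c p)).map (eval (x b))).det ≠ 0) →
      (∀ p l, ((G (c p)).map (eval (x b)) *ᵥ t b) l ≠ 0) →
      vol (fun p l => lamB (av p) e 0 (x b) (t b) (((G (c p)).map (eval (x b)) *ᵥ t b) l)) ≤
        r * logHeight (t b) + ε * (logHeight (x b) + logHeight (t b)) + C

omit [NumberField k] in
theorem lamB_eq {n : ℕ} (v : AbsoluteValue k ℝ) (e : ℕ) {x : ι → k} (hx : x ≠ 0) {Y : Fin n → k}
    (hY : Y ≠ 0) {l c : k} (hl : l ≠ 0) (hc : c ≠ 0) :
    lamB v e 0 x Y l = lx v Y (c ^ e * l) + e * Real.log (⨆ a, v (c * x a)) := by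
  have h2 := sup_pos v hx
  have h3 := sup_pos v hY
  have h4 := v.pos hc
  have h5 := v.pos hl
  rw [lamB, lx, iSup_mul_left, map_mul, map_pow, pow_zero, one_mul]
  simp (disch := positivity) only [Real.log_div, Real.log_mul, Real.log_pow]
  ring

theorem sb_birat {κ : Type} [Fintype κ] (A : AV k κ) {I : Ideal (MvPolynomial ι k)}
    (hb : Birat I A.I) {r : ℕ} {𝓕 : Filter β} {x : β → ι → k}
    {t : β → Fin r → k} (hg : Gn 𝓕 I x) (hi : HI 𝓕 x t) : SB 𝓕 x t := by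
  classical
  intro T _ e G hG ε hε
  obtain ⟨φ, ψ, h, h'⟩ := hb
  obtain ⟨a, ha⟩ := h.hom
  obtain ⟨d, hd⟩ := h'.hom
  obtain ⟨i, hi0⟩ := h.ne
  have hX : (X A.ao : MvPolynomial κ k) ∉ A.I := fun hx => by
    have := (A.rep_zero (R := k)).zero _ hx
    rw [aeval_X, A.o_ao, map_one] at this
    exact one_ne_zero this
  have hφ := h'.pull A.tr_prime (isHomogeneous_X k A.ao) hX
  rw [aeval_X] at hφ
  obtain ⟨y, hy⟩ : ∃ y : β → κ → k,
      y = fun b j => (eval (x b) (φ A.ao))⁻¹ * eval (x b) (φ j) := ⟨_, rfl⟩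
  have hi' : HI 𝓕 y t := fun α U j hj w hw => hi α U j hj w fun l => cl_le (by
    rintro _ ⟨c, rfl⟩
    have e1 : gv U (fun m => y (j m)) c = aeval (gv U fun m => x (j m)) (φ c) /
        aeval (gv U fun m => x (j m)) (φ A.ao) := by
      rw [aeval_germ, aeval_germ, germ_div, hy]
      simp only [div_eq_inv_mul]
    rw [e1]
    exact div_mem (gapA_aeval_mem _ _) (gapA_aeval_mem _ _)) (hw l)
  have hε' : 0 < ε / (2 * (a + 1)) := by positivity
  obtain ⟨W, hW, H⟩ := mainT A A.ao (univ.image fun p : T × Fin r => (G p.1).map (aeval ψ) p.2)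
    hi' hε'
  refine ⟨_, inter_mem ((hg.ne.and hg.zero).and ((hg.gen _ _ (ha _) hφ).and
    (hg.gen _ _ ((hd i).aeval φ ha) hi0))) hW, fun S => ?_⟩
  choose C₁ h1 using fun c : Pl S → T => H S (fun p => (G (c p)).map (aeval ψ))
    fun p l => mem_image.2 ⟨(c p, l), mem_univ _, rfl⟩
  obtain ⟨C₀, hC₀⟩ := Finite.bddAbove_range C₁
  obtain ⟨N, hN⟩ : ∃ N : ℝ, N = ∑ p : Pl S, (mu p : ℝ) * (r * e) := ⟨_, rfl⟩
  have hN0 : 0 ≤ N := by
    rw [hN]
    positivity
  obtain ⟨C₂, -, h2⟩ := absA_all A A.ao S (univ.image ψ) (ε := ε / (2 * (a + 1)) / (N + 1))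
    (by positivity)
  obtain ⟨C₃, h3⟩ := logHeight_eval_le' ha
  refine ⟨C₀ + N * C₂ + 2 * (ε / (2 * (a + 1)) * C₃), ?_⟩
  rintro b ⟨⟨⟨x0, xz⟩, x1, x2⟩, bW⟩ c g1 g2
  obtain ⟨c₀, hc₀, e0⟩ := h.pt (x := x b) x0 xz x2
  obtain ⟨s, hs, e1⟩ : ∃ s : k, s ≠ 0 ∧ ∀ a, eval (y b) (ψ a) = s * x b a :=
    ⟨(eval (x b) (φ A.ao))⁻¹ ^ d * c₀, mul_ne_zero (pow_ne_zero _ (inv_ne_zero x1)) hc₀, fun a => by
      rw [hy, eval_mul_of_hom (hd a), mul_assoc, ← e0]
      rfl⟩
  have ya : Aff A A.ao (y b) := by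
    rw [hy]
    exact ⟨inv_mul_cancel₀ x1, zero_mul_of_hom A.hom (h.zero (x := x b) xz) _⟩
  have eG : ∀ τ, ((G τ).map (aeval ψ)).map (eval (y b)) = s ^ e • (G τ).map (eval (x b)) := by
    intro τ
    ext i j
    change eval (y b) (aeval ψ (G τ i j)) = s ^ e * eval (x b) (G τ i j)
    rw [← aeval_eq_eval, trans_aev, ← eval_mul_of_hom (hG τ i j), ← funext e1]
    rfl
  have hse := pow_ne_zero e hs
  have h4 := h1 c b bW ya
  simp only [eG, Matrix.smul_mulVec, Pi.smul_apply, smul_eq_mul, det_smul] at h4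
  replace h4 := h4 (fun p => mul_ne_zero (pow_ne_zero _ hse) (g1 p))
    fun p l => mul_ne_zero hse (g2 p l)
  have h0 := logHeight_nonneg (y b)
  have h5 : vol (fun p l => lamB (av p) e 0 (x b) (t b) (((G (c p)).map (eval (x b)) *ᵥ t b) l)) ≤
      vol (fun p l => lx (av p) (t b) (s ^ e * ((G (c p)).map (eval (x b)) *ᵥ t b) l)) +
        N * (ε / (2 * (a + 1)) / (N + 1) * logHeight (y b) + C₂) := by
    have k1 := h2 _ ya
    generalize ε / (2 * (a + 1)) / (N + 1) * logHeight (y b) + C₂ = R at k1 ⊢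
    rw [hN, vol, vol, sum_mul, ← sum_add_distrib]
    refine sum_le_sum fun p _ => ?_
    rw [mul_assoc, ← mul_add]
    refine mul_le_mul_of_nonneg_left ?_ (Nat.cast_nonneg _)
    have k2 : (r : ℝ) * e * R = ∑ _l : Fin r, e * R := by
      rw [sum_const, card_univ, Fintype.card_fin, nsmul_eq_mul, mul_assoc]
    rw [k2, ← sum_add_distrib]
    refine sum_le_sum fun l _ => ?_
    rw [lamB_eq _ e x0 (fun e0 => g2 p l (by rw [e0, mulVec_zero, Pi.zero_apply])) (g2 p l) hs]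
    refine add_le_add le_rfl (mul_le_mul_of_nonneg_left ?_ (Nat.cast_nonneg _))
    rw [Real.log_le_iff_le_exp (by
      rw [iSup_mul_left]
      exact mul_pos ((av p).pos hs) (sup_pos _ x0))]
    exact Real.iSup_le (fun a => e1 a ▸ (k1 p _ (mem_image_of_mem _ (mem_univ a))).1)
      (Real.exp_pos _).le
  have h6 : N * (ε / (2 * (a + 1)) / (N + 1) * logHeight (y b)) ≤
      ε / (2 * (a + 1)) * logHeight (y b) := by
    rw [← mul_assoc]
    refine mul_le_mul_of_nonneg_right ?_ h0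
    rw [← mul_div_assoc, div_le_iff₀ (by positivity)]
    nlinarith
  have h7 : logHeight (y b) ≤ C₃ + a * logHeight (x b) := by
    rw [hy]
    exact (logHeight_mul_left (inv_ne_zero x1) _).trans_le (h3 _)
  have h8 : 2 * (ε / (2 * (a + 1)) * (a * logHeight (x b))) ≤ ε * logHeight (x b) := by
    rw [← mul_assoc, ← mul_assoc]
    refine mul_le_mul_of_nonneg_right ?_ (logHeight_nonneg _)
    rw [mul_div_assoc', div_mul_eq_mul_div, div_le_iff₀ (by positivity)]
    nlinarith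
  have h9 : ε / (2 * (a + 1)) * logHeight (t b) ≤ ε * logHeight (t b) := mul_le_mul_of_nonneg_right
    (div_le_self hε.le (by linarith [a.cast_nonneg (α := ℝ)])) (logHeight_nonneg _)
  have h10 : C₁ c ≤ C₀ := hC₀ ⟨c, rfl⟩
  linarith [mul_le_mul_of_nonneg_left h7 hε'.le]

theorem sb_down {L : Type} [Field L] [NumberField L] [Algebra k L] {r : ℕ} {𝓕 : Filter β}
    {x : β → ι → k} {t : β → Fin r → k}
    (h : SB 𝓕 (fun b a => algebraMap k L (x b a)) fun b l => algebraMap k L (t b l)) :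
    SB 𝓕 x t := by
  intro T _ e G hG ε hε
  obtain ⟨W, hW, H⟩ := h T e (fun τ => (G τ).map (MvPolynomial.map (algebraMap k L)))
    (fun τ i j => (hG τ i j).map _) ε hε
  refine ⟨W, hW, fun S => ?_⟩
  obtain ⟨S', π, m, t1, t2⟩ := exists_below (K := L) S
  obtain ⟨C, hC⟩ := H S'
  have hn : (0 : ℝ) < finrank k L := Nat.cast_pos.2 finrank_pos
  refine ⟨C / finrank k L, fun b hb c g1 g2 => ?_⟩
  have eB : ∀ τ, ((G τ).map (MvPolynomial.map (algebraMap k L))).map
      (eval fun a => algebraMap k L (x b a)) = ((G τ).map (eval (x b))).map (algebraMap k L) := by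
    intro τ
    ext i j
    change eval _ (MvPolynomial.map _ (G τ i j)) = algebraMap k L (eval (x b) (G τ i j))
    rw [eval_map, ← eval₂_id, eval₂_comp_left]
    rfl
  have eX : ∀ τ l, (((G τ).map (eval (x b))).map (algebraMap k L) *ᵥ
      fun i => algebraMap k L (t b i)) l = algebraMap k L (((G τ).map (eval (x b)) *ᵥ t b) l) :=
    fun τ l => (RingHom.map_mulVec _ _ _ l).symm
  have h3 := hC b hb fun p => c (π p)
  simp only [eB, eX, vol, lamB_pow (t1 _), ← mul_sum,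
    MP_651af7_nt.Final.logHeight_algebraMap] at h3
  replace h3 := h3 (fun p => ((algebraMap k L).map_det _).symm.trans_ne
    ((map_ne_zero _).2 (g1 _))) fun p l => (map_ne_zero _).2 (g2 _ l)
  rw [t2 fun s => ∑ l, lamB (av s) e 0 (x b) (t b) (((G (c s)).map (eval (x b)) *ᵥ t b) l)] at h3
  refine le_of_mul_le_mul_left ?_ hn
  rw [mul_add _ (_ + _), mul_div_cancel₀ _ hn.ne', vol]
  linarith

theorem sb_abelian {I : Ideal (MvPolynomial ι k)}
    (_hI : ∀ P ∈ I, ∀ d, homogeneousComponent d P ∈ I)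
    (hA : Abelian (I.map (MvPolynomial.map (algebraMap k (AlgebraicClosure k))))) {r : ℕ}
    {𝓕 : Filter β} {x : β → ι → k} {t : β → Fin r → k} (hg : Gn 𝓕 I x)
    (hi : ∀ (L : Type) [Field L] [Algebra k L] [FiniteDimensional k L],
      HI 𝓕 (fun b a => algebraMap k L (x b a)) fun b l => algebraMap k L (t b l)) :
    SB 𝓕 x t := by
  obtain ⟨A, _, co, a1, a2⟩ := hA
  obtain ⟨m, J', co', Φ, h1, h2, h3, h4⟩ := Cu.model a1 a2
  have : Nonempty A := ⟨0⟩
  obtain ⟨K, hK, B, hB⟩ := descend (k := k) h1 h2 (a1.birat h1 h3 h4)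
  have : NumberField K := NumberField.of_module_finite k K
  refine sb_down (sb_birat B hB
    ⟨hg.ne.mono fun b h h' => h (funext fun a => (map_eq_zero _).1 (congrFun h' a)),
      hg.zero.mono fun b => zero_up, fun P d hP h0 => ?_⟩ (hi K))
  obtain ⟨l, hl⟩ : ∃ l : K →ₗ[k] k, Av.cf l P ∉ I :=
    not_forall.1 fun h => h0 (map_le_up (mem_map_of_cf h))
  refine (hg.gen _ d (fun m hm => hP fun e => hm ?_) hl).mono fun b h e => h ?_
  · rw [coeff_cf, e, map_zero]
  · rw [eval_cf, e, map_zero]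

end Pool.Agent.Lib.MP_651af7_nt.Fc
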