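import Pool.Agent.Lib.MP_651af7_nt.Fc.RVD

/-! General position in the charts. -/

namespace Pool.Agent.Lib.MP_651af7_nt.Fc

variable (F : Type) {K κ : Type} [Field F] [Field K] [Algebra F K] (f : κ → K)
  {q s : ℕ} (u : Fin q → Fin s → K) (δ : Fin q → ℕ)

/-- In each chart any `t` of the local equations `φ j` span an ideal of height at least `t`. -/
def GenPos : Prop :=
  ∀ e c, f e ≠ 0 → (∀ j, u j (c j) ≠ 0) → ∀ φ : Fin q → chart F f u e c,
    (∀ j, φ j = u j (c j) / f e ^ δ j) → ∀ T : Finset (Fin q),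
      (T.card : ℕ∞) ≤ (Ideal.span (φ '' T)).height

end Pool.Agent.Lib.MP_651af7_nt.Fc
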