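import Pool.Agent.Lib.MP_651af7_nt.Fc.Main
import Pool.Agent.Lib.MP_651af7_nt.Fc.RV
import Pool.Agent.Lib.MP_651af7_nt.Fc.GP

/-! The general theorem of Ru and Vojta with the constants of the generic fibre. -/

namespace Pool.Agent.Lib.MP_651af7_nt.Fc

open Height MvPolynomial NumberField IntermediateField Ds
open Rt (Pl av mu)

theorem general (k : Type) [Field k] [NumberField k] (g n q s : ℕ)
    (J : Ideal (MvPolynomial (Fin g) k)) (hJ : ∀ P ∈ J, ∀ d, homogeneousComponent d P ∈ J)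
    (hA : Abelian (J.map (MvPolynomial.map (algebraMap k (AlgebraicClosure k)))))
    (K : Type) [Field K] [Algebra k K] (y : Fin g → K) (f : Fin n → K)
    (hy : ∀ (P : MvPolynomial (Fin g) k) (d : ℕ), P.IsHomogeneous d → (aeval y P = 0 ↔ P ∈ J))
    (y1 : ∃ i, y i = 1) (f1 : ∃ i, f i ≠ 0) (F : IntermediateField k K)
    (hF : F = adjoin k (Set.range y)) (hK : adjoin F (Set.range f) = ⊤)
    (hc : ∀ z : K, IsAlgebraic F z → z ∈ F) (U : Fin q → Fin s → MvPolynomial (Fin g ⊕ Fin n) k)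
    (hU : ∀ j, ∃ l, aeval (Sum.elim y f) (U j l) ≠ 0) (e δ : Fin q → ℕ)
    (hδ : ∀ j l, aeval (Sum.elim y f) (U j l) ∈ mon F f (δ j))
    (hP : Proper F f (fun j l => aeval (Sum.elim y f) (U j l)) δ) (ε : ℝ) (hε : 0 < ε) :
    ∃ Θ : MvPolynomial (Fin g ⊕ Fin n) k, aeval (Sum.elim y f) Θ ≠ 0 ∧
      ∀ S : Finset (FinitePlace k), ∃ C : ℝ, ∀ (x : Fin g → k) (t : Fin n → k),
        (∀ P, aeval (Sum.elim y f) P = 0 → eval (Sum.elim x t) P = 0) →
        eval (Sum.elim x t) Θ ≠ 0 → (∀ j, ∃ l, eval (Sum.elim x t) (U j l) ≠ 0) ∧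
        ∑ j, beta F f (fun j l => aeval (Sum.elim y f) (U j l)) δ j *
          (∑ v : InfinitePlace k, v.mult * Real.log ((⨆ i, v (x i)) ^ e j *
            (⨆ i, v (t i)) ^ δ j / ⨆ l, v (eval (Sum.elim x t) (U j l))) +
          ∑ v ∈ S, Real.log ((⨆ i, v (x i)) ^ e j *
            (⨆ i, v (t i)) ^ δ j / ⨆ l, v (eval (Sum.elim x t) (U j l)))) ≤
        (1 + ε) * logHeight t + ε * logHeight x + C := by
  subst hF
  have D : Dat J y := ⟨hJ, hA, y1, hy, hc⟩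
  obtain ⟨W, w1, h1⟩ := beta_main f1 hδ hP
    (𝓕 := gen k (Sum.elim y f)) (fun (S : Finset (FinitePlace k)) j p => ∑ s : Pl S, mu s *
      Real.log ((⨆ i, av s (p (.inl i))) ^ e j * (⨆ i, av s (p (.inr i))) ^ δ j /
        ⨆ l, av s (eval p (U j l)))) (fun p => logHeight fun i => p (.inr i))
    (fun p => logHeight fun i => p (.inl i)) (fun _ => logHeight_nonneg _)
    (fun _ => logHeight_nonneg _) (fun a b hN ε hε => (D.ineq hK hU e hN hε).imp fun W =>
      .imp_right fun h S => (h S).imp fun C hC p hp => by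
        have := (hC p hp).2
        simp only [Finset.mul_sum, mul_left_comm (mu _ : ℝ)] at this ⊢
        rwa [Finset.sum_comm]) hε
  obtain ⟨v, h, hv⟩ := sp_top (k := k) hK
  choose l hl using hU
  have w2 : ∀ᶠ p in gen k (Sum.elim y f), ∀ j, eval p (U j (l j)) ≠ 0 :=
    Filter.eventually_all.2 fun j => ⟨_, hl j, fun _ _ h => h⟩
  obtain ⟨Θ, a1, a2⟩ := Filter.inter_mem w1 w2
  refine ⟨Θ, a1, fun S => (h1 S).imp fun C hC x t p1 p2 =>
    ⟨fun j => ⟨l j, (a2 _ p1 p2).2 j⟩, ?_⟩⟩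
  have h2 := hC _ (a2 _ p1 p2).1
  simp only [Fintype.sum_sum_type, Rt.mu, Rt.av, Sum.elim_inl, Sum.elim_inr, Nat.cast_one,
    one_mul] at h2
  refine le_trans (le_of_eq (Finset.sum_congr rfl fun j _ => ?_)) h2
  rw [← Finset.sum_coe_sort S]
  rfl

end Pool.Agent.Lib.MP_651af7_nt.Fc
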