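import Mathlib

/-! Specialisation of the elements of a function field at points in general position. -/

namespace Pool.Agent.Lib.MP_651af7_nt.Fc

open MvPolynomial Filter

variable {k K β σ : Type} [Field k] [Field K] [Algebra k K]

/-- The values `v p` respect each single operation at almost all points. -/
structure Sp (𝓕 : Filter β) (v : β → K → k) : Prop where
  add : ∀ a b, ∀ᶠ p in 𝓕, v p (a + b) = v p a + v p b
  mul : ∀ a b, ∀ᶠ p in 𝓕, v p (a * b) = v p a * v p b
  const : ∀ c, ∀ᶠ p in 𝓕, v p (algebraMap k K c) = c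

namespace Sp

variable {𝓕 : Filter β} {v : β → K → k} (h : Sp 𝓕 v)
include h

theorem one : ∀ᶠ p in 𝓕, v p 1 = 1 := by simpa using h.const 1

theorem zero : ∀ᶠ p in 𝓕, v p 0 = 0 := by simpa using h.const 0

theorem sum {τ : Type} (s : Finset τ) (f : τ → K) :
    ∀ᶠ p in 𝓕, v p (∑ i ∈ s, f i) = ∑ i ∈ s, v p (f i) := by
  classical
  induction s using Finset.induction_on with
  | empty => simpa using h.zero
  | insert a s ha ih =>
    filter_upwards [ih, h.add (f a) (∑ i ∈ s, f i)] with p h1 h2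
    rw [Finset.sum_insert ha, Finset.sum_insert ha, h2, h1]

theorem prod {τ : Type} (s : Finset τ) (f : τ → K) :
    ∀ᶠ p in 𝓕, v p (∏ i ∈ s, f i) = ∏ i ∈ s, v p (f i) := by
  classical
  induction s using Finset.induction_on with
  | empty => simpa using h.one
  | insert a s ha ih =>
    filter_upwards [ih, h.mul (f a) (∏ i ∈ s, f i)] with p h1 h2
    rw [Finset.prod_insert ha, Finset.prod_insert ha, h2, h1]

theorem pow (a : K) (n : ℕ) : ∀ᶠ p in 𝓕, v p (a ^ n) = v p a ^ n := by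
  simpa using h.prod (Finset.range n) fun _ => a

theorem ne {a : K} (ha : a ≠ 0) : ∀ᶠ p in 𝓕, v p a ≠ 0 := by
  filter_upwards [h.one, h.mul a a⁻¹] with p h1 h2 h3
  rw [mul_inv_cancel₀ ha, h1, h3, zero_mul] at h2
  exact one_ne_zero h2

theorem inv (a : K) : ∀ᶠ p in 𝓕, v p a⁻¹ = (v p a)⁻¹ := by
  rcases eq_or_ne a 0 with rfl | ha
  · filter_upwards [h.zero] with p hp
    rw [inv_zero, hp, inv_zero]
  filter_upwards [h.one, h.mul a a⁻¹] with p h1 h2
  rw [mul_inv_cancel₀ ha, h1] at h2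
  exact eq_inv_of_mul_eq_one_right h2.symm

theorem aeval (z : σ → K) (P : MvPolynomial σ k) :
    ∀ᶠ p in 𝓕, v p (aeval z P) = eval (fun s => v p (z s)) P := by
  induction P using MvPolynomial.induction_on with
  | C c => simpa using h.const c
  | add P Q hP hQ =>
    filter_upwards [hP, hQ, h.add (MvPolynomial.aeval z P) (MvPolynomial.aeval z Q)] with p h1 h2 h3
    rw [map_add, map_add, h3, h1, h2]
  | mul_X P s hP =>
    filter_upwards [hP, h.mul (MvPolynomial.aeval z P) (z s)] with p h1 h2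
    rw [map_mul, map_mul, aeval_X, eval_X, h2, h1]

end Sp

variable (k) in
/-- The sets that contain the points of a dense open part of the variety with generic point `ξ`. -/
def gen (ξ : σ → K) : Filter (σ → k) where
  sets := {W | ∃ Θ : MvPolynomial σ k, aeval ξ Θ ≠ 0 ∧
    ∀ p, (∀ P, aeval ξ P = 0 → eval p P = 0) → eval p Θ ≠ 0 → p ∈ W}
  univ_sets := ⟨1, by simp, fun _ _ _ => trivial⟩
  sets_of_superset := fun ⟨Θ, h1, h2⟩ h => ⟨Θ, h1, fun p a b => h (h2 p a b)⟩
  inter_sets := fun ⟨Θ, h1, h2⟩ ⟨Θ', h3, h4⟩ => ⟨Θ * Θ', by rw [map_mul]; exact mul_ne_zero h1 h3,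
    fun p a b => by
      rw [map_mul, mul_ne_zero_iff] at b
      exact ⟨h2 p a b.1, h4 p a b.2⟩⟩

theorem exists_sp {ξ : σ → K} (hξ : IntermediateField.adjoin k (Set.range ξ) = ⊤) :
    ∃ v : (σ → k) → K → k, Sp (gen k ξ) v ∧ ∀ s, ∀ᶠ p in gen k ξ, v p (ξ s) = p s := by
  have h1 : ∀ η : K, ∃ A B : MvPolynomial σ k, aeval ξ B ≠ 0 ∧ η * aeval ξ B = aeval ξ A := by
    intro η
    obtain ⟨A, B, rfl⟩ := (IntermediateField.mem_adjoin_range_iff k ξ η).1
      (hξ ▸ IntermediateField.mem_top)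
    by_cases hB : aeval ξ B = 0
    · exact ⟨0, 1, by simp, by simp [hB]⟩
    · exact ⟨A, B, hB, div_mul_cancel₀ _ hB⟩
  choose A B hB hA using h1
  have h2 : ∀ {Q : MvPolynomial σ k}, aeval ξ Q ≠ 0 → ∀ᶠ p in gen k ξ, eval p Q ≠ 0 :=
    fun {Q} hQ => ⟨Q, hQ, fun _ _ h => h⟩
  have h3 : ∀ η (P Q : MvPolynomial σ k), aeval ξ Q ≠ 0 → η * aeval ξ Q = aeval ξ P →
      ∀ᶠ p in gen k ξ, eval p (A η) / eval p (B η) = eval p P / eval p Q := by
    intro η P Q hQ e
    refine ⟨B η * Q, by rw [map_mul]; exact mul_ne_zero (hB η) hQ, fun p a b => ?_⟩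
    rw [map_mul, mul_ne_zero_iff] at b
    have := a (A η * Q - P * B η) (by simp only [map_sub, map_mul, ← hA, ← e]; ring)
    rw [map_sub, map_mul, map_mul, sub_eq_zero] at this
    exact (div_eq_div_iff b.1 b.2).2 this
  refine ⟨fun p η => eval p (A η) / eval p (B η), ⟨fun a b => ?_, fun a b => ?_, fun c => ?_⟩,
    fun s => ?_⟩
  · filter_upwards [h3 (a + b) (A a * B b + B a * A b) (B a * B b)
      (by rw [map_mul]; exact mul_ne_zero (hB a) (hB b))
      (by simp only [map_add, map_mul, ← hA]; ring), h2 (hB a), h2 (hB b)] with p e h4 h5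
    rw [e, div_add_div _ _ h4 h5, map_add, map_mul, map_mul, map_mul]
  · filter_upwards [h3 (a * b) (A a * A b) (B a * B b)
      (by rw [map_mul]; exact mul_ne_zero (hB a) (hB b))
      (by simp only [map_mul, ← hA]; ring)] with p e
    rw [e, div_mul_div_comm, map_mul, map_mul]
  · simpa using h3 (algebraMap k K c) (C c) 1 (by simp) (by simp)
  · simpa using h3 (ξ s) (X s) 1 (by simp) (by simp)

end Pool.Agent.Lib.MP_651af7_nt.Fc
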