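import Pool.Agent.Lib.MP_651af7_nt.Fc.Mod
import Pool.Agent.Lib.MP_651af7_nt.Fc.Sp
import Pool.Agent.Lib.MP_651af7_nt.Fc.FG

/-! The subspace inequality for functions on the total space. -/

namespace Pool.Agent.Lib.MP_651af7_nt.Fc

open MvPolynomial Finset Height NumberField Matrix Filter Av As Bx Ds
open IntermediateField (adjoin)
open Rt (Pl av mu)
open Es (vol)
open Ex (lx)

theorem alg_of_cl {k L E F : Type} [Field k] [Field L] [Field E] [Field F] [Algebra k L]
    [Algebra.IsAlgebraic k L] [Algebra k E] [Algebra k F] [Algebra L F] [Algebra E F]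
    [IsScalarTower k L F] [IsScalarTower k E F] {S : Set F} (hS : S ⊆ Set.range (algebraMap E F))
    {w : F} (hw : w ∈ Cl L S) : IsAlgebraic E w := by
  have h2 : ∀ x ∈ Algebra.adjoin L S, x ∈ algebraicClosure E F := fun x hx => by
    induction hx using Algebra.adjoin_induction with
    | mem x hx =>
      obtain ⟨c, rfl⟩ := hS hx
      exact IntermediateField.algebraMap_mem _ c
    | algebraMap c =>
      exact mem_algebraicClosure_iff.2
        ((Algebra.IsAlgebraic.isAlgebraic (R := k) c).algebraMap.tower_top E)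
    | add x y _ _ hx hy => exact add_mem hx hy
    | mul x y _ _ hx hy => exact mul_mem hx hy
  have h3 : IsAlgebraic (algebraicClosure E F) w := IsAlgebraic.ringHom_of_comp_eq
    ((Algebra.adjoin L S).val.toRingHom.codRestrict _ fun x => h2 _ x.2) (RingHom.id F) hw
    (fun x y e => Subtype.ext (congrArg Subtype.val e :)) rfl
  exact h3.restrictScalars E

variable {k K ι β : Type} [Field k] [Field K] [Algebra k K] [Fintype ι]

/-- `y` is a generic point of the abelian variety of `J`, and the function field of `J` is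
algebraically closed in `K`. -/
structure Dat (J : Ideal (MvPolynomial ι k)) (y : ι → K) : Prop where
  hom : ∀ P ∈ J, ∀ d, homogeneousComponent d P ∈ J
  ab : Abelian (J.map (MvPolynomial.map (algebraMap k (AlgebraicClosure k))))
  one : ∃ a, y a = 1
  gen : ∀ (P : MvPolynomial ι k) (d : ℕ), P.IsHomogeneous d → (aeval y P = 0 ↔ P ∈ J)
  cl : ∀ z : K, IsAlgebraic (adjoin k (Set.range y)) z → z ∈ adjoin k (Set.range y)

variable {J : Ideal (MvPolynomial ι k)} {y : ι → K} {𝓕 : Filter β} {v : β → K → k}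

theorem Dat.frac (D : Dat J y) {τ : Type} [Fintype τ] (z : τ → adjoin k (Set.range y)) :
    ∃ (e : ℕ) (A : τ → MvPolynomial ι k) (B : MvPolynomial ι k), (∀ i, (A i).IsHomogeneous e) ∧
      B.IsHomogeneous e ∧ aeval y B ≠ 0 ∧ ∀ i, aeval y (A i) = aeval y B * z i := by
  classical
  have h1 : ∀ i, ∃ A B : MvPolynomial ι k, aeval y B ≠ 0 ∧ aeval y A = aeval y B * z i := by
    intro i
    obtain ⟨A, B, e⟩ := (IntermediateField.mem_adjoin_range_iff k y _).1 (z i).2
    by_cases hB : aeval y B = 0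
    · exact ⟨0, 1, by simp, by simp [e, hB]⟩
    · exact ⟨A, B, hB, by rw [e, mul_div_cancel₀ _ hB]⟩
  choose A B hB hA using h1
  obtain ⟨a, ha⟩ := D.one
  let Q : Option τ → MvPolynomial ι k := fun o =>
    o.elim (∏ i, B i) fun i => A i * ∏ j ∈ univ.erase i, B j
  choose R h2 h3 using fun o => exists_homog a (Q o) (d := univ.sup fun o => (Q o).totalDegree)
    (le_sup (f := fun o => (Q o).totalDegree) (mem_univ o))
  refine ⟨_, fun i => R (some i), R none, fun i => h2 _, h2 _, ?_, fun i => ?_⟩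
  · rw [h3 _ _ _ ha]
    exact (map_prod (aeval y) B univ).trans_ne (prod_ne_zero_iff.2 fun i _ => hB i)
  · rw [h3 _ _ _ ha, h3 _ _ _ ha]
    simp only [Q, Option.elim, ← mul_prod_erase univ B (mem_univ i), map_mul, hA]
    ring

theorem Dat.gn (D : Dat J y) (h : Sp 𝓕 v) : Gn 𝓕 J fun p a => v p (y a) := by
  obtain ⟨a, ha⟩ := D.one
  refine ⟨h.one.mono fun p hp e => one_ne_zero (hp.symm.trans (ha ▸ congrFun e a)), ?_,
    fun P d h1 h2 => ?_⟩
  · obtain ⟨s, hs⟩ : J.FG := IsNoetherian.noetherian J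
    have h1 : ∀ P ∈ s, ∀ᶠ p in 𝓕, eval (fun a => v p (y a)) P = 0 := fun P hP => by
      have h2 : aeval y P = 0 := by
        rw [← sum_homogeneousComponent P, map_sum]
        exact sum_eq_zero fun d _ => (D.gen _ d (homogeneousComponent_isHomogeneous d P)).2
          (D.hom P (hs ▸ Ideal.subset_span hP) d)
      filter_upwards [h.aeval y P, h.zero] with p h3 h4
      rw [← h3, h2, h4]
    refine ((eventually_all_finset s).2 h1).mono fun p hp => ?_
    exact hs ▸ (Ideal.span_le (I := RingHom.ker (eval fun a => v p (y a)))).2 hp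
  · filter_upwards [h.aeval y P, h.ne (mt (D.gen P d h1).1 h2)] with p h3 h4
    rwa [← h3]

theorem Dat.hi [CharZero k] (D : Dat J y) (h : Sp 𝓕 v) {r : ℕ} {t : Fin r → K}
    (ht : LinearIndependent (adjoin k (Set.range y)) t) (L : Type) [Field L] [Algebra k L]
    [FiniteDimensional k L] : HI 𝓕 (fun p a => algebraMap k L (v p (y a)))
      fun p l => algebraMap k L (v p (t l)) := by
  intro α U j hj w hw h0
  let φ : K →+* Up U L :=
    { toFun := fun η => germ U fun m => algebraMap k L (v (j m) η)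
      map_one' := (germ_eq U (g := 1)).2 ((hj.eventually h.one).mono fun m hm => by simp [hm])
      map_zero' := germ_eq_zero.2 ((hj.eventually h.zero).mono fun m hm => by simp [hm])
      map_add' := fun a b => by
        rw [← map_add, germ_eq]
        exact (hj.eventually (h.add a b)).mono fun m hm => by simp [hm]
      map_mul' := fun a b => by
        rw [← map_mul, germ_eq]
        exact (hj.eventually (h.mul a b)).mono fun m hm => by simp [hm] }
  let : Algebra k (Up U L) := ((algebraMap L _).comp (algebraMap k L)).toAlgebra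
  let : Algebra (adjoin k (Set.range y)) (Up U L) := (φ.comp (algebraMap _ K)).toAlgebra
  have : IsScalarTower k L (Up U L) := .of_algebraMap_eq fun _ => rfl
  have : IsScalarTower k (adjoin k (Set.range y)) (Up U L) := .of_algebraMap_eq fun c =>
    (germ_eq U).2 ((hj.eventually (h.const c)).mono fun m hm => congrArg _ hm.symm)
  refine ind { φ with commutes' := fun _ => rfl } (fun z hz => ⟨⟨z, D.cl z hz⟩, rfl⟩) ht
    (fun l => alg_of_cl (k := k) ?_ (hw l)) h0
  rintro _ ⟨a, rfl⟩
  exact ⟨⟨y a, IntermediateField.subset_adjoin _ _ ⟨a, rfl⟩⟩, rfl⟩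

theorem lx_le {n : ℕ} (w : AbsoluteValue k ℝ) (e : ℕ) {x : ι → k} (hx : x ≠ 0) (t : Fin n → k)
    {c l : k} (hc : c ≠ 0) (hl : l ≠ 0) {C : ℝ} (h : w c ≤ C * (⨆ a, w (x a)) ^ e) :
    lx w t l ≤ lamB w e 0 x t (c * l) + |Real.log C| := by
  have h1 := pow_pos (Db.sup_pos w hx) e
  have h2 := w.pos hc
  have h3 := w.pos hl
  have h4 : 0 < C := (mul_pos_iff_of_pos_right h1).1 (h2.trans_le h)
  have h5 := Real.log_le_log h2 h
  rw [lx, lamB, pow_zero, one_mul, map_mul]
  by_cases hY : ⨆ i, w (t i) = 0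
  · simp [hY]
  simp (disch := positivity) only [Real.log_div, Real.log_mul] at h5 ⊢
  linarith [le_abs_self (Real.log C)]

variable [NumberField k]

theorem Dat.sub (D : Dat J y) (h : Sp 𝓕 v) {r : ℕ} {t : Fin r → K}
    (ht : LinearIndependent (adjoin k (Set.range y)) t) {T : Type} [Fintype T]
    (G : T → Matrix (Fin r) (Fin r) (adjoin k (Set.range y))) (hG : ∀ τ, (G τ).det ≠ 0) {ε : ℝ}
    (hε : 0 < ε) : ∃ W ∈ 𝓕, ∀ S : Finset (FinitePlace k), ∃ C : ℝ, ∀ p ∈ W, ∀ c : Pl S → T,
      vol (fun s l => lx (av s) (fun m => v p (t m)) (v p (∑ m, G (c s) l m • t m))) ≤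
        r * logHeight (fun m => v p (t m)) +
          ε * (logHeight (fun a => v p (y a)) + logHeight fun m => v p (t m)) + C := by
  obtain ⟨e, A, B, a1, a2, a3, a4⟩ := D.frac fun u : T × Fin r × Fin r => G u.1 u.2.1 u.2.2
  let M : T → Matrix (Fin r) (Fin r) (MvPolynomial ι k) := fun τ => of fun i j => A (τ, i, j)
  obtain ⟨W, hW, h1⟩ := sb_abelian D.hom D.ab (D.gn h) (D.hi h ht) T e M (fun τ i j => a1 _) ε hε
  have b1 : ∀ τ, ∀ᶠ p in 𝓕, ((M τ).map (eval fun a => v p (y a))).det ≠ 0 := fun τ => by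
    have e1 : (M τ).map (aeval y) = aeval y B • (G τ).map (algebraMap _ K) := by
      ext i j
      exact a4 (τ, i, j)
    have e2 : aeval y (M τ).det ≠ 0 := by
      rw [AlgHom.map_det, AlgHom.mapMatrix_apply, e1, det_smul]
      refine mul_ne_zero (pow_ne_zero _ a3) ?_
      rw [← RingHom.mapMatrix_apply, ← RingHom.map_det, map_ne_zero]
      exact hG τ
    filter_upwards [h.aeval y (M τ).det, h.ne e2] with p h3 h4
    rwa [h3, RingHom.map_det] at h4
  have b2 : ∀ u : T × Fin r, ∀ᶠ p in 𝓕, v p (∑ m, G u.1 u.2 m • t m) ≠ 0 ∧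
      ((M u.1).map (eval fun a => v p (y a)) *ᵥ fun m => v p (t m)) u.2 =
        eval (fun a => v p (y a)) B * v p (∑ m, G u.1 u.2 m • t m) := fun ⟨τ, l⟩ => by
    have e1 : ∑ m, G τ l m • t m ≠ 0 := fun e => hG τ
      (det_eq_zero_of_row_eq_zero l (Fintype.linearIndependent_iff.1 ht _ e))
    have e2 : aeval y B * ∑ m, G τ l m • t m = ∑ m, aeval y (A (τ, l, m)) * t m := by
      rw [mul_sum]
      exact sum_congr rfl fun m _ => by rw [a4, mul_assoc]; rfl
    filter_upwards [h.ne e1, h.aeval y B, h.mul (aeval y B) (∑ m, G τ l m • t m),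
      h.sum univ fun m => aeval y (A (τ, l, m)) * t m,
      eventually_all.2 fun m => (h.aeval y (A (τ, l, m))).and (h.mul (aeval y (A (τ, l, m))) (t m))]
      with p h2 h3 h4 h5 h6
    refine ⟨h2, ?_⟩
    rw [← h3, ← h4, e2, h5]
    simp only [h6]
    rfl
  have b3 := (D.gn h).gen B e a2 (mt (D.gen B e a2).2 a3)
  refine ⟨_, inter_mem hW ((D.gn h).ne.and
    (b3.and ((eventually_all.2 b1).and (eventually_all.2 b2)))), fun S => ?_⟩
  obtain ⟨C, hC⟩ := h1 S
  choose c₀ _ hc using fun s : Pl S => sup_eval_le (ψ := fun _ : Unit => B) (av s) fun _ => a2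
  refine ⟨C + vol fun s (_ : Fin r) => |Real.log (c₀ s)|, fun p ⟨p1, p2, p3, p4, p5⟩ c => ?_⟩
  have h2 := hC p p1 c (fun s => p4 _) fun s l => by
    rw [(p5 (c s, l)).2]
    exact mul_ne_zero p3 (p5 (c s, l)).1
  rw [← add_assoc]
  refine le_trans ?_ (add_le_add_left h2 _)
  simp only [vol, ← sum_add_distrib, ← mul_add]
  refine sum_le_sum fun s _ => mul_le_mul_of_nonneg_left (sum_le_sum fun l _ => ?_)
    (Nat.cast_nonneg _)
  rw [(p5 (c s, l)).2]
  exact lx_le _ e p2 _ p3 (p5 (c s, l)).1 (by simpa using hc s _)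

end Pool.Agent.Lib.MP_651af7_nt.Fc
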